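import Pool.Agent.LibS4C.Defs
set_option autoImplicit false
set_option linter.unusedSectionVars false
namespace S4C
open Finset

variable {V : Type} [Fintype V] [DecidableEq V]

/-- graph of a permutation -/
def gr (σ : Equiv.Perm V) : SimpleGraph V where
  Adj v w := v ≠ w ∧ (w = σ v ∨ v = σ w)
  symm := ⟨fun v w h => ⟨h.1.symm, h.2.symm⟩⟩
  loopless := ⟨fun v h => h.1 rfl⟩

theorem gr_adj {σ : Equiv.Perm V} {v w : V} (h : (gr σ).Adj v w) : w = σ v ∨ w = σ⁻¹ v := by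
  rcases h.2 with h | h
  · exact Or.inl h
  · exact Or.inr (by rw [h]; simp)

theorem gr_adj_iff {σ : Equiv.Perm V} {v w : V} : (gr σ).Adj v w ↔ v ≠ w ∧ (w = σ v ∨ w = σ⁻¹ v) := by
  constructor
  · intro h
    exact ⟨h.1, gr_adj h⟩
  · rintro ⟨h, rfl | rfl⟩
    · exact ⟨h, Or.inl rfl⟩
    · exact ⟨h, Or.inr (by simp)⟩

theorem gr_sameCycle {σ : Equiv.Perm V} {v w : V} (h : (gr σ).Adj v w) : σ.SameCycle v w := by
  rcases gr_adj h with rfl | rfl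
  · exact ⟨1, by simp⟩
  · exact ⟨-1, by simp⟩

structure Cfg (σ : Equiv.Perm V) (b : V → ℕ) where
  R : Finset ℕ
  Sp : Finset V
  SpO : Finset V
  T1 : Finset V
  S : Finset ℕ
  r : ℕ → ℕ
  t : ℕ → V
  e1 : ℕ → V
  e2 : ℕ → V
  hb : Fib4 b
  hrc : RC σ b
  st : State σ b R Sp
  v1 : ∀ w, b w ∈ dbl b R Sp → w ∈ Sp ∨ σ w ∈ Sp ∨ σ⁻¹ w ∈ Sp
  v2 : ∀ a ∈ Sp, σ (σ (σ a)) ≠ a → ¬ (b (σ a) ∈ dbl b R Sp ∧ b (σ⁻¹ a) ∈ dbl b R Sp)
  hO : ∀ a ∈ SpO, b a ∉ R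
  hcov : ∀ v, Cyc3 σ v → (∃ a ∈ Sp, σ.SameCycle v a) ∨ (∃ a ∈ SpO, σ.SameCycle v a)
  T1R : ∀ v ∈ T1, b v ∉ R
  T1b : ∀ v, b v ∉ R → ∃ t ∈ T1, b t = b v
  T1i : ∀ t ∈ T1, ∀ t' ∈ T1, b t = b t' → t = t'
  T1s : ∀ t ∈ T1, σ t ≠ t → σ t ∉ T1
  T1h : ∀ a ∈ SpO, ∃ t ∈ T1, σ.SameCycle a t
  SD : S ⊆ dbl b R Sp
  Sc : ∀ a ∈ Sp, b a ∈ S → b (σ a) ∈ S ∨ b (σ⁻¹ a) ∈ S
  tt : ∀ z ∈ dbl b R Sp, z ∉ S → t z ∈ Sp ∧ b (t z) = z ∧
        (b (σ (t z)) ∈ dbl b R Sp → b (σ (t z)) ∉ S ∧ r (b (σ (t z))) < r z) ∧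
        (b (σ⁻¹ (t z)) ∈ dbl b R Sp → b (σ⁻¹ (t z)) ∉ S ∧ r (b (σ⁻¹ (t z))) < r z)
  hne : ∀ z ∈ dbl b R Sp, e1 z ≠ e2 z
  he : ∀ z ∈ dbl b R Sp, ∀ v, (v = e1 z ∨ v = e2 z) ↔ (b v = z ∧ v ∉ Sp)

namespace Cfg
variable {σ : Equiv.Perm V} {b : V → ℕ} (C : Cfg σ b)

/-- doubles -/
def D : Finset ℕ := dbl b C.R C.Sp

/-- colour 4 outside the stuck set -/
def T : Finset V := C.T1 ∪ C.Sp.filter (fun a => b a ∉ C.S ∧ (b a ∈ C.D → a ≠ C.t (b a)))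

def U : Finset V := univ.filter (fun v => v ∉ C.T ∧ b v ∉ C.D)

theorem D_sub_R {z : ℕ} (h : z ∈ C.D) : z ∈ C.R := (mem_filter.mp h).1

theorem S_sub_D {z : ℕ} (h : z ∈ C.S) : z ∈ C.D := C.SD h

theorem sigma_notMem {a : V} (ha : a ∈ C.Sp) : σ a ∉ C.Sp := by
  intro h
  have := C.st.dist a ha (σ a) h ⟨1, by simp⟩
  exact (C.st.cyc a ha).1 this.symm

theorem sigma_inv_notMem {a : V} (ha : a ∈ C.Sp) : σ⁻¹ a ∉ C.Sp := by
  intro h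
  have := C.st.dist a ha (σ⁻¹ a) h ⟨-1, by simp⟩
  apply (C.st.cyc a ha).1
  conv_lhs => rw [this]
  simp

theorem sigma_ne {a : V} (ha : a ∈ C.Sp) : σ a ≠ a := (C.st.cyc a ha).1

theorem sigma_inv_ne {a : V} (ha : a ∈ C.Sp) : σ⁻¹ a ≠ a := by
  intro h
  apply (C.st.cyc a ha).1
  conv_lhs => rw [← h]
  simp

theorem sigma_ne_inv {a : V} (ha : a ∈ C.Sp) : σ a ≠ σ⁻¹ a := by
  intro h
  apply (C.st.cyc a ha).2
  rw [h]; simp

theorem T_cyc {a w : V} (ha : a ∈ C.Sp) (hw : σ.SameCycle a w) (hT : w ∈ C.T) : w = a := by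
  rcases mem_union.mp hT with h | h
  · exact absurd (C.st.inR a ha w hw) (C.T1R w h)
  · exact (C.st.dist a ha w (mem_filter.mp h).1 hw).symm

theorem U_notSp {v : V} (hv : v ∈ C.U) : v ∉ C.Sp := by
  intro h
  obtain ⟨_, h1, h2⟩ := mem_filter.mp hv
  apply h1
  refine mem_union.mpr (Or.inr (mem_filter.mpr ⟨h, fun hS => h2 (C.S_sub_D hS), fun hD => absurd hD h2⟩))

theorem U_notD {v : V} (hv : v ∈ C.U) : b v ∉ C.D := (mem_filter.mp hv).2.2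

theorem U_notT {v : V} (hv : v ∈ C.U) : v ∉ C.T := (mem_filter.mp hv).2.1

theorem mem_U {v : V} (h1 : v ∉ C.T) (h2 : b v ∉ C.D) : v ∈ C.U :=
  mem_filter.mpr ⟨mem_univ _, h1, h2⟩

/-- membership in the endpoint sets -/
theorem mem_End {D' : Finset ℕ} (hD' : D' ⊆ C.D) (x : V) :
    x ∈ D'.image C.e1 ∪ D'.image C.e2 ↔ b x ∈ D' ∧ x ∉ C.Sp := by
  constructor
  · intro h
    rcases mem_union.mp h with h | h
    · obtain ⟨z, hz, rfl⟩ := mem_image.mp h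
      have := (C.he z (hD' hz) (C.e1 z)).mp (Or.inl rfl)
      exact ⟨this.1.symm ▸ hz, this.2⟩
    · obtain ⟨z, hz, rfl⟩ := mem_image.mp h
      have := (C.he z (hD' hz) (C.e2 z)).mp (Or.inr rfl)
      exact ⟨this.1.symm ▸ hz, this.2⟩
  · rintro ⟨h1, h2⟩
    rcases (C.he (b x) (hD' h1) x).mpr ⟨rfl, h2⟩ with h | h
    · exact mem_union.mpr (Or.inl (mem_image.mpr ⟨b x, h1, h.symm⟩))
    · exact mem_union.mpr (Or.inr (mem_image.mpr ⟨b x, h1, h.symm⟩))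

/-- an endpoint in a double has an adjacent special -/
theorem special_of_end {x : V} (h1 : b x ∈ C.D) (h2 : x ∉ C.Sp) :
    ∃ a ∈ C.Sp, σ.SameCycle x a ∧ (x = σ a ∨ x = σ⁻¹ a) := by
  rcases C.v1 x h1 with h | h | h
  · exact absurd h h2
  · exact ⟨_, h, ⟨1, by simp⟩, Or.inr (by simp)⟩
  · exact ⟨_, h, ⟨-1, by simp⟩, Or.inl (by simp)⟩

/-- h4 -/
theorem h4 {e x y : V} (he1 : b e ∈ C.D) (he2 : e ∉ C.Sp) (hx : x ∉ C.Sp) (hy : y ∉ C.Sp)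
    (hex : (gr σ).Adj e x) (hey : (gr σ).Adj e y) : x = y := by
  obtain ⟨a, ha, _, h⟩ := C.special_of_end he1 he2
  rcases gr_adj hex with h1 | h1 <;> rcases gr_adj hey with h2 | h2
  · rw [h1, h2]
  · exfalso
    rcases h with h | h
    · apply hy; rw [h2, h]; simpa using ha
    · apply hx; rw [h1, h]; simpa using ha
  · exfalso
    rcases h with h | h
    · apply hx; rw [h1, h]; simpa using ha
    · apply hy; rw [h2, h]; simpa using ha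
  · rw [h1, h2]

/-- h5: a vertex that is not special has at most one neighbour among the endpoints -/
theorem h5 {q x y : V} (hq : q ∉ C.Sp) (hqD : b q ∉ C.D) (hx1 : b x ∈ C.D) (hx2 : x ∉ C.Sp) (hy1 : b y ∈ C.D) (hy2 : y ∉ C.Sp)
    (hqx : (gr σ).Adj q x) (hqy : (gr σ).Adj q y) : x = y := by
  by_contra hxy
  obtain ⟨a, ha, hxa, h⟩ := C.special_of_end hx1 hx2
  obtain ⟨a', ha', hya, h'⟩ := C.special_of_end hy1 hy2
  have haa : a = a' := C.st.dist a ha a' ha' ((hxa.symm.trans (gr_sameCycle hqx).symm).trans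
    ((gr_sameCycle hqy).trans hya))
  subst haa
  -- x and y are the two neighbours of a
  have hab : (x = σ a ∧ y = σ⁻¹ a) ∨ (x = σ⁻¹ a ∧ y = σ a) := by
    rcases h with h | h <;> rcases h' with h' | h'
    · exact absurd (h.trans h'.symm) hxy
    · exact Or.inl ⟨h, h'⟩
    · exact Or.inr ⟨h, h'⟩
    · exact absurd (h.trans h'.symm) hxy
  have hD2 : b (σ a) ∈ C.D ∧ b (σ⁻¹ a) ∈ C.D := by
    rcases hab with ⟨rfl, rfl⟩ | ⟨rfl, rfl⟩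
    · exact ⟨hx1, hy1⟩
    · exact ⟨hy1, hx1⟩
  have h3 : σ (σ (σ a)) = a := by
    by_contra h3
    exact C.v2 a ha h3 hD2
  have h3' : σ (σ a) = σ⁻¹ a := by
    conv_rhs => rw [← h3]
    simp
  -- q is in the triangle
  have hq3 : q = a ∨ q = σ a ∨ q = σ⁻¹ a := by
    rcases gr_adj hqx.symm with hh | hh <;> rcases h with h | h
    · right; right; rw [hh, h, h3']
    · left; rw [hh, h]; simp
    · left; rw [hh, h]; simp
    · right; left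
      rw [hh, h]
      apply σ.injective
      apply σ.injective
      simp [h3]
  rcases hq3 with rfl | rfl | rfl
  · exact hq ha
  · exact hqD hD2.1
  · exact hqD hD2.2

end Cfg
end S4C
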