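import Mathlib
set_option autoImplicit false

/-! Strong 4-colouring of cycles plus K4's: definitions shared by all modules. -/
namespace S4C

variable {V : Type} [Fintype V] [DecidableEq V]

/-- the target: colouring with 4 colours, proper for the graph of the permutation `σ`
(`v ~ σ v` when `σ v ≠ v`) and injective on the blocks `b = const`. -/
def Col4 (σ : Equiv.Perm V) (b : V → ℕ) : Prop :=
  ∃ c : V → Fin 4, (∀ v, σ v ≠ v → c (σ v) ≠ c v) ∧ (∀ v w, v ≠ w → b v = b w → c v ≠ c w)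

/-- all blocks have exactly four elements -/
def Fib4 (b : V → ℕ) : Prop := ∀ v, (Finset.univ.filter (fun w => b w = b v)).card = 4

/-- no two vertices of a block at distance ≤ 2 -/
def RC (σ : Equiv.Perm V) (b : V → ℕ) : Prop :=
  ∀ v, (σ v ≠ v → b (σ v) ≠ b v) ∧ (σ (σ v) ≠ v → b (σ (σ v)) ≠ b v)

/-- `v` lies on a cycle of length at least 3 -/
def Cyc3 (σ : Equiv.Perm V) (v : V) : Prop := σ v ≠ v ∧ σ (σ v) ≠ v

/-- number of elements of `Sp` in the block `y` -/
def mult (b : V → ℕ) (Sp : Finset V) (y : ℕ) : ℕ := (Sp.filter (fun a => b a = y)).card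

/-- `Sp` is a valid choice of special vertices for the zone `R` -/
structure State (σ : Equiv.Perm V) (b : V → ℕ) (R : Finset ℕ) (Sp : Finset V) : Prop where
  dist : ∀ a ∈ Sp, ∀ a' ∈ Sp, σ.SameCycle a a' → a = a'
  cyc : ∀ a ∈ Sp, Cyc3 σ a
  inR : ∀ a ∈ Sp, ∀ w, σ.SameCycle a w → b w ∈ R
  one : ∀ y ∈ R, 1 ≤ mult b Sp y
  two : ∀ y ∈ R, mult b Sp y ≤ 2

/-- the blocks of `R` with two specials -/
def dbl (b : V → ℕ) (R : Finset ℕ) (Sp : Finset V) : Finset ℕ := R.filter (fun y => mult b Sp y = 2)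

end S4C
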