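import Mathlib
set_option autoImplicit false

/-! TASK DET: a circuit with an even number of sour vertices. -/
namespace S4C
open Finset Equiv

/-- a cycle along which the signs multiply to one carries a consistent sign function -/
theorem sign_along {Z : Type} [Fintype Z] [DecidableEq Z] (f : Perm Z) (hf : f.IsCycle) (d : Z → ℤˣ)
    (hd : ∏ z ∈ f.support, d z = 1) :
    ∃ s : Z → ℤˣ, ∀ z ∈ f.support, s (f z) = d (f z) * s z := by
  classical
  obtain ⟨z0, hz0, hz⟩ := hf
  have hf : f.IsCycle := ⟨z0, hz0, hz⟩
  set l := orderOf f with hl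
  have hlpos : 0 < l := orderOf_pos f
  have hcard : l = f.support.card := hf.orderOf
  let g : ℕ → ℤˣ := fun n => ∏ j ∈ range n, d ((f ^ (j + 1)) z0)
  have hz0s : z0 ∈ f.support := Perm.mem_support.2 hz0
  have hpows : ∀ n : ℕ, (f ^ n) z0 ∈ f.support := fun n => (Perm.pow_apply_mem_support).2 hz0s
  have hmod : ∀ n m : ℕ, (f ^ n) z0 = (f ^ m) z0 → n % l = m % l := by
    intro n m h
    have := (hf.pow_eq_pow_iff (a := n) (b := m)).2 ⟨z0, hz0, h⟩
    exact (pow_inj_mod).1 this
  have hgl : g l = 1 := by
    rw [← hd]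
    refine Finset.prod_nbij (fun j => (f ^ (j + 1)) z0) ?_ ?_ ?_ ?_
    · intro j _; exact hpows _
    · intro j hj j' hj' h
      have h1 := hmod _ _ h
      have hj := mem_range.1 (mem_coe.1 hj)
      have hj' := mem_range.1 (mem_coe.1 hj')
      have h2 : (j + 1) ≡ (j' + 1) [MOD l] := h1
      have h3 : j ≡ j' [MOD l] := Nat.ModEq.add_right_cancel' 1 h2
      exact Nat.ModEq.eq_of_lt_of_lt h3 hj hj'
    · intro z hzs
      obtain ⟨n, hn⟩ := hf.exists_pow_eq hz0 (Perm.mem_support.1 (mem_coe.1 hzs))
      refine ⟨(n + (l - 1)) % l, ?_, ?_⟩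
      · exact mem_coe.2 (mem_range.2 (Nat.mod_lt _ hlpos))
      · show (f ^ ((n + (l - 1)) % l + 1)) z0 = z
        rw [← hn]
        have : f ^ ((n + (l - 1)) % l + 1) = f ^ n := by
          rw [pow_succ, pow_mod_orderOf, ← pow_succ]
          rw [show n + (l - 1) + 1 = n + l by omega, pow_add, hl, pow_orderOf_eq_one, mul_one]
        rw [this]
    · intro j _; rfl
  have hgadd : ∀ n, g (n + l) = g n := by
    intro n
    have : g (n + l) = g l * ∏ j ∈ range n, d ((f ^ (l + j + 1)) z0) := by
      show ∏ j ∈ range (n + l), _ = _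
      rw [add_comm n l, Finset.prod_range_add]
    rw [this, hgl, one_mul]
    refine Finset.prod_congr rfl ?_
    intro j _
    congr 2
    rw [show l + j + 1 = l + (j + 1) by ring, pow_add, hl, pow_orderOf_eq_one, one_mul]
  have hgmul : ∀ k n, g (n + l * k) = g n := by
    intro k
    induction k with
    | zero => intro n; simp
    | succ k ih => intro n; rw [Nat.mul_succ, ← add_assoc, hgadd, ih]
  have hgmod : ∀ n, g n = g (n % l) := by
    intro n
    conv_lhs => rw [← Nat.mod_add_div n l]
    exact hgmul _ _
  have hex : ∀ z ∈ f.support, ∃ n : ℕ, (f ^ n) z0 = z := fun z hzs =>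
    hf.exists_pow_eq hz0 (Perm.mem_support.1 hzs)
  choose! e he using hex
  refine ⟨fun z => g (e z), ?_⟩
  intro z hzs
  have hfz : f z ∈ f.support := (Perm.apply_mem_support).2 hzs
  have h1 : (f ^ (e (f z))) z0 = (f ^ (e z + 1)) z0 := by
    rw [he _ hfz, pow_succ', Perm.mul_apply, he _ hzs]
  have h2 := hmod _ _ h1
  show g (e (f z)) = d (f z) * g (e z)
  rw [hgmod (e (f z)), h2, ← hgmod]
  show ∏ j ∈ range (e z + 1), _ = _
  rw [Finset.prod_range_succ, mul_comm]
  congr 2
  rw [pow_succ', Perm.mul_apply, he _ hzs]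

/-- TASK DET (section 6, A2b): a circuit with an even number of sour vertices.  `N y z` = there is an arc from `y` to `z`
(at most one arc).  `lam z` = label of the out-arcs of `z`.  Non-sour vertices have exactly one in-neighbour, with the same label;
sour vertices have exactly two in-neighbours and the three labels are different. -/
theorem evenCircuit {Z : Type} [Fintype Z] [DecidableEq Z] [Nonempty Z] (N : Z → Z → Prop) (hirr : ∀ z, ¬ N z z)
    (lam : Z → Fin 3) (sour : Z → Prop)
    (hns : ∀ z, ¬ sour z → ∃ y, lam y = lam z ∧ ∀ x, N x z ↔ x = y)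
    (hs : ∀ z, sour z → ∃ y y', lam y ≠ lam y' ∧ lam y ≠ lam z ∧ lam y' ≠ lam z ∧ ∀ x, N x z ↔ x = y ∨ x = y') :
    ∃ (W : Finset Z) (f : Z → Z) (s : Z → ℤˣ), W.Nonempty ∧ (∀ z ∈ W, f z ∈ W ∧ N z (f z)) ∧
      (∀ z ∈ W, (sour (f z) → s (f z) = - s z) ∧ (¬ sour (f z) → s (f z) = s z)) := by
  classical
  by_contra hcon
  let ε : Z → ℤˣ := fun z => if sour z then 1 else -1
  let δ : Z → ℤˣ := fun z => if sour z then -1 else 1
  have hεδ : ∀ z, ε z = (-1) * δ z := by
    intro z; simp only [ε, δ]; split_ifs <;> simp
  have hcyc : ∀ c : Perm Z, c.IsCycle → (∀ i, c i ≠ i → N (c i) i) →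
      Perm.sign c = ∏ i ∈ c.support, ε i := by
    intro c hc hN
    have hprod : ∏ i ∈ c.support, δ i = -1 := by
      rcases Int.units_eq_one_or (∏ i ∈ c.support, δ i) with h | h
      · exfalso
        apply hcon
        have hci : (c⁻¹).IsCycle := hc.inv
        obtain ⟨s, hs'⟩ := sign_along c⁻¹ hci δ (by rw [Perm.support_inv]; exact h)
        refine ⟨c.support, fun z => c⁻¹ z, s, ?_, ?_, ?_⟩
        · obtain ⟨x, hx, _⟩ := hc
          exact ⟨x, Perm.mem_support.2 hx⟩
        · intro z hz
          have h1 : c⁻¹ z ∈ c.support := by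
            rw [← Perm.support_inv] at hz ⊢
            exact (Perm.apply_mem_support).2 hz
          refine ⟨h1, ?_⟩
          have h3 := hN (c⁻¹ z) (Perm.mem_support.1 h1)
          have h4 : c (c⁻¹ z) = z := Equiv.apply_symm_apply c z
          rwa [h4] at h3
        · intro z hz
          have h2 := hs' z (by rw [Perm.support_inv]; exact hz)
          constructor
          · intro hso
            rw [h2]; simp only [δ]; rw [if_pos hso]; simp
          · intro hso
            rw [h2]; simp only [δ]; rw [if_neg hso]; simp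
      · exact h
    rw [hc.sign, Finset.prod_congr rfl (fun i _ => hεδ i), Finset.prod_mul_distrib, hprod,
      Finset.prod_const]
    simp
  have hall : ∀ π : Perm Z, (∀ i, π i ≠ i → N (π i) i) → Perm.sign π = ∏ i ∈ π.support, ε i := by
    intro π
    refine Perm.cycle_induction_on
      (P := fun π : Perm Z => (∀ i, π i ≠ i → N (π i) i) → Perm.sign π = ∏ i ∈ π.support, ε i)
      π ?_ ?_ ?_
    · intro _; simp
    · intro c hc; exact hcyc c hc
    · intro σ τ hd _ ihσ ihτ hN
      have hσ : ∀ i, σ i ≠ i → N (σ i) i := by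
        intro i hi
        have hτi : τ i = i := by
          rcases hd i with h | h
          · exact absurd h hi
          · exact h
        have := hN i (by rw [Perm.mul_apply, hτi]; exact hi)
        rwa [Perm.mul_apply, hτi] at this
      have hτ : ∀ i, τ i ≠ i → N (τ i) i := by
        intro i hi
        have hσi : σ (τ i) = τ i := by
          rcases hd (τ i) with h | h
          · exact h
          · exact absurd (τ.injective h) hi
        have := hN i (by rw [Perm.mul_apply, hσi]; exact hi)
        rwa [Perm.mul_apply, hσi] at this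
      rw [Perm.sign_mul, ihσ hσ, ihτ hτ, hd.support_mul, Finset.prod_union hd.disjoint_support]
  -- the matrix
  let K : Matrix Z Z ℤ := fun z w => (if N z w then 1 else 0) + (if z = w then ((ε z : ℤˣ) : ℤ) else 0)
  let u : Z → ℤ := fun z => if lam z = 0 then 2 else -1
  have hu0 : u ≠ 0 := by
    intro h
    obtain ⟨z⟩ := ‹Nonempty Z›
    have := congrFun h z
    simp only [u, Pi.zero_apply] at this
    split_ifs at this <;> omega
  have huK : Matrix.vecMul u K = 0 := by
    funext w
    simp only [Matrix.vecMul, dotProduct, Pi.zero_apply, K, mul_add, Finset.sum_add_distrib]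
    have h2 : ∑ x, u x * (if x = w then ((ε x : ℤˣ) : ℤ) else 0) = u w * ((ε w : ℤˣ) : ℤ) := by
      rw [Finset.sum_eq_single w]
      · simp
      · intro b _ hb; simp [hb]
      · intro h; exact absurd (Finset.mem_univ w) h
    rw [h2]
    by_cases hsw : sour w
    · obtain ⟨y, y', hyy, hyw, hyw', hN⟩ := hs w hsw
      have hne : y ≠ y' := by rintro rfl; exact hyy rfl
      have h1 : ∑ x, u x * (if N x w then (1:ℤ) else 0) = u y + u y' := by
        rw [← Finset.sum_pair (f := u) hne]
        rw [← Finset.sum_subset (Finset.subset_univ ({y, y'} : Finset Z))]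
        · refine Finset.sum_congr rfl ?_
          intro x hx
          have : N x w := (hN x).2 (by simpa using hx)
          simp [this]
        · intro x _ hx
          have : ¬ N x w := fun h => hx (by simpa using (hN x).1 h)
          simp [this]
      rw [h1]
      simp only [ε, if_pos hsw, u]
      generalize lam y = a at *
      generalize lam y' = a' at *
      generalize lam w = a'' at *
      fin_cases a <;> fin_cases a' <;> fin_cases a'' <;> simp_all
    · obtain ⟨y, hy, hN⟩ := hns w hsw
      have h1 : ∑ x, u x * (if N x w then (1:ℤ) else 0) = u y := by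
        rw [Finset.sum_eq_single y]
        · simp [(hN y).2 rfl]
        · intro b _ hb
          have : ¬ N b w := fun h => hb ((hN b).1 h)
          simp [this]
        · intro h; exact absurd (Finset.mem_univ y) h
      rw [h1]
      simp only [ε, if_neg hsw, u, hy]
      simp
  have hdet0 : K.det = 0 := (Matrix.exists_vecMul_eq_zero_iff).1 ⟨u, hu0, huK⟩
  have hdet : ∑ π : Perm Z, ((Perm.sign π : ℤˣ) : ℤ) * ∏ i, K (π i) i = 0 := by
    have h := Matrix.det_apply' K
    rw [hdet0] at h
    simp only [Int.cast_id] at h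
    exact h.symm
  let E : ℤ := ∏ i, ((ε i : ℤˣ) : ℤ)
  have hterm : ∀ π : Perm Z, ((Perm.sign π : ℤˣ) : ℤ) * ∏ i, K (π i) i =
      if (∀ i, π i ≠ i → N (π i) i) then E else 0 := by
    intro π
    split_ifs with hg
    · have h1 : ∏ i, K (π i) i = ∏ i ∈ univ \ π.support, ((ε i : ℤˣ) : ℤ) := by
        rw [← Finset.prod_sdiff (Finset.subset_univ π.support)]
        have h2 : ∏ i ∈ π.support, K (π i) i = 1 := by
          refine Finset.prod_eq_one ?_
          intro i hi
          have hi' := Perm.mem_support.1 hi
          simp [K, hg i hi', hi']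
        rw [h2, mul_one]
        refine Finset.prod_congr rfl ?_
        intro i hi
        have hi' : π i = i := by
          by_contra hc
          exact (Finset.mem_sdiff.1 hi).2 (Perm.mem_support.2 hc)
        simp [K, hi', hirr i]
      rw [h1, hall π hg]
      show _ = ∏ i, ((ε i : ℤˣ) : ℤ)
      rw [← Finset.prod_sdiff (Finset.subset_univ π.support)]
      rw [mul_comm]
      congr 1
      push_cast
      rfl
    · push Not at hg
      obtain ⟨i, hi, hN⟩ := hg
      have : ∏ i, K (π i) i = 0 := Finset.prod_eq_zero (Finset.mem_univ i) (by simp [K, hN, hi])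
      rw [this, mul_zero]
  rw [Finset.sum_congr rfl (fun π _ => hterm π)] at hdet
  rw [← Finset.sum_filter, Finset.sum_const] at hdet
  have hE : E ≠ 0 := by
    show ∏ i, ((ε i : ℤˣ) : ℤ) ≠ 0
    exact Finset.prod_ne_zero_iff.2 (fun i _ => (ε i).ne_zero)
  rw [smul_eq_zero] at hdet
  rcases hdet with h | h
  · rw [Finset.card_eq_zero] at h
    have : (1 : Perm Z) ∈ (univ.filter (fun π : Perm Z => ∀ i, π i ≠ i → N (π i) i)) := by
      simp
    rw [h] at this
    simp at this
  · exact hE h

end S4C
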