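import Pool.Agent.LibS4C.Defs
set_option autoImplicit false

/-! Module EXT: the peeling lemma. -/
namespace S4C
open Finset

/-- endpoints of the blocks of `D` -/
def EndS {V : Type} [DecidableEq V] (e1 e2 : ℕ → V) (D : Finset ℕ) : Finset V :=
  D.image e1 ∪ D.image e2

theorem mem_EndS {V : Type} [DecidableEq V] {e1 e2 : ℕ → V} {D : Finset ℕ} {x : V} :
    x ∈ EndS e1 e2 D ↔ ∃ z ∈ D, x = e1 z ∨ x = e2 z := by
  unfold EndS
  simp only [mem_union, mem_image]
  constructor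
  · rintro (⟨z, hz, rfl⟩ | ⟨z, hz, rfl⟩)
    · exact ⟨z, hz, Or.inl rfl⟩
    · exact ⟨z, hz, Or.inr rfl⟩
  · rintro ⟨z, hz, rfl | rfl⟩
    · exact Or.inl ⟨z, hz, rfl⟩
    · exact Or.inr ⟨z, hz, rfl⟩

/-- adding the link between the neighbours (in `W`) of `a` and `a'` -/
def linkG {V : Type} (G : SimpleGraph V) (W : V → Prop) (a a' : V) : SimpleGraph V where
  Adj x y := G.Adj x y ∨ (x ≠ y ∧ W x ∧ W y ∧ ((G.Adj a x ∧ G.Adj a' y) ∨ (G.Adj a' x ∧ G.Adj a y)))
  symm := ⟨by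
    rintro x y (h | ⟨hn, hx, hy, h⟩)
    · exact Or.inl h.symm
    · exact Or.inr ⟨hn.symm, hy, hx, h.symm.imp And.symm And.symm⟩⟩
  loopless := ⟨by
    rintro x (h | ⟨hn, _⟩)
    · exact G.loopless.irrefl x h
    · exact hn rfl⟩

/-- only the links -/
def linkO {V : Type} (G : SimpleGraph V) (W : V → Prop) (a a' : V) : SimpleGraph V where
  Adj x y := x ≠ y ∧ W x ∧ W y ∧ ((G.Adj a x ∧ G.Adj a' y) ∨ (G.Adj a' x ∧ G.Adj a y))
  symm := ⟨by
    rintro x y ⟨hn, hx, hy, h⟩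
    exact ⟨hn.symm, hy, hx, h.symm.imp And.symm And.symm⟩⟩
  loopless := ⟨by
    rintro x ⟨hn, _⟩
    exact hn rfl⟩

/-- the hypotheses of the peeling lemma -/
structure Peel {V : Type} [DecidableEq V] (b : V → ℕ) (U : Finset V) (D S : Finset ℕ)
    (t e1 e2 : ℕ → V) (r : ℕ → ℕ) (G : SimpleGraph V) : Prop where
  hDS : Disjoint D S
  he1 : ∀ z ∈ D ∪ S, b (e1 z) = z
  he2 : ∀ z ∈ D ∪ S, b (e2 z) = z
  he : ∀ z ∈ D ∪ S, e1 z ≠ e2 z
  ht : ∀ z ∈ D, b (t z) = z
  ht1 : ∀ z ∈ D, t z ≠ e1 z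
  ht2 : ∀ z ∈ D, t z ≠ e2 z
  hU : ∀ v ∈ U, b v ∉ D ∪ S
  h4 : ∀ e ∈ EndS e1 e2 (D ∪ S),
      ∀ x ∈ U ∪ EndS e1 e2 (D ∪ S), ∀ y ∈ U ∪ EndS e1 e2 (D ∪ S), G.Adj e x → G.Adj e y → x = y
  h5 : ∀ q ∈ U, ∀ x ∈ EndS e1 e2 (D ∪ S), ∀ y ∈ EndS e1 e2 (D ∪ S),
      G.Adj q x → G.Adj q y → x = y
  h6 : ∀ z ∈ D, ∀ x ∈ U ∪ EndS e1 e2 (D ∪ S), ∀ y ∈ U ∪ EndS e1 e2 (D ∪ S),
      ∀ w ∈ U ∪ EndS e1 e2 (D ∪ S), G.Adj (t z) x → G.Adj (t z) y → G.Adj (t z) w →
      x = y ∨ y = w ∨ x = w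
  h6' : ∀ z ∈ D, ∀ x ∈ EndS e1 e2 (D ∪ S), G.Adj (t z) x → b x ∈ D ∧ r (b x) < r z
  h6'' : ∀ z ∈ D, ∀ z' ∈ D, ¬ G.Adj (t z) (t z')
  h7 : ∀ N : SimpleGraph V, (∀ v x y, N.Adj v x → N.Adj v y → x = y) →
      (∀ v x, N.Adj v x → v ∈ U ∧ ∃ e ∈ EndS e1 e2 (D ∪ S), G.Adj v e) →
      ∃ c : V → Fin 3, (∀ v ∈ U, ∀ w ∈ U, (G.Adj v w ∨ N.Adj v w) → c v ≠ c w) ∧
        (∀ v ∈ U, ∀ w ∈ U, v ≠ w → b v = b w → c v ≠ c w)

theorem Peel.step {V : Type} [DecidableEq V] {b : V → ℕ} {U : Finset V} {D S : Finset ℕ}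
    {t e1 e2 : ℕ → V} {r : ℕ → ℕ} {G : SimpleGraph V} (P : Peel b U D S t e1 e2 r G)
    (z : ℕ) (hz : z ∈ D ∪ S) :
    Peel b U (D.erase z) (S.erase z) t e1 e2 r
      (linkG G (fun x => x ∈ U ∪ EndS e1 e2 ((D ∪ S).erase z)) (e1 z) (e2 z)) := by
  have hDSe : D.erase z ∪ S.erase z = (D ∪ S).erase z := by
    ext x; simp only [mem_union, mem_erase]; tauto
  have hEsub : ∀ x, x ∈ EndS e1 e2 ((D ∪ S).erase z) → x ∈ EndS e1 e2 (D ∪ S) := by
    intro x hx
    obtain ⟨y, hy, h⟩ := mem_EndS.1 hx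
    exact mem_EndS.2 ⟨y, (mem_erase.1 hy).2, h⟩
  have hWsub : ∀ x, x ∈ U ∪ EndS e1 e2 ((D ∪ S).erase z) → x ∈ U ∪ EndS e1 e2 (D ∪ S) := by
    intro x hx
    rcases mem_union.1 hx with h | h
    · exact mem_union_left _ h
    · exact mem_union_right _ (hEsub x h)
  have hbE : ∀ x, x ∈ EndS e1 e2 (D ∪ S) → b x ∈ D ∪ S := by
    intro x hx
    obtain ⟨y, hy, h | h⟩ := mem_EndS.1 hx
    · rw [h, P.he1 y hy]; exact hy
    · rw [h, P.he2 y hy]; exact hy
  have hbE' : ∀ x, x ∈ EndS e1 e2 ((D ∪ S).erase z) → b x ≠ z ∧ b x ∈ D ∪ S := by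
    intro x hx
    obtain ⟨y, hy, h | h⟩ := mem_EndS.1 hx
    · rw [h, P.he1 y (mem_erase.1 hy).2]; exact mem_erase.1 hy
    · rw [h, P.he2 y (mem_erase.1 hy).2]; exact mem_erase.1 hy
  have hbW : ∀ x, x ∈ U ∪ EndS e1 e2 ((D ∪ S).erase z) → b x ≠ z := by
    intro x hx
    rcases mem_union.1 hx with h | h
    · intro hb; exact P.hU x h (hb ▸ hz)
    · exact (hbE' x h).1
  have ha : e1 z ∈ EndS e1 e2 (D ∪ S) := mem_EndS.2 ⟨z, hz, Or.inl rfl⟩
  have ha' : e2 z ∈ EndS e1 e2 (D ∪ S) := mem_EndS.2 ⟨z, hz, Or.inr rfl⟩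
  have haW : e1 z ∈ U ∪ EndS e1 e2 (D ∪ S) := mem_union_right _ ha
  have haW' : e2 z ∈ U ∪ EndS e1 e2 (D ∪ S) := mem_union_right _ ha'
  have hne := P.he z hz
  -- a vertex of W is not e1 z, e2 z
  have hW1 : ∀ x, x ∈ U ∪ EndS e1 e2 ((D ∪ S).erase z) → x ≠ e1 z := by
    rintro x hx rfl; exact hbW _ hx (P.he1 z hz)
  have hW2 : ∀ x, x ∈ U ∪ EndS e1 e2 ((D ∪ S).erase z) → x ≠ e2 z := by
    rintro x hx rfl; exact hbW _ hx (P.he2 z hz)
  -- t z' is not in W
  have htW : ∀ z' ∈ D, t z' ∉ U ∪ EndS e1 e2 ((D ∪ S).erase z) := by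
    intro z' hz' hmem
    rcases mem_union.1 hmem with h | h
    · exact P.hU _ h (by rw [P.ht z' hz']; exact mem_union_left _ hz')
    · obtain ⟨y, hy, h1 | h1⟩ := mem_EndS.1 h
      · have := P.he1 y (mem_erase.1 hy).2
        rw [← h1, P.ht z' hz'] at this
        subst this; exact P.ht1 _ hz' h1
      · have := P.he2 y (mem_erase.1 hy).2
        rw [← h1, P.ht z' hz'] at this
        subst this; exact P.ht2 _ hz' h1
  refine ⟨?_, ?_, ?_, ?_, ?_, ?_, ?_, ?_, ?_, ?_, ?_, ?_, ?_, ?_⟩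
  · exact (P.hDS.mono (erase_subset _ _) (erase_subset _ _))
  · rw [hDSe]; intro y hy; exact P.he1 y (mem_erase.1 hy).2
  · rw [hDSe]; intro y hy; exact P.he2 y (mem_erase.1 hy).2
  · rw [hDSe]; intro y hy; exact P.he y (mem_erase.1 hy).2
  · intro y hy; exact P.ht y (mem_erase.1 hy).2
  · intro y hy; exact P.ht1 y (mem_erase.1 hy).2
  · intro y hy; exact P.ht2 y (mem_erase.1 hy).2
  · rw [hDSe]; intro v hv h; exact P.hU v hv (mem_erase.1 h).2
  · -- h4
    rw [hDSe]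
    intro e hE x hx y hy h1 h2
    have hEW : e ∈ EndS e1 e2 (D ∪ S) := hEsub e hE
    have heW : e ∈ U ∪ EndS e1 e2 (D ∪ S) := mem_union_right _ hEW
    have hxW := hWsub x hx
    have hyW := hWsub y hy
    rcases h1 with h1 | ⟨_, _, _, h1⟩ <;> rcases h2 with h2 | ⟨_, _, _, h2⟩
    · exact P.h4 e hEW x hxW y hyW h1 h2
    · exfalso
      rcases h2 with ⟨h2, _⟩ | ⟨h2, _⟩
      · exact hW1 x hx (P.h4 e hEW x hxW _ haW h1 h2.symm)
      · exact hW2 x hx (P.h4 e hEW x hxW _ haW' h1 h2.symm)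
    · exfalso
      rcases h1 with ⟨h1, _⟩ | ⟨h1, _⟩
      · exact hW1 y hy (P.h4 e hEW y hyW _ haW h2 h1.symm)
      · exact hW2 y hy (P.h4 e hEW y hyW _ haW' h2 h1.symm)
    · rcases h1 with ⟨h1, h1'⟩ | ⟨h1, h1'⟩ <;> rcases h2 with ⟨h2, h2'⟩ | ⟨h2, h2'⟩
      · exact P.h4 _ ha' x hxW y hyW h1' h2'
      · exact absurd (P.h4 e hEW _ haW _ haW' h1.symm h2.symm) hne
      · exact absurd (P.h4 e hEW _ haW _ haW' h2.symm h1.symm) hne
      · exact P.h4 _ ha x hxW y hyW h1' h2'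
  · -- h5
    rw [hDSe]
    intro q hq x hx y hy h1 h2
    have hxE := hEsub x hx
    have hyE := hEsub y hy
    have hxW' : x ∈ U ∪ EndS e1 e2 ((D ∪ S).erase z) := mem_union_right _ hx
    have hyW' : y ∈ U ∪ EndS e1 e2 ((D ∪ S).erase z) := mem_union_right _ hy
    rcases h1 with h1 | ⟨_, _, _, h1⟩ <;> rcases h2 with h2 | ⟨_, _, _, h2⟩
    · exact P.h5 q hq x hxE y hyE h1 h2
    · exfalso
      rcases h2 with ⟨h2, _⟩ | ⟨h2, _⟩
      · exact hW1 x hxW' (P.h5 q hq x hxE _ ha h1 h2.symm)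
      · exact hW2 x hxW' (P.h5 q hq x hxE _ ha' h1 h2.symm)
    · exfalso
      rcases h1 with ⟨h1, _⟩ | ⟨h1, _⟩
      · exact hW1 y hyW' (P.h5 q hq y hyE _ ha h2 h1.symm)
      · exact hW2 y hyW' (P.h5 q hq y hyE _ ha' h2 h1.symm)
    · rcases h1 with ⟨h1, h1'⟩ | ⟨h1, h1'⟩ <;> rcases h2 with ⟨h2, h2'⟩ | ⟨h2, h2'⟩
      · exact P.h4 _ ha' x (hWsub x hxW') y (hWsub y hyW') h1' h2'
      · exact absurd (P.h5 q hq _ ha _ ha' h1.symm h2.symm) hne
      · exact absurd (P.h5 q hq _ ha _ ha' h2.symm h1.symm) hne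
      · exact P.h4 _ ha x (hWsub x hxW') y (hWsub y hyW') h1' h2'
  · -- h6
    rw [hDSe]
    intro z' hz' x hx y hy w hw h1 h2 h3
    have hz'D := (mem_erase.1 hz').2
    have key : ∀ x, (linkG G (fun x => x ∈ U ∪ EndS e1 e2 ((D ∪ S).erase z)) (e1 z) (e2 z)).Adj (t z') x →
        G.Adj (t z') x := by
      intro x h
      rcases h with h | ⟨_, h, _⟩
      · exact h
      · exact absurd h (htW z' hz'D)
    exact P.h6 z' hz'D x (hWsub x hx) y (hWsub y hy) w (hWsub w hw) (key x h1) (key y h2) (key w h3)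
  · -- h6'
    rw [hDSe]
    intro z' hz' x hx h1
    have hz'D := (mem_erase.1 hz').2
    have key : G.Adj (t z') x := by
      rcases h1 with h | ⟨_, h, _⟩
      · exact h
      · exact absurd h (htW z' hz'D)
    obtain ⟨h2, h3⟩ := P.h6' z' hz'D x (hEsub x hx) key
    exact ⟨mem_erase.2 ⟨(hbE' x hx).1, h2⟩, h3⟩
  · -- h6''
    intro z1 hz1 z2 hz2 h
    rcases h with h | ⟨_, h, _⟩
    · exact P.h6'' z1 (mem_erase.1 hz1).2 z2 (mem_erase.1 hz2).2 h
    · exact absurd h (htW z1 (mem_erase.1 hz1).2)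
  · -- h7
    rw [hDSe]
    intro N hN hNQ
    -- the links inside U
    set M := linkO G (fun x => x ∈ U) (e1 z) (e2 z) with hM
    have hMadj : ∀ x y, M.Adj x y ↔ (x ≠ y ∧ x ∈ U ∧ y ∈ U ∧
        ((G.Adj (e1 z) x ∧ G.Adj (e2 z) y) ∨ (G.Adj (e2 z) x ∧ G.Adj (e1 z) y))) := by
      intro x y; rfl
    have hUW : ∀ x, x ∈ U → x ∈ U ∪ EndS e1 e2 (D ∪ S) := fun x hx => mem_union_left _ hx
    -- N and M do not meet
    have hNM : ∀ v x y, N.Adj v x → M.Adj v y → False := by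
      intro v x y h1 h2
      obtain ⟨hv, e, heE, h3⟩ := hNQ v x h1
      have heW' : e ∈ U ∪ EndS e1 e2 ((D ∪ S).erase z) := mem_union_right _ heE
      obtain ⟨_, _, hy, h2⟩ := (hMadj v y).1 h2
      have heU : e ∉ U := fun h => P.hU e h (hbE' e heE).2
      rcases h3 with h3 | ⟨_, _, _, h3⟩
      · rcases h2 with ⟨h2, _⟩ | ⟨h2, _⟩
        · exact hW1 e heW' (P.h5 v hv e (hEsub e heE) _ ha h3 h2.symm)
        · exact hW2 e heW' (P.h5 v hv e (hEsub e heE) _ ha' h3 h2.symm)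
      · rcases h2 with ⟨h2, h2'⟩ | ⟨h2, h2'⟩ <;> rcases h3 with ⟨h3, h3'⟩ | ⟨h3, h3'⟩
        · have := P.h4 _ ha' y (hUW y hy) e (hWsub e heW') h2' h3'
          exact heU (this ▸ hy)
        · exact hne (P.h5 v hv _ ha _ ha' h2.symm h3.symm)
        · exact hne (P.h5 v hv _ ha _ ha' h3.symm h2.symm)
        · have := P.h4 _ ha y (hUW y hy) e (hWsub e heW') h2' h3'
          exact heU (this ▸ hy)
    have hMM : ∀ v x y, M.Adj v x → M.Adj v y → x = y := by
      intro v x y h1 h2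
      obtain ⟨_, hv, hx, h1⟩ := (hMadj v x).1 h1
      obtain ⟨_, _, hy, h2⟩ := (hMadj v y).1 h2
      rcases h1 with ⟨h1, h1'⟩ | ⟨h1, h1'⟩ <;> rcases h2 with ⟨h2, h2'⟩ | ⟨h2, h2'⟩
      · exact P.h4 _ ha' x (hUW x hx) y (hUW y hy) h1' h2'
      · exact absurd (P.h5 v hv _ ha _ ha' h1.symm h2.symm) hne
      · exact absurd (P.h5 v hv _ ha _ ha' h2.symm h1.symm) hne
      · exact P.h4 _ ha x (hUW x hx) y (hUW y hy) h1' h2'
    obtain ⟨c, hc1, hc2⟩ := P.h7 (N ⊔ M)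
      (by
        intro v x y h1 h2
        rcases h1 with h1 | h1 <;> rcases h2 with h2 | h2
        · exact hN v x y h1 h2
        · exact (hNM v x y h1 h2).elim
        · exact (hNM v y x h2 h1).elim
        · exact hMM v x y h1 h2)
      (by
        intro v x h
        rcases h with h | h
        · obtain ⟨hv, e, heE, h3⟩ := hNQ v x h
          refine ⟨hv, ?_⟩
          rcases h3 with h3 | ⟨_, _, _, h3⟩
          · exact ⟨e, hEsub e heE, h3⟩
          · rcases h3 with ⟨h3, _⟩ | ⟨h3, _⟩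
            · exact ⟨e1 z, ha, h3.symm⟩
            · exact ⟨e2 z, ha', h3.symm⟩
        · obtain ⟨_, hv, _, h⟩ := (hMadj v x).1 h
          refine ⟨hv, ?_⟩
          rcases h with ⟨h, _⟩ | ⟨h, _⟩
          · exact ⟨e1 z, ha, h.symm⟩
          · exact ⟨e2 z, ha', h.symm⟩)
    refine ⟨c, ?_, hc2⟩
    intro v hv w hw h
    apply hc1 v hv w hw
    rcases h with (h | ⟨hn, _, _, h⟩) | h
    · exact Or.inl h
    · exact Or.inr (Or.inr ⟨hn, hv, hw, h⟩)
    · exact Or.inr (Or.inl h)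

theorem fin3_choice : ∀ (P1 P2 : Fin 3 → Bool),
    (∀ x y, P1 x = true → P1 y = true → x = y) → (∀ x y, P2 x = true → P2 y = true → x = y) →
    (∀ x, P1 x = true → P2 x = true → False) → ∀ ct : Fin 3, ∃ a a' : Fin 3, a ≠ ct ∧ a' ≠ ct ∧ a ≠ a' ∧
      P1 a = false ∧ P2 a' = false := by
  decide

/-- the case without links -/
theorem Peel.colorD {V : Type} [DecidableEq V] {b : V → ℕ} {U : Finset V}
    {t e1 e2 : ℕ → V} {r : ℕ → ℕ} :
    ∀ (n : ℕ) (D : Finset ℕ) (G : SimpleGraph V), D.card = n → Peel b U D ∅ t e1 e2 r G →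
    ∃ c : V → Fin 3,
      (∀ v ∈ U ∪ (D.image t ∪ EndS e1 e2 D), ∀ w ∈ U ∪ (D.image t ∪ EndS e1 e2 D),
        G.Adj v w → c v ≠ c w) ∧
      (∀ v ∈ U ∪ (D.image t ∪ EndS e1 e2 D), ∀ w ∈ U ∪ (D.image t ∪ EndS e1 e2 D),
        v ≠ w → b v = b w → c v ≠ c w) := by
  classical
  intro n
  induction n with
  | zero =>
    intro D G hD P
    have hD0 : D = ∅ := card_eq_zero.1 hD
    subst hD0
    obtain ⟨c, hc1, hc2⟩ := P.h7 ⊥ (by intro v x y h; exact absurd h (by simp))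
      (by intro v x h; exact absurd h (by simp))
    refine ⟨c, ?_, ?_⟩
    · intro v hv w hw h
      have hv' : v ∈ U := by simpa [EndS] using hv
      have hw' : w ∈ U := by simpa [EndS] using hw
      exact hc1 v hv' w hw' (Or.inl h)
    · intro v hv w hw h
      have hv' : v ∈ U := by simpa [EndS] using hv
      have hw' : w ∈ U := by simpa [EndS] using hw
      exact hc2 v hv' w hw' h
  | succ n ih =>
    intro D G hD P
    have hDne : D.Nonempty := card_pos.1 (by omega)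
    obtain ⟨z, hzD, hmax⟩ := exists_max_image D r hDne
    have hDe : D ∪ ∅ = D := union_empty D
    have hz : z ∈ D ∪ (∅ : Finset ℕ) := by rw [hDe]; exact hzD
    have P' := P.step z hz
    rw [hDe] at P'
    have hE0 : (∅ : Finset ℕ).erase z = ∅ := by simp
    rw [hE0] at P'
    obtain ⟨c, hc1, hc2⟩ := ih (D.erase z) _ (by rw [card_erase_of_mem hzD]; omega) P'
    set E' := EndS e1 e2 (D.erase z) with hE'
    set G' := linkG G (fun x => x ∈ U ∪ E') (e1 z) (e2 z) with hG'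
    -- basic facts
    have pU : ∀ v ∈ U, b v ∉ D := by intro v hv; have := P.hU v hv; rwa [hDe] at this
    have pe1 : ∀ y ∈ D, b (e1 y) = y := by intro y hy; exact P.he1 y (by rw [hDe]; exact hy)
    have pe2 : ∀ y ∈ D, b (e2 y) = y := by intro y hy; exact P.he2 y (by rw [hDe]; exact hy)
    have pe : ∀ y ∈ D, e1 y ≠ e2 y := by intro y hy; exact P.he y (by rw [hDe]; exact hy)
    have ph4 := P.h4
    have ph6 := P.h6
    have ph6' := P.h6'
    rw [hDe] at ph4 ph6 ph6'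
    have hEsub : ∀ x, x ∈ E' → x ∈ EndS e1 e2 D := by
      intro x hx
      obtain ⟨y, hy, h⟩ := mem_EndS.1 hx
      exact mem_EndS.2 ⟨y, (mem_erase.1 hy).2, h⟩
    have hWsub : ∀ x, x ∈ U ∪ E' → x ∈ U ∪ EndS e1 e2 D := by
      intro x hx
      rcases mem_union.1 hx with h | h
      · exact mem_union_left _ h
      · exact mem_union_right _ (hEsub x h)
    -- X' := the old set
    have hXb : ∀ v ∈ U ∪ ((D.erase z).image t ∪ E'), b v ≠ z := by
      intro v hv hb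
      rcases mem_union.1 hv with h | h
      · exact pU v h (hb ▸ hzD)
      · rcases mem_union.1 h with h | h
        · obtain ⟨y, hy, rfl⟩ := mem_image.1 h
          rw [P.ht y (mem_erase.1 hy).2] at hb
          exact (mem_erase.1 hy).1 hb
        · obtain ⟨y, hy, h1 | h1⟩ := mem_EndS.1 h
          · rw [h1, pe1 y (mem_erase.1 hy).2] at hb; exact (mem_erase.1 hy).1 hb
          · rw [h1, pe2 y (mem_erase.1 hy).2] at hb; exact (mem_erase.1 hy).1 hb
    have hXsplit : ∀ v ∈ U ∪ (D.image t ∪ EndS e1 e2 D),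
        v ∈ U ∪ ((D.erase z).image t ∪ E') ∨ v = t z ∨ v = e1 z ∨ v = e2 z := by
      intro v hv
      rcases mem_union.1 hv with h | h
      · exact Or.inl (mem_union_left _ h)
      · rcases mem_union.1 h with h | h
        · obtain ⟨y, hy, rfl⟩ := mem_image.1 h
          by_cases hyz : y = z
          · subst hyz; exact Or.inr (Or.inl rfl)
          · exact Or.inl (mem_union_right _ (mem_union_left _
              (mem_image_of_mem _ (mem_erase.2 ⟨hyz, hy⟩))))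
        · obtain ⟨y, hy, h1⟩ := mem_EndS.1 h
          by_cases hyz : y = z
          · subst hyz; exact Or.inr (Or.inr h1)
          · exact Or.inl (mem_union_right _ (mem_union_right _
              (mem_EndS.2 ⟨y, mem_erase.2 ⟨hyz, hy⟩, h1⟩)))
    have htz := P.ht z hzD
    have he1z := pe1 z hzD
    have he2z := pe2 z hzD
    have h1e : e1 z ∈ EndS e1 e2 D := mem_EndS.2 ⟨z, hzD, Or.inl rfl⟩
    have h2e : e2 z ∈ EndS e1 e2 D := mem_EndS.2 ⟨z, hzD, Or.inr rfl⟩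
    -- a colour for t z
    have hct : ∃ ct : Fin 3, ∀ x ∈ U ∪ E', G.Adj (t z) x → c x ≠ ct := by
      by_contra hcon
      push Not at hcon
      choose g hg1 hg2 hg3 using hcon
      have h01 : g 0 ≠ g 1 := by intro h; have := hg3 0; rw [h, hg3 1] at this; exact absurd this (by decide)
      have h12 : g 1 ≠ g 2 := by intro h; have := hg3 1; rw [h, hg3 2] at this; exact absurd this (by decide)
      have h02 : g 0 ≠ g 2 := by intro h; have := hg3 0; rw [h, hg3 2] at this; exact absurd this (by decide)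
      rcases ph6 z hzD (g 0) (hWsub _ (hg1 0)) (g 1) (hWsub _ (hg1 1)) (g 2) (hWsub _ (hg1 2))
        (hg2 0) (hg2 1) (hg2 2) with h | h | h
      · exact h01 h
      · exact h12 h
      · exact h02 h
    obtain ⟨ct, hct⟩ := hct
    -- colours for e1 z, e2 z
    obtain ⟨ca, ca', hca, hca', hcaa, hP1, hP2⟩ := fin3_choice
      (fun x => decide (∃ p ∈ U ∪ E', G.Adj (e1 z) p ∧ c p = x))
      (fun x => decide (∃ p ∈ U ∪ E', G.Adj (e2 z) p ∧ c p = x))
      (by
        intro x y hx hy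
        simp only [decide_eq_true_eq] at hx hy
        obtain ⟨p, hp, hp1, rfl⟩ := hx
        obtain ⟨q, hq, hq1, rfl⟩ := hy
        rw [ph4 _ h1e p (hWsub p hp) q (hWsub q hq) hp1 hq1])
      (by
        intro x y hx hy
        simp only [decide_eq_true_eq] at hx hy
        obtain ⟨p, hp, hp1, rfl⟩ := hx
        obtain ⟨q, hq, hq1, rfl⟩ := hy
        rw [ph4 _ h2e p (hWsub p hp) q (hWsub q hq) hp1 hq1])
      (by
        intro x hx hy
        simp only [decide_eq_true_eq] at hx hy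
        obtain ⟨p, hp, hp1, rfl⟩ := hx
        obtain ⟨q, hq, hq1, hq2⟩ := hy
        have hpq : p ≠ q := by
          rintro rfl
          rcases mem_union.1 hp with h | h
          · have ph5 := P.h5
            rw [hDe] at ph5
            exact pe z hzD (ph5 p h _ h1e _ h2e hp1.symm hq1.symm)
          · exact pe z hzD (ph4 p (hEsub p h) _ (mem_union_right _ h1e) _ (mem_union_right _ h2e)
              hp1.symm hq1.symm)
        have hpX : p ∈ U ∪ ((D.erase z).image t ∪ E') := by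
          rcases mem_union.1 hp with h | h
          · exact mem_union_left _ h
          · exact mem_union_right _ (mem_union_right _ h)
        have hqX : q ∈ U ∪ ((D.erase z).image t ∪ E') := by
          rcases mem_union.1 hq with h | h
          · exact mem_union_left _ h
          · exact mem_union_right _ (mem_union_right _ h)
        exact hc1 p hpX q hqX (Or.inr ⟨hpq, hp, hq, Or.inl ⟨hp1, hq1⟩⟩) hq2.symm)
      ct
    simp only [decide_eq_false_iff_not, not_exists, not_and] at hP1 hP2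
    -- the new colouring
    let c' : V → Fin 3 := fun v => if v = t z then ct else if v = e1 z then ca else
      if v = e2 z then ca' else c v
    have hc't : c' (t z) = ct := by simp [c']
    have hc'1 : c' (e1 z) = ca := by
      have := (P.ht1 z hzD).symm
      simp [c', this]
    have hc'2 : c' (e2 z) = ca' := by
      have h1 := (P.ht2 z hzD).symm
      have h2 := (pe z hzD).symm
      simp [c', h1, h2]
    have hc'X : ∀ v ∈ U ∪ ((D.erase z).image t ∪ E'), c' v = c v := by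
      intro v hv
      have hb := hXb v hv
      have h1 : v ≠ t z := by rintro rfl; exact hb htz
      have h2 : v ≠ e1 z := by rintro rfl; exact hb he1z
      have h3 : v ≠ e2 z := by rintro rfl; exact hb he2z
      simp [c', h1, h2, h3]
    -- neighbours of the new vertices
    have nt : ∀ w ∈ U ∪ ((D.erase z).image t ∪ E'), G.Adj (t z) w → c w ≠ ct := by
      intro w hw h
      rcases mem_union.1 hw with h1 | h1
      · exact hct w (mem_union_left _ h1) h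
      · rcases mem_union.1 h1 with h1 | h1
        · obtain ⟨y, hy, rfl⟩ := mem_image.1 h1
          exact absurd h (P.h6'' z hzD y (mem_erase.1 hy).2)
        · exact hct w (mem_union_right _ h1) h
    have n1 : ∀ w ∈ U ∪ ((D.erase z).image t ∪ E'), G.Adj (e1 z) w → c w ≠ ca := by
      intro w hw h
      rcases mem_union.1 hw with h1 | h1
      · exact hP1 w (mem_union_left _ h1) h
      · rcases mem_union.1 h1 with h1 | h1
        · obtain ⟨y, hy, rfl⟩ := mem_image.1 h1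
          obtain ⟨_, h3⟩ := ph6' y (mem_erase.1 hy).2 (e1 z) h1e h.symm
          rw [he1z] at h3
          exact absurd (hmax y (mem_erase.1 hy).2) (by omega)
        · exact hP1 w (mem_union_right _ h1) h
    have n2 : ∀ w ∈ U ∪ ((D.erase z).image t ∪ E'), G.Adj (e2 z) w → c w ≠ ca' := by
      intro w hw h
      rcases mem_union.1 hw with h1 | h1
      · exact hP2 w (mem_union_left _ h1) h
      · rcases mem_union.1 h1 with h1 | h1
        · obtain ⟨y, hy, rfl⟩ := mem_image.1 h1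
          obtain ⟨_, h3⟩ := ph6' y (mem_erase.1 hy).2 (e2 z) h2e h.symm
          rw [he2z] at h3
          exact absurd (hmax y (mem_erase.1 hy).2) (by omega)
        · exact hP2 w (mem_union_right _ h1) h
    have hnew : ∀ v w, (v = t z ∨ v = e1 z ∨ v = e2 z) → (w = t z ∨ w = e1 z ∨ w = e2 z) → v ≠ w →
        c' v ≠ c' w := by
      intro v w hv hw hvw
      rcases hv with rfl | rfl | rfl <;> rcases hw with rfl | rfl | rfl
      · exact absurd rfl hvw
      · rw [hc't, hc'1]; exact hca.symm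
      · rw [hc't, hc'2]; exact hca'.symm
      · rw [hc't, hc'1]; exact hca
      · exact absurd rfl hvw
      · rw [hc'1, hc'2]; exact hcaa
      · rw [hc't, hc'2]; exact hca'
      · rw [hc'1, hc'2]; exact hcaa.symm
      · exact absurd rfl hvw
    have hmix : ∀ v w, (v = t z ∨ v = e1 z ∨ v = e2 z) → w ∈ U ∪ ((D.erase z).image t ∪ E') →
        G.Adj v w → c' v ≠ c' w := by
      intro v w hv hw h
      rw [hc'X w hw]
      rcases hv with rfl | rfl | rfl
      · rw [hc't]; exact (nt w hw h).symm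
      · rw [hc'1]; exact (n1 w hw h).symm
      · rw [hc'2]; exact (n2 w hw h).symm
    have hbnew : ∀ v, (v = t z ∨ v = e1 z ∨ v = e2 z) → b v = z := by
      rintro v (rfl | rfl | rfl)
      · exact htz
      · exact he1z
      · exact he2z
    refine ⟨c', ?_, ?_⟩
    · intro v hv w hw h
      rcases hXsplit v hv with hv' | hv' <;> rcases hXsplit w hw with hw' | hw'
      · rw [hc'X v hv', hc'X w hw']
        exact hc1 v hv' w hw' (Or.inl h)
      · exact (hmix w v hw' hv' h.symm).symm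
      · exact hmix v w hv' hw' h
      · exact hnew v w hv' hw' (G.ne_of_adj h)
    · intro v hv w hw hvw hb
      rcases hXsplit v hv with hv' | hv' <;> rcases hXsplit w hw with hw' | hw'
      · rw [hc'X v hv', hc'X w hw']
        exact hc2 v hv' w hw' hvw hb
      · exact absurd (hb.trans (hbnew w hw')) (hXb v hv')
      · exact absurd (hb.symm.trans (hbnew v hv')) (hXb w hw')
      · exact hnew v w hv' hw' hvw

/-- with links -/
theorem Peel.colorS {V : Type} [DecidableEq V] {b : V → ℕ} {U : Finset V}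
    {t e1 e2 : ℕ → V} {r : ℕ → ℕ} {D : Finset ℕ} :
    ∀ (n : ℕ) (S : Finset ℕ) (G : SimpleGraph V), S.card = n → Peel b U D S t e1 e2 r G →
    ∃ c : V → Fin 3,
      (∀ v ∈ U ∪ (D.image t ∪ EndS e1 e2 D), ∀ w ∈ U ∪ (D.image t ∪ EndS e1 e2 D),
        G.Adj v w → c v ≠ c w) ∧
      (∀ v ∈ U ∪ (D.image t ∪ EndS e1 e2 D), ∀ w ∈ U ∪ (D.image t ∪ EndS e1 e2 D),
        v ≠ w → b v = b w → c v ≠ c w) ∧
      (∀ z ∈ S, ∀ p ∈ U ∪ EndS e1 e2 D, ∀ q ∈ U ∪ EndS e1 e2 D,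
        G.Adj (e1 z) p → G.Adj (e2 z) q → c p ≠ c q) := by
  classical
  intro n
  induction n with
  | zero =>
    intro S G hS P
    have hS0 : S = ∅ := card_eq_zero.1 hS
    subst hS0
    obtain ⟨c, hc1, hc2⟩ := Peel.colorD D.card D G rfl P
    exact ⟨c, hc1, hc2, by intro z hz; simp at hz⟩
  | succ n ih =>
    intro S G hS P
    have hSne : S.Nonempty := card_pos.1 (by omega)
    obtain ⟨z, hzS⟩ := hSne
    have hzD : z ∉ D := fun h => (disjoint_left.1 P.hDS) h hzS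
    have hz : z ∈ D ∪ S := mem_union_right _ hzS
    have P' := P.step z hz
    rw [erase_eq_of_notMem hzD] at P'
    obtain ⟨c, hc1, hc2, hc3⟩ := ih (S.erase z) _ (by rw [card_erase_of_mem hzS]; omega) P'
    have hDsub : ∀ x, x ∈ EndS e1 e2 D → x ∈ EndS e1 e2 ((D ∪ S).erase z) := by
      intro x hx
      obtain ⟨y, hy, h⟩ := mem_EndS.1 hx
      refine mem_EndS.2 ⟨y, mem_erase.2 ⟨?_, mem_union_left _ hy⟩, h⟩
      rintro rfl; exact hzD hy
    have hDsub' : ∀ x, x ∈ U ∪ EndS e1 e2 D → x ∈ U ∪ EndS e1 e2 ((D ∪ S).erase z) := by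
      intro x hx
      rcases mem_union.1 hx with h | h
      · exact mem_union_left _ h
      · exact mem_union_right _ (hDsub x h)
    have hsubX : ∀ x, x ∈ U ∪ EndS e1 e2 D → x ∈ U ∪ (D.image t ∪ EndS e1 e2 D) := by
      intro x hx
      rcases mem_union.1 hx with h | h
      · exact mem_union_left _ h
      · exact mem_union_right _ (mem_union_right _ h)
    have hDSsub : ∀ x, x ∈ EndS e1 e2 D → x ∈ EndS e1 e2 (D ∪ S) := by
      intro x hx
      obtain ⟨y, hy, h⟩ := mem_EndS.1 hx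
      exact mem_EndS.2 ⟨y, mem_union_left _ hy, h⟩
    have h1e : e1 z ∈ EndS e1 e2 (D ∪ S) := mem_EndS.2 ⟨z, hz, Or.inl rfl⟩
    have h2e : e2 z ∈ EndS e1 e2 (D ∪ S) := mem_EndS.2 ⟨z, hz, Or.inr rfl⟩
    refine ⟨c, ?_, hc2, ?_⟩
    · intro v hv w hw h
      exact hc1 v hv w hw (Or.inl h)
    · intro z' hz' p hp q hq h1 h2
      by_cases hzz : z' = z
      · subst hzz
        have hpq : p ≠ q := by
          rintro rfl
          rcases mem_union.1 hp with h | h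
          · exact P.he _ hz (P.h5 p h _ h1e _ h2e h1.symm h2.symm)
          · exact P.he _ hz (P.h4 p (hDSsub p h) _ (mem_union_right _ h1e) _ (mem_union_right _ h2e)
              h1.symm h2.symm)
        exact hc1 p (hsubX p hp) q (hsubX q hq)
          (Or.inr ⟨hpq, hDsub' p hp, hDsub' q hq, Or.inl ⟨h1, h2⟩⟩)
      · exact hc3 z' (mem_erase.2 ⟨hzz, hz'⟩) p hp q hq (Or.inl h1) (Or.inl h2)

/-- TASK EXT (section 5): the peeling lemma.  `U` = base vertices, `D` = doubles with rank `r` and functions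
`t, e1, e2`; `S` = blocks that only have endpoints `e1, e2` (links). -/
theorem ext {V : Type} [Fintype V] [DecidableEq V] (b : V → ℕ) (U : Finset V) (D S : Finset ℕ)
    (t e1 e2 : ℕ → V) (r : ℕ → ℕ) (G : SimpleGraph V)
    (hDS : Disjoint D S)
    (he1 : ∀ z ∈ D ∪ S, b (e1 z) = z) (he2 : ∀ z ∈ D ∪ S, b (e2 z) = z) (he : ∀ z ∈ D ∪ S, e1 z ≠ e2 z)
    (ht : ∀ z ∈ D, b (t z) = z) (ht1 : ∀ z ∈ D, t z ≠ e1 z) (ht2 : ∀ z ∈ D, t z ≠ e2 z)
    (hU : ∀ v ∈ U, b v ∉ D ∪ S)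
    -- each endpoint has at most one neighbour in `U ∪ End`
    (h4 : ∀ e ∈ (D ∪ S).image e1 ∪ (D ∪ S).image e2,
      ∀ x ∈ U ∪ ((D ∪ S).image e1 ∪ (D ∪ S).image e2), ∀ y ∈ U ∪ ((D ∪ S).image e1 ∪ (D ∪ S).image e2),
      G.Adj e x → G.Adj e y → x = y)
    -- each vertex of `U` has at most one neighbour in `End`
    (h5 : ∀ q ∈ U, ∀ x ∈ (D ∪ S).image e1 ∪ (D ∪ S).image e2, ∀ y ∈ (D ∪ S).image e1 ∪ (D ∪ S).image e2,
      G.Adj q x → G.Adj q y → x = y)
    -- `t z` has at most two neighbours in `U ∪ End`, those in `End` are in blocks of `D` of smaller rank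
    (h6 : ∀ z ∈ D, ∀ x ∈ U ∪ ((D ∪ S).image e1 ∪ (D ∪ S).image e2), ∀ y ∈ U ∪ ((D ∪ S).image e1 ∪ (D ∪ S).image e2),
      ∀ w ∈ U ∪ ((D ∪ S).image e1 ∪ (D ∪ S).image e2), G.Adj (t z) x → G.Adj (t z) y → G.Adj (t z) w →
      x = y ∨ y = w ∨ x = w)
    (h6' : ∀ z ∈ D, ∀ x ∈ (D ∪ S).image e1 ∪ (D ∪ S).image e2, G.Adj (t z) x → b x ∈ D ∧ r (b x) < r z)
    (h6'' : ∀ z ∈ D, ∀ z' ∈ D, ¬ G.Adj (t z) (t z'))
    -- colourability of `U` with any partial matching of links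
    (h7 : ∀ N : SimpleGraph V, (∀ v x y, N.Adj v x → N.Adj v y → x = y) →
      (∀ v x, N.Adj v x → v ∈ U ∧ ∃ e ∈ (D ∪ S).image e1 ∪ (D ∪ S).image e2, G.Adj v e) →
      ∃ c : V → Fin 3, (∀ v ∈ U, ∀ w ∈ U, (G.Adj v w ∨ N.Adj v w) → c v ≠ c w) ∧
        (∀ v ∈ U, ∀ w ∈ U, v ≠ w → b v = b w → c v ≠ c w)) :
    ∃ c : V → Fin 3,
      (∀ v ∈ U ∪ (D.image t ∪ (D.image e1 ∪ D.image e2)), ∀ w ∈ U ∪ (D.image t ∪ (D.image e1 ∪ D.image e2)),
        G.Adj v w → c v ≠ c w) ∧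
      (∀ v ∈ U ∪ (D.image t ∪ (D.image e1 ∪ D.image e2)), ∀ w ∈ U ∪ (D.image t ∪ (D.image e1 ∪ D.image e2)),
        v ≠ w → b v = b w → c v ≠ c w) ∧
      (∀ z ∈ S, ∀ p ∈ U ∪ (D.image e1 ∪ D.image e2), ∀ q ∈ U ∪ (D.image e1 ∪ D.image e2),
        G.Adj (e1 z) p → G.Adj (e2 z) q → c p ≠ c q) :=
  Peel.colorS S.card S G rfl
    ⟨hDS, he1, he2, he, ht, ht1, ht2, hU, h4, h5, h6, h6', h6'', h7⟩

end S4C
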