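import Mathlib
set_option autoImplicit false

/-!
Fleischner–Stiebitz for linear forests, through 2×2 matrices over `ZMod 2`.
-/

namespace SC4

open Matrix

abbrev M2 := Matrix (Fin 2) (Fin 2) (ZMod 2)

/-- the three nonzero nilpotent matrices over the field with two elements -/
def nm : Fin 3 → M2
  | 0 => !![0, 0; 1, 0]
  | 1 => !![0, 1; 0, 0]
  | 2 => !![1, 1; 1, 1]

def st (w : M2) : M2 := !![w 1 1, w 0 1; w 1 0, w 0 0]

lemma nm_sq (i : Fin 3) : nm i * nm i = 0 := by
  fin_cases i <;> decide

lemma st_nm (i : Fin 3) : st (nm i) = nm i := by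
  fin_cases i <;> decide

lemma st_one : st 1 = 1 := by decide

lemma st_mul (a b : M2) : st (a * b) = st b * st a := by
  ext i j
  fin_cases i <;> fin_cases j <;>
    simp [st, Matrix.mul_apply, Fin.sum_univ_two] <;> ring

lemma key_aux : ∀ a0 a1 a2 a3 b0 b1 b2 b3 : ZMod 2,
    let a : M2 := !![a0, a1; a2, a3]
    let b : M2 := !![b0, b1; b2, b3]
    nm 0 * a * nm 1 * b * nm 2 + nm 0 * a * nm 2 * b * nm 1 +
    nm 1 * a * nm 0 * b * nm 2 + nm 1 * a * nm 2 * b * nm 0 +
    nm 2 * a * nm 0 * b * nm 1 + nm 2 * a * nm 1 * b * nm 0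
    = b * a + a * b + st b * st a + a * st b + b * st a := by
  intro a0 a1 a2 a3 b0 b1 b2 b3 a b
  ext i j
  fin_cases i <;> fin_cases j <;>
    simp [a, b, st, nm, Matrix.add_apply] <;>
    revert a0 a1 a2 a3 b0 b1 b2 b3 <;> decide

lemma key (a b : M2) :
    nm 0 * a * nm 1 * b * nm 2 + nm 0 * a * nm 2 * b * nm 1 +
    nm 1 * a * nm 0 * b * nm 2 + nm 1 * a * nm 2 * b * nm 0 +
    nm 2 * a * nm 0 * b * nm 1 + nm 2 * a * nm 1 * b * nm 0
    = b * a + a * b + st b * st a + a * st b + b * st a := by
  have h := key_aux (a 0 0) (a 0 1) (a 1 0) (a 1 1) (b 0 0) (b 0 1) (b 1 0) (b 1 1)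
  have ha : !![a 0 0, a 0 1; a 1 0, a 1 1] = a := (Matrix.eta_fin_two a).symm
  have hb : !![b 0 0, b 0 1; b 1 0, b 1 1] = b := (Matrix.eta_fin_two b).symm
  simp only [ha, hb] at h
  exact h

section words

variable {V : Type*} [DecidableEq V]

def upd (c : V → Fin 3) (B : V × V × V) (p : Fin 3 × Fin 3 × Fin 3) : V → Fin 3 :=
  fun v => if v = B.1 then p.1 else if v = B.2.1 then p.2.1 else
    if v = B.2.2 then p.2.2 else c v

def perms3 : List (Fin 3 × Fin 3 × Fin 3) :=
  [(0,1,2), (0,2,1), (1,0,2), (1,2,0), (2,0,1), (2,1,0)]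

def assigns : List (V × V × V) → List (V → Fin 3)
  | [] => [fun _ => 0]
  | B :: Bs => (assigns Bs).flatMap (fun c => perms3.map (upd c B))

def vs : List (V × V × V) → List V
  | [] => []
  | B :: Bs => B.1 :: B.2.1 :: B.2.2 :: vs Bs

def val (c : V → Fin 3) (l : List V) : M2 := (l.map (fun v => nm (c v))).prod

omit [DecidableEq V] in
@[simp] lemma val_nil (c : V → Fin 3) : val c [] = 1 := rfl

omit [DecidableEq V] in
@[simp] lemma val_cons (c : V → Fin 3) (v : V) (l : List V) :
    val c (v :: l) = nm (c v) * val c l := by simp [val]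

omit [DecidableEq V] in
@[simp] lemma val_append (c : V → Fin 3) (l l' : List V) :
    val c (l ++ l') = val c l * val c l' := by simp [val]

omit [DecidableEq V] in
lemma st_val (c : V → Fin 3) (l : List V) : st (val c l) = val c l.reverse := by
  induction l with
  | nil => simp [st_one]
  | cons v l ih => simp [st_mul, st_nm, ih]

omit [DecidableEq V] in
lemma val_congr {c c' : V → Fin 3} {l : List V} (h : ∀ v ∈ l, c v = c' v) :
    val c l = val c' l := by
  unfold val
  congr 1
  apply List.map_congr_left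
  intro v hv
  rw [h v hv]

def S (Bs : List (V × V × V)) (l : List V) : M2 :=
  ((assigns Bs).map (fun c => val c l)).sum

lemma S_cons (B : V × V × V) (Bs : List (V × V × V)) (l : List V) :
    S (B :: Bs) l =
      ((assigns Bs).map (fun c => (perms3.map (fun p => val (upd c B p) l)).sum)).sum := by
  unfold S
  rw [assigns]
  generalize assigns Bs = L
  induction L with
  | nil => simp
  | cons c L ih =>
    simp only [List.flatMap_cons, List.map_append, List.sum_append, List.map_cons, List.sum_cons]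
    rw [ih]
    simp [List.map_map, Function.comp_def]

omit [DecidableEq V] in
lemma split1 (P : V → Bool) (l : List V) (h : 0 < l.countP P) :
    ∃ A x R, l = A ++ x :: R ∧ (∀ a ∈ A, P a = false) ∧ P x = true ∧
      l.countP P = R.countP P + 1 := by
  induction l with
  | nil => simp at h
  | cons v l ih =>
    by_cases hv : P v = true
    · exact ⟨[], v, l, rfl, by simp, hv, by simp [hv]⟩
    · have hv' : P v = false := by simpa using hv
      rw [List.countP_cons_of_neg (by simpa using hv)] at h ⊢
      obtain ⟨A, x, R, h1, h2, h3, h4⟩ := ih h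
      refine ⟨v :: A, x, R, by simp [h1], ?_, h3, h4⟩
      intro a ha
      rcases List.mem_cons.mp ha with rfl | ha
      · exact hv'
      · exact h2 a ha

lemma split3 {x y z : V} {l r : List V} (h : l.Perm (x :: y :: z :: r))
    (nd : (x :: y :: z :: r).Nodup) :
    ∃ A B C D x1 x2 x3, l = A ++ x1 :: (B ++ x2 :: (C ++ x3 :: D)) ∧
      ((x1 = x ∧ x2 = y ∧ x3 = z) ∨ (x1 = x ∧ x2 = z ∧ x3 = y) ∨
       (x1 = y ∧ x2 = x ∧ x3 = z) ∨ (x1 = y ∧ x2 = z ∧ x3 = x) ∨
       (x1 = z ∧ x2 = x ∧ x3 = y) ∨ (x1 = z ∧ x2 = y ∧ x3 = x)) ∧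
      (A ++ (B ++ (C ++ D))).Perm r ∧
      (∀ a ∈ A ++ (B ++ (C ++ D)), a ≠ x ∧ a ≠ y ∧ a ≠ z) := by
  classical
  set P : V → Bool := fun v => decide (v = x ∨ v = y ∨ v = z) with hP
  have hr : ∀ v ∈ r, P v = false := by
    intro v hv
    simp only [List.nodup_cons, List.mem_cons, not_or] at nd
    simp only [hP, decide_eq_false_iff_not, not_or]
    refine ⟨?_, ?_, ?_⟩
    · rintro rfl; exact nd.1.2.2 hv
    · rintro rfl; exact nd.2.1.2 hv
    · rintro rfl; exact nd.2.2.1 hv
  have hr0 : r.countP P = 0 := by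
    rw [List.countP_eq_zero]
    intro a ha
    simp [hr a ha]
  have hc : l.countP P = 3 := by
    have hx : P x = true := by simp [hP]
    have hy : P y = true := by simp [hP]
    have hz : P z = true := by simp [hP]
    rw [h.countP_eq, List.countP_cons_of_pos hx, List.countP_cons_of_pos hy,
      List.countP_cons_of_pos hz, hr0]
  obtain ⟨A, x1, R1, e1, a1, p1, c1⟩ := split1 P l (by omega)
  obtain ⟨B, x2, R2, e2, a2, p2, c2⟩ := split1 P R1 (by omega)
  obtain ⟨C, x3, D, e3, a3, p3, c3⟩ := split1 P R2 (by omega)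
  have hD : ∀ a ∈ D, P a = false := by
    have : D.countP P = 0 := by omega
    rw [List.countP_eq_zero] at this
    intro a ha
    simpa using this a ha
  subst e3
  subst e2
  subst e1
  have ndl : (A ++ x1 :: (B ++ x2 :: (C ++ x3 :: D))).Nodup := h.nodup_iff.mpr nd
  have hne : x1 ≠ x2 ∧ x1 ≠ x3 ∧ x2 ≠ x3 := by
    have h1 : (x1 :: (B ++ x2 :: (C ++ x3 :: D))).Nodup := (List.nodup_append.mp ndl).2.1
    rw [List.nodup_cons] at h1
    have h2 : (x2 :: (C ++ x3 :: D)).Nodup := (List.nodup_append.mp h1.2).2.1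
    rw [List.nodup_cons] at h2
    refine ⟨?_, ?_, ?_⟩
    · rintro rfl; exact h1.1 (by simp)
    · rintro rfl; exact h1.1 (by simp)
    · rintro rfl; exact h2.1 (by simp)
  refine ⟨A, B, C, D, x1, x2, x3, rfl, ?_, ?_, ?_⟩
  · simp only [hP, decide_eq_true_eq] at p1 p2 p3
    obtain ⟨n1, n2, n3⟩ := hne
    rcases p1 with rfl | rfl | rfl <;> rcases p2 with rfl | rfl | rfl <;>
      rcases p3 with rfl | rfl | rfl <;> simp_all
  · have hf := h.filter (fun v => ! P v)
    have e1 : (A ++ x1 :: (B ++ x2 :: (C ++ x3 :: D))).filter (fun v => ! P v)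
        = A ++ (B ++ (C ++ D)) := by
      have fA : A.filter (fun v => ! P v) = A := by
        rw [List.filter_eq_self]; intro a ha; simp [a1 a ha]
      have fB : B.filter (fun v => ! P v) = B := by
        rw [List.filter_eq_self]; intro a ha; simp [a2 a ha]
      have fC : C.filter (fun v => ! P v) = C := by
        rw [List.filter_eq_self]; intro a ha; simp [a3 a ha]
      have fD : D.filter (fun v => ! P v) = D := by
        rw [List.filter_eq_self]; intro a ha; simp [hD a ha]
      simp [List.filter_append, p1, p2, p3, fA, fB, fC, fD]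
    have e2 : (x :: y :: z :: r).filter (fun v => ! P v) = r := by
      have fr : r.filter (fun v => ! P v) = r := by
        rw [List.filter_eq_self]; intro a ha; simp [hr a ha]
      have hx : P x = true := by simp [hP]
      have hy : P y = true := by simp [hP]
      have hz : P z = true := by simp [hP]
      simp [hx, hy, hz, fr]
    rw [e1, e2] at hf
    exact hf
  · intro a ha
    have : P a = false := by
      simp only [List.mem_append] at ha
      rcases ha with ha | ha | ha | ha
      · exact a1 a ha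
      · exact a2 a ha
      · exact a3 a ha
      · exact hD a ha
    simpa [hP] using this

lemma upd_val {c : V → Fin 3} {B : V × V × V} {p : Fin 3 × Fin 3 × Fin 3} {l : List V}
    (h : ∀ a ∈ l, a ≠ B.1 ∧ a ≠ B.2.1 ∧ a ≠ B.2.2) : val (upd c B p) l = val c l := by
  apply val_congr
  intro v hv
  obtain ⟨h1, h2, h3⟩ := h v hv
  simp [upd, h1, h2, h3]

lemma sum_perms {x y z : V} (hxy : x ≠ y) (hxz : x ≠ z) (hyz : y ≠ z) (c : V → Fin 3)
    {A B C D : List V} {x1 x2 x3 : V}
    (hx : (x1 = x ∧ x2 = y ∧ x3 = z) ∨ (x1 = x ∧ x2 = z ∧ x3 = y) ∨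
       (x1 = y ∧ x2 = x ∧ x3 = z) ∨ (x1 = y ∧ x2 = z ∧ x3 = x) ∨
       (x1 = z ∧ x2 = x ∧ x3 = y) ∨ (x1 = z ∧ x2 = y ∧ x3 = x))
    (hA : ∀ a ∈ A ++ (B ++ (C ++ D)), a ≠ x ∧ a ≠ y ∧ a ≠ z) :
    (perms3.map (fun p => val (upd c (x, y, z) p)
      (A ++ x1 :: (B ++ x2 :: (C ++ x3 :: D))))).sum
    = val c (A ++ (C ++ (B ++ D))) + val c (A ++ (B ++ (C ++ D)))
      + val c (A ++ (C.reverse ++ (B.reverse ++ D)))
      + val c (A ++ (B ++ (C.reverse ++ D)))
      + val c (A ++ (C ++ (B.reverse ++ D))) := by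
  have eA : ∀ p, val (upd c (x, y, z) p) A = val c A := fun p =>
    upd_val (fun a ha => hA a (by simp [ha]))
  have eB : ∀ p, val (upd c (x, y, z) p) B = val c B := fun p =>
    upd_val (fun a ha => hA a (by simp [ha]))
  have eC : ∀ p, val (upd c (x, y, z) p) C = val c C := fun p =>
    upd_val (fun a ha => hA a (by simp [ha]))
  have eD : ∀ p, val (upd c (x, y, z) p) D = val c D := fun p =>
    upd_val (fun a ha => hA a (by simp [ha]))
  have u1 : ∀ p : Fin 3 × Fin 3 × Fin 3, upd c (x, y, z) p x = p.1 := fun p => by simp [upd]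
  have u2 : ∀ p : Fin 3 × Fin 3 × Fin 3, upd c (x, y, z) p y = p.2.1 := fun p => by
    simp [upd, hxy.symm]
  have u3 : ∀ p : Fin 3 × Fin 3 × Fin 3, upd c (x, y, z) p z = p.2.2 := fun p => by
    simp [upd, hxz.symm, hyz.symm]
  have k := key (val c B) (val c C)
  have k' : val c A * (nm 0 * val c B * nm 1 * val c C * nm 2 + nm 0 * val c B * nm 2 * val c C * nm 1 +
    nm 1 * val c B * nm 0 * val c C * nm 2 + nm 1 * val c B * nm 2 * val c C * nm 0 +
    nm 2 * val c B * nm 0 * val c C * nm 1 + nm 2 * val c B * nm 1 * val c C * nm 0) * val c D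
    = val c A * (val c C * val c B + val c B * val c C + st (val c C) * st (val c B)
      + val c B * st (val c C) + val c C * st (val c B)) * val c D := by rw [k]
  simp only [st_val] at k'
  simp only [val_append, val_cons, eA, eB, eC, eD]
  have rhs : val c A * (val c C * (val c B * val c D)) + val c A * (val c B * (val c C * val c D))
      + val c A * (val c C.reverse * (val c B.reverse * val c D))
      + val c A * (val c B * (val c C.reverse * val c D))
      + val c A * (val c C * (val c B.reverse * val c D))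
      = val c A * (val c C * val c B + val c B * val c C + (val c C.reverse) * (val c B.reverse)
      + val c B * (val c C.reverse) + val c C * (val c B.reverse)) * val c D := by
    noncomm_ring
  rw [rhs, ← k']
  rcases hx with ⟨rfl, rfl, rfl⟩ | ⟨rfl, rfl, rfl⟩ | ⟨rfl, rfl, rfl⟩ | ⟨rfl, rfl, rfl⟩ |
    ⟨rfl, rfl, rfl⟩ | ⟨rfl, rfl, rfl⟩ <;>
  · simp only [perms3, List.map_cons, List.map_nil, List.sum_cons, List.sum_nil, u1, u2, u3]
    noncomm_ring

theorem S_eq_one : ∀ (Bs : List (V × V × V)) (l : List V), (vs Bs).Nodup →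
    l.Perm (vs Bs) → S Bs l = 1 := by
  intro Bs
  induction Bs with
  | nil =>
    intro l _ hl
    have : l = [] := by simpa [vs] using hl
    subst this
    simp [S, assigns]
  | cons B Bs ih =>
    intro l nd hl
    obtain ⟨x, y, z⟩ := B
    simp only [vs] at nd hl
    obtain ⟨A, B, C, D, x1, x2, x3, rfl, hx, hp, hA⟩ := split3 hl nd
    have nd' := nd
    simp only [List.nodup_cons, List.mem_cons, not_or] at nd'
    rw [S_cons]
    have hsum : ∀ c ∈ assigns Bs, (perms3.map (fun p => val (upd c (x, y, z) p)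
      (A ++ x1 :: (B ++ x2 :: (C ++ x3 :: D))))).sum
      = val c (A ++ (C ++ (B ++ D))) + val c (A ++ (B ++ (C ++ D)))
      + val c (A ++ (C.reverse ++ (B.reverse ++ D)))
      + val c (A ++ (B ++ (C.reverse ++ D)))
      + val c (A ++ (C ++ (B.reverse ++ D))) := fun c _ =>
      sum_perms nd'.1.1 nd'.1.2.1 nd'.2.1.1 c hx hA
    rw [List.map_congr_left hsum]
    have ndr : (vs Bs).Nodup := nd'.2.2.2
    have q1 : (A ++ (C ++ (B ++ D))).Perm (vs Bs) := by
      refine List.Perm.trans ?_ hp
      apply List.Perm.append_left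
      rw [← List.append_assoc, ← List.append_assoc]
      exact List.Perm.append_right _ List.perm_append_comm
    have q3 : (A ++ (C.reverse ++ (B.reverse ++ D))).Perm (vs Bs) := by
      refine List.Perm.trans ?_ q1
      apply List.Perm.append_left
      exact List.Perm.append (List.reverse_perm _) (List.Perm.append (List.reverse_perm _) (List.Perm.refl _))
    have q4 : (A ++ (B ++ (C.reverse ++ D))).Perm (vs Bs) := by
      refine List.Perm.trans ?_ hp
      apply List.Perm.append_left
      apply List.Perm.append_left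
      exact List.Perm.append (List.reverse_perm _) (List.Perm.refl _)
    have q5 : (A ++ (C ++ (B.reverse ++ D))).Perm (vs Bs) := by
      refine List.Perm.trans ?_ q1
      apply List.Perm.append_left
      apply List.Perm.append_left
      exact List.Perm.append (List.reverse_perm _) (List.Perm.refl _)
    have s1 := ih _ ndr q1
    have s2 := ih _ ndr hp
    have s3 := ih _ ndr q3
    have s4 := ih _ ndr q4
    have s5 := ih _ ndr q5
    unfold S at s1 s2 s3 s4 s5
    simp only [List.sum_map_add]
    rw [s1, s2, s3, s4, s5]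
    decide

/-- every assignment is injective on each block -/
lemma assigns_rainbow : ∀ (Bs : List (V × V × V)), (vs Bs).Nodup → ∀ c ∈ assigns Bs,
    ∀ B ∈ Bs, c B.1 ≠ c B.2.1 ∧ c B.1 ≠ c B.2.2 ∧ c B.2.1 ≠ c B.2.2 := by
  intro Bs
  induction Bs with
  | nil => intro _ c _ B hB; simp at hB
  | cons B0 Bs ih =>
    intro nd c hc B hB
    obtain ⟨x, y, z⟩ := B0
    simp only [vs, List.nodup_cons, List.mem_cons, not_or] at nd
    simp only [assigns, List.mem_flatMap, List.mem_map] at hc
    obtain ⟨c', hc', p, hp, rfl⟩ := hc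
    rcases List.mem_cons.mp hB with rfl | hB
    · have e2 : y ≠ x := fun h => nd.1.1 h.symm
      have e3 : z ≠ x := fun h => nd.1.2.1 h.symm
      have e4 : z ≠ y := fun h => nd.2.1.1 h.symm
      simp only [upd, if_true, e2, e3, e4, if_false]
      simp only [perms3, List.mem_cons, List.not_mem_nil, or_false] at hp
      rcases hp with rfl | rfl | rfl | rfl | rfl | rfl <;> decide
    · have mem : ∀ (L : List (V × V × V)) (B : V × V × V), B ∈ L →
          B.1 ∈ vs L ∧ B.2.1 ∈ vs L ∧ B.2.2 ∈ vs L := by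
        intro L
        induction L with
        | nil => intro B h; simp at h
        | cons B1 L ihL =>
          intro B h
          rcases List.mem_cons.mp h with rfl | h
          · simp [vs]
          · obtain ⟨h1, h2, h3⟩ := ihL B h
            simp [vs, h1, h2, h3]
      obtain ⟨m1, m2, m3⟩ := mem Bs B hB
      have out : ∀ v ∈ vs Bs, upd c' (x, y, z) p v = c' v := by
        intro v hv
        have h1 : v ≠ x := by rintro rfl; exact nd.1.2.2 hv
        have h2 : v ≠ y := by rintro rfl; exact nd.2.1.2 hv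
        have h3 : v ≠ z := by rintro rfl; exact nd.2.2.1 hv
        simp [upd, h1, h2, h3]
      rw [out _ m1, out _ m2, out _ m3]
      exact ih nd.2.2.2 c' hc' B hB

omit [DecidableEq V] in
lemma chain_of_val {c : V → Fin 3} : ∀ {l : List V}, val c l ≠ 0 →
    ∀ s t u w, l = s ++ u :: w :: t → c u ≠ c w := by
  intro l h s t u w e hcu
  apply h
  subst e
  simp only [val_append, val_cons, hcu]
  rw [← Matrix.mul_assoc (nm (c w)), nm_sq]
  simp

/-- Fleischner–Stiebitz for a path given as a list. -/
theorem FS_list (Bs : List (V × V × V)) (l : List V) (nd : (vs Bs).Nodup)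
    (hl : l.Perm (vs Bs)) :
    ∃ c : V → Fin 3, (∀ B ∈ Bs, c B.1 ≠ c B.2.1 ∧ c B.1 ≠ c B.2.2 ∧ c B.2.1 ≠ c B.2.2) ∧
      (∀ s t u w, l = s ++ u :: w :: t → c u ≠ c w) := by
  have h1 := S_eq_one Bs l nd hl
  by_contra hcon
  push Not at hcon
  have : S Bs l = 0 := by
    unfold S
    apply List.sum_eq_zero
    intro m hm
    rw [List.mem_map] at hm
    obtain ⟨c, hc, rfl⟩ := hm
    by_contra hne
    obtain ⟨s, t, u, w, e, h⟩ := hcon c (assigns_rainbow Bs nd c hc)
    exact chain_of_val hne s t u w e h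
  rw [this] at h1
  exact absurd h1 (by decide)

end words


section graph

open Finset

variable {V : Type*} [DecidableEq V]

/-- enumeration of a linear forest: adjacent vertices are consecutive -/
lemma enum_forest [Fintype V] (G : SimpleGraph V) [DecidableRel G.Adj]
    (hdeg : ∀ v, G.degree v ≤ 2)
    (hac : ∀ W : Finset V, W.Nonempty → ∃ v ∈ W, (W.filter (G.Adj v)).card ≤ 1) :
    ∀ W : Finset V, ∀ v ∈ W, (W.filter (G.Adj v)).card ≤ 1 →
      ∃ l : List V, l.Nodup ∧ (∀ x, x ∈ v :: l ↔ x ∈ W) ∧ v ∉ l ∧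
        ∀ x ∈ W, ∀ y ∈ W, G.Adj x y →
          (∃ s t, v :: l = s ++ x :: y :: t) ∨ (∃ s t, v :: l = s ++ y :: x :: t) := by
  intro W
  induction W using Finset.strongInduction with
  | H W ih =>
    intro v hv hdv
    by_cases hW : (W.erase v).Nonempty
    · have hss : W.erase v ⊂ W := Finset.erase_ssubset hv
      rcases Nat.lt_or_ge 0 (W.filter (G.Adj v)).card with h1 | h0
      · -- one neighbour
        have hc1 : (W.filter (G.Adj v)).card = 1 := by omega
        obtain ⟨u, hu⟩ := Finset.card_eq_one.mp hc1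
        have huv : u ∈ W.filter (G.Adj v) := by rw [hu]; simp
        rw [Finset.mem_filter] at huv
        have hune : u ≠ v := fun h => by
          have := huv.2
          rw [h] at this
          exact G.loopless.irrefl v this
        have huW : u ∈ W.erase v := Finset.mem_erase.mpr ⟨hune, huv.1⟩
        have hdu : ((W.erase v).filter (G.Adj u)).card ≤ 1 := by
          have hsub : (W.erase v).filter (G.Adj u) ⊆ (G.neighborFinset u).erase v := by
            intro x hx
            simp only [Finset.mem_filter, Finset.mem_erase, SimpleGraph.mem_neighborFinset] at hx ⊢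
            exact ⟨hx.1.1, hx.2⟩
          have hmem : v ∈ G.neighborFinset u := by
            rw [SimpleGraph.mem_neighborFinset]; exact huv.2.symm
          have h3 := Finset.card_le_card hsub
          rw [Finset.card_erase_of_mem hmem, SimpleGraph.card_neighborFinset_eq_degree] at h3
          have := hdeg u
          omega
        obtain ⟨l, nd, hm, hul, hadj⟩ := ih _ hss u huW hdu
        refine ⟨u :: l, List.nodup_cons.mpr ⟨hul, nd⟩, ?_, ?_, ?_⟩
        · intro x
          rw [List.mem_cons, hm, Finset.mem_erase]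
          constructor
          · rintro (rfl | h)
            · exact hv
            · exact h.2
          · intro h
            by_cases hx : x = v
            · exact Or.inl hx
            · exact Or.inr ⟨hx, h⟩
        · rw [hm, Finset.mem_erase]; simp
        · intro x hx y hy hxy
          by_cases hxv : x = v
          · subst hxv
            have : y ∈ W.filter (G.Adj x) := Finset.mem_filter.mpr ⟨hy, hxy⟩
            rw [hu, Finset.mem_singleton] at this
            subst this
            exact Or.inl ⟨[], l, rfl⟩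
          · by_cases hyv : y = v
            · subst hyv
              have : x ∈ W.filter (G.Adj y) := Finset.mem_filter.mpr ⟨hx, hxy.symm⟩
              rw [hu, Finset.mem_singleton] at this
              subst this
              exact Or.inr ⟨[], l, rfl⟩
            · rcases hadj x (Finset.mem_erase.mpr ⟨hxv, hx⟩) y
                (Finset.mem_erase.mpr ⟨hyv, hy⟩) hxy with ⟨s, t, h⟩ | ⟨s, t, h⟩
              · exact Or.inl ⟨v :: s, t, by rw [h]; rfl⟩
              · exact Or.inr ⟨v :: s, t, by rw [h]; rfl⟩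
      · -- no neighbour
        have hemp : ∀ y ∈ W, ¬ G.Adj v y := by
          intro y hy hvy
          have : 0 < (W.filter (G.Adj v)).card :=
            Finset.card_pos.mpr ⟨y, Finset.mem_filter.mpr ⟨hy, hvy⟩⟩
          omega
        obtain ⟨u, huW, hdu⟩ := hac _ hW
        obtain ⟨l, nd, hm, hul, hadj⟩ := ih _ hss u huW hdu
        refine ⟨u :: l, List.nodup_cons.mpr ⟨hul, nd⟩, ?_, ?_, ?_⟩
        · intro x
          rw [List.mem_cons, hm, Finset.mem_erase]
          constructor
          · rintro (rfl | h)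
            · exact hv
            · exact h.2
          · intro h
            by_cases hx : x = v
            · exact Or.inl hx
            · exact Or.inr ⟨hx, h⟩
        · rw [hm, Finset.mem_erase]; simp
        · intro x hx y hy hxy
          have hxv : x ≠ v := by rintro rfl; exact hemp y hy hxy
          have hyv : y ≠ v := by rintro rfl; exact hemp x hx hxy.symm
          rcases hadj x (Finset.mem_erase.mpr ⟨hxv, hx⟩) y
            (Finset.mem_erase.mpr ⟨hyv, hy⟩) hxy with ⟨s, t, h⟩ | ⟨s, t, h⟩
          · exact Or.inl ⟨v :: s, t, by rw [h]; rfl⟩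
          · exact Or.inr ⟨v :: s, t, by rw [h]; rfl⟩
    · have hall : ∀ x ∈ W, x = v := by
        intro x hx
        by_contra hne
        exact hW ⟨x, Finset.mem_erase.mpr ⟨hne, hx⟩⟩
      refine ⟨[], List.nodup_nil, ?_, by simp, ?_⟩
      · intro x
        rw [List.mem_singleton]
        exact ⟨fun h => h ▸ hv, hall x⟩
      · intro x hx y hy hxy
        rw [hall x hx, hall y hy] at hxy
        exact absurd hxy (G.loopless.irrefl v)

/-- completed blocks -/
def tr (β : ℕ) : List V → (V ⊕ (ℕ × Fin 2)) × (V ⊕ (ℕ × Fin 2)) × (V ⊕ (ℕ × Fin 2))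
  | [] => (Sum.inr (β, 0), Sum.inr (β, 1), Sum.inr (β, 0))
  | [x] => (Sum.inl x, Sum.inr (β, 0), Sum.inr (β, 1))
  | [x, y] => (Sum.inl x, Sum.inl y, Sum.inr (β, 0))
  | x :: y :: z :: _ => (Sum.inl x, Sum.inl y, Sum.inl z)

omit [DecidableEq V] in
lemma tr_props (b : V → ℕ) (F : ℕ → List V) (hF : ∀ β x, x ∈ F β ↔ b x = β)
    (hnd : ∀ β, (F β).Nodup) :
    ∀ L : List ℕ, L.Nodup → (∀ β ∈ L, F β ≠ [] ∧ (F β).length ≤ 3) →
      (vs (L.map (fun β => tr β (F β)))).Nodup ∧
      (∀ x, Sum.inl x ∈ vs (L.map (fun β => tr β (F β))) ↔ b x ∈ L) ∧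
      (∀ p : ℕ × Fin 2, Sum.inr p ∈ vs (L.map (fun β => tr β (F β))) → p.1 ∈ L) := by
  intro L
  induction L with
  | nil => intro _ _; simp [vs]
  | cons β L ih =>
    intro nd hlen
    rw [List.nodup_cons] at nd
    obtain ⟨i1, i2, i3⟩ := ih nd.2 (fun γ hγ => hlen γ (List.mem_cons_of_mem _ hγ))
    obtain ⟨hne, hle⟩ := hlen β List.mem_cons_self
    have hmem := hF β
    have hndβ := hnd β
    simp only [List.map_cons, vs]
    set R := vs (L.map (fun β => tr β (F β))) with hR
    have noinl : ∀ x, b x = β → (Sum.inl x : V ⊕ (ℕ × Fin 2)) ∉ R := by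
      intro x hx h
      rw [i2, hx] at h
      exact nd.1 h
    have noinr : ∀ j : Fin 2, (Sum.inr (β, j) : V ⊕ (ℕ × Fin 2)) ∉ R := by
      intro j h
      exact nd.1 (i3 _ h)
    generalize F β = l at hne hle hmem hndβ
    match l, hne, hle, hmem, hndβ with
    | [x], _, _, hmem, _ =>
      have hx : b x = β := (hmem x).mp (by simp)
      refine ⟨?_, ?_, ?_⟩
      · simp only [tr, List.nodup_cons, List.mem_cons, not_or]
        refine ⟨⟨by simp, by simp, noinl x hx⟩, ⟨by simp, noinr 0⟩, noinr 1, i1⟩
      · intro y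
        simp only [tr, List.mem_cons, Sum.inl.injEq, reduceCtorEq, false_or, i2]
        rw [← hmem y]; simp
      · intro p
        simp only [tr, List.mem_cons, reduceCtorEq, false_or, Sum.inr.injEq]
        rintro (rfl | rfl | h)
        · exact Or.inl rfl
        · exact Or.inl rfl
        · exact Or.inr (i3 p h)
    | [x, y], _, _, hmem, hndβ =>
      have hx : b x = β := (hmem x).mp (by simp)
      have hy : b y = β := (hmem y).mp (by simp)
      have hxy : x ≠ y := by simpa using hndβ
      refine ⟨?_, ?_, ?_⟩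
      · simp only [tr, List.nodup_cons, List.mem_cons, not_or]
        refine ⟨⟨by simpa using hxy, by simp, noinl x hx⟩, ⟨by simp, noinl y hy⟩, noinr 0, i1⟩
      · intro w
        simp only [tr, List.mem_cons, Sum.inl.injEq, reduceCtorEq, false_or, i2]
        rw [← hmem w]; simp [or_assoc]
      · intro p
        simp only [tr, List.mem_cons, reduceCtorEq, false_or, Sum.inr.injEq]
        rintro (rfl | h)
        · exact Or.inl rfl
        · exact Or.inr (i3 p h)
    | [x, y, z], _, _, hmem, hndβ =>
      have hx : b x = β := (hmem x).mp (by simp)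
      have hy : b y = β := (hmem y).mp (by simp)
      have hz : b z = β := (hmem z).mp (by simp)
      have hxyz : (x ≠ y ∧ x ≠ z) ∧ y ≠ z := by simpa using hndβ
      refine ⟨?_, ?_, ?_⟩
      · simp only [tr, List.nodup_cons, List.mem_cons, not_or]
        refine ⟨⟨by simpa using hxyz.1.1, by simpa using hxyz.1.2, noinl x hx⟩,
          ⟨by simpa using hxyz.2, noinl y hy⟩, noinl z hz, i1⟩
      · intro w
        simp only [tr, List.mem_cons, Sum.inl.injEq, i2]
        rw [← hmem w]; simp [or_assoc]
      · intro p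
        simp only [tr, List.mem_cons, reduceCtorEq, false_or]
        intro h
        exact Or.inr (i3 p h)

/-- Fleischner–Stiebitz theorem for a linear forest and blocks of size at most three. -/
theorem FS [Fintype V] (G : SimpleGraph V) [DecidableRel G.Adj]
    (hdeg : ∀ v, G.degree v ≤ 2)
    (hac : ∀ W : Finset V, W.Nonempty → ∃ v ∈ W, (W.filter (G.Adj v)).card ≤ 1)
    (b : V → ℕ) (hb : ∀ v, (univ.filter (fun w => b w = b v)).card ≤ 3) :
    ∃ c : V → Fin 3, (∀ v w, G.Adj v w → c v ≠ c w) ∧
      (∀ v w, v ≠ w → b v = b w → c v ≠ c w) := by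
  classical
  by_cases hV : (univ : Finset V).Nonempty
  swap
  · have : IsEmpty V := by
      rw [Finset.not_nonempty_iff_eq_empty, Finset.univ_eq_empty_iff] at hV
      exact hV
    exact ⟨fun _ => 0, fun v => this.elim v, fun v => this.elim v⟩
  obtain ⟨v0, hv0, hd0⟩ := hac univ hV
  obtain ⟨l0, nd0, hm0, hv0l, hadj⟩ := enum_forest G hdeg hac univ v0 hv0 hd0
  set lV := v0 :: l0 with hlV
  have ndV : lV.Nodup := List.nodup_cons.mpr ⟨hv0l, nd0⟩
  let F : ℕ → List V := fun β => (univ.filter (fun w => b w = β)).toList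
  have hF : ∀ β x, x ∈ F β ↔ b x = β := by intro β x; simp [F]
  have hFn : ∀ β, (F β).Nodup := fun β => Finset.nodup_toList _
  let L : List ℕ := (univ.image b).toList
  have hL : L.Nodup := Finset.nodup_toList _
  have hLm : ∀ β, β ∈ L ↔ ∃ x, b x = β := by intro β; simp [L]
  have hlen : ∀ β ∈ L, F β ≠ [] ∧ (F β).length ≤ 3 := by
    intro β hβ
    obtain ⟨x, rfl⟩ := (hLm β).mp hβ
    refine ⟨?_, ?_⟩
    · intro h
      have : x ∈ F (b x) := (hF _ _).mpr rfl
      rw [h] at this
      simp at this
    · have := hb x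
      simpa [F] using this
  obtain ⟨t1, t2, t3⟩ := tr_props b F hF hFn L hL hlen
  set Bs := L.map (fun β => tr β (F β)) with hBs
  set l : List (V ⊕ (ℕ × Fin 2)) := lV.map Sum.inl ++ (vs Bs).filter (fun q => q.isRight) with hl
  have ndl : l.Nodup := by
    rw [hl, List.nodup_append]
    refine ⟨ndV.map Sum.inl_injective, t1.filter _, ?_⟩
    intro a ha b' hb'
    rw [List.mem_map] at ha
    obtain ⟨x, _, rfl⟩ := ha
    rw [List.mem_filter] at hb'
    rintro rfl
    simp at hb'
  have hperm : l.Perm (vs Bs) := by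
    rw [List.perm_ext_iff_of_nodup ndl t1]
    intro a
    rw [hl, List.mem_append, List.mem_map, List.mem_filter]
    constructor
    · rintro (⟨x, hx, rfl⟩ | h)
      · rw [t2, hLm]; exact ⟨x, rfl⟩
      · exact h.1
    · intro h
      rcases a with x | p
      · left
        exact ⟨x, (hm0 x).mpr (Finset.mem_univ x), rfl⟩
      · right
        exact ⟨h, rfl⟩
  obtain ⟨c, hc1, hc2⟩ := FS_list Bs l t1 hperm
  refine ⟨fun v => c (Sum.inl v), ?_, ?_⟩
  · intro v w hvw
    have key : ∀ x y, (∃ s t, lV = s ++ x :: y :: t) → c (Sum.inl x) ≠ c (Sum.inl y) := by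
      rintro x y ⟨s, t, h⟩
      refine hc2 (s.map Sum.inl) (t.map Sum.inl ++ (vs Bs).filter (fun q => q.isRight)) _ _ ?_
      rw [hl, h]
      simp
    rcases hadj v (Finset.mem_univ v) w (Finset.mem_univ w) hvw with h | h
    · exact key v w h
    · exact (key w v h).symm
  · intro v w hne hbvw
    have hβ : b v ∈ L := (hLm _).mpr ⟨v, rfl⟩
    have hB : tr (b v) (F (b v)) ∈ Bs := List.mem_map.mpr ⟨b v, hβ, rfl⟩
    have h3 := hc1 _ hB
    have hv : v ∈ F (b v) := (hF _ _).mpr rfl
    have hw : w ∈ F (b v) := (hF _ _).mpr hbvw.symm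
    obtain ⟨_, hle⟩ := hlen _ hβ
    generalize F (b v) = fl at hv hw hle h3
    match fl, hv, hw, hle, h3 with
    | [x], hv, hw, _, _ =>
      simp only [List.mem_singleton] at hv hw
      exact absurd (hv.trans hw.symm) hne
    | [x, y], hv, hw, _, h3 =>
      simp only [List.mem_cons, List.not_mem_nil, or_false] at hv hw
      simp only [tr] at h3
      rcases hv with rfl | rfl <;> rcases hw with rfl | rfl
      · exact absurd rfl hne
      · exact h3.1
      · exact h3.1.symm
      · exact absurd rfl hne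
    | [x, y, z], hv, hw, _, h3 =>
      simp only [List.mem_cons, List.not_mem_nil, or_false] at hv hw
      simp only [tr] at h3
      rcases hv with rfl | rfl | rfl <;> rcases hw with rfl | rfl | rfl
      · exact absurd rfl hne
      · exact h3.1
      · exact h3.2.1
      · exact h3.1.symm
      · exact absurd rfl hne
      · exact h3.2.2
      · exact h3.2.1.symm
      · exact h3.2.2.symm
      · exact absurd rfl hne

end graph

end SC4

namespace S4C
open Finset

/-- Fleischner–Stiebitz for a linear forest and blocks of size at most 3, on a finset `U`. -/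
theorem FS {V : Type} [Fintype V] [DecidableEq V] (G : SimpleGraph V) (U : Finset V) (b : V → ℕ)
    (hdeg : ∀ v ∈ U, ∀ x ∈ U, ∀ y ∈ U, ∀ z ∈ U, G.Adj v x → G.Adj v y → G.Adj v z → x = y ∨ y = z ∨ x = z)
    (hac : ∀ W : Finset V, W ⊆ U → W.Nonempty →
      ∃ v ∈ W, ∀ x ∈ W, ∀ y ∈ W, G.Adj v x → G.Adj v y → x = y)
    (hb : ∀ v ∈ U, (U.filter (fun w => b w = b v)).card ≤ 3) :
    ∃ c : V → Fin 3, (∀ v ∈ U, ∀ w ∈ U, G.Adj v w → c v ≠ c w) ∧
      (∀ v ∈ U, ∀ w ∈ U, v ≠ w → b v = b w → c v ≠ c w) := by
  classical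
  have h1 : ∀ v : {v // v ∈ U}, (G.comap (Subtype.val : {v // v ∈ U} → V)).degree v ≤ 2 := by
    intro v
    by_contra hcon
    push Not at hcon
    rw [← SimpleGraph.card_neighborFinset_eq_degree, Finset.two_lt_card] at hcon
    obtain ⟨x, hx, y, hy, z, hz, hxy, hxz, hyz⟩ := hcon
    simp only [SimpleGraph.mem_neighborFinset, SimpleGraph.comap_adj] at hx hy hz
    rcases hdeg v v.2 x x.2 y y.2 z z.2 hx hy hz with h | h | h
    · exact hxy (Subtype.ext h)
    · exact hyz (Subtype.ext h)
    · exact hxz (Subtype.ext h)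
  have h2 : ∀ W : Finset {v // v ∈ U}, W.Nonempty → ∃ v ∈ W,
      (W.filter ((G.comap (Subtype.val : {v // v ∈ U} → V)).Adj v)).card ≤ 1 := by
    intro W hW
    obtain ⟨v, hv, h⟩ := hac (W.image Subtype.val) (by
      intro x hx
      rw [Finset.mem_image] at hx
      obtain ⟨y, _, rfl⟩ := hx
      exact y.2) (hW.image _)
    rw [Finset.mem_image] at hv
    obtain ⟨v', hv', rfl⟩ := hv
    refine ⟨v', hv', ?_⟩
    rw [Finset.card_le_one]
    intro x hx y hy
    rw [Finset.mem_filter, SimpleGraph.comap_adj] at hx hy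
    exact Subtype.ext (h x (Finset.mem_image_of_mem _ hx.1) y (Finset.mem_image_of_mem _ hy.1)
      hx.2 hy.2)
  have h3 : ∀ v : {v // v ∈ U},
      (univ.filter (fun w : {v // v ∈ U} => b w = b v)).card ≤ 3 := by
    intro v
    refine le_trans ?_ (hb v v.2)
    apply Finset.card_le_card_of_injOn Subtype.val
    · intro w hw
      rw [Finset.mem_coe, Finset.mem_filter] at hw ⊢
      exact ⟨w.2, hw.2⟩
    · exact Subtype.val_injective.injOn
  obtain ⟨c, hc1, hc2⟩ := SC4.FS (G.comap (Subtype.val : {v // v ∈ U} → V)) h1 h2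
    (fun v => b v) h3
  refine ⟨fun v => if h : v ∈ U then c ⟨v, h⟩ else 0, ?_, ?_⟩
  · intro v hv w hw hvw
    simp only [hv, hw, dif_pos]
    exact hc1 ⟨v, hv⟩ ⟨w, hw⟩ hvw
  · intro v hv w hw hne hbvw
    simp only [hv, hw, dif_pos]
    exact hc2 ⟨v, hv⟩ ⟨w, hw⟩ (fun h => hne (congrArg Subtype.val h)) hbvw

end S4C
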