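import Pool.Agent.LibS4C.Defs
import Pool.Agent.LibS4C.Det
set_option autoImplicit false
set_option linter.unusedSectionVars false

/-! Lemma A: solving the stuck set (section 6 of the notes). -/
namespace S4C
open Finset

namespace LemA

theorem exists_oth {S A : Type} [DecidableEq S] [Fintype A] [DecidableEq A] (head : A → S)
    (hin : ∀ z, (univ.filter (fun a => head a = z)).card = 2) :
    ∃ oth : A → A, ∀ a, oth a ≠ a ∧ head (oth a) = head a ∧ ∀ b, head b = head a → b = a ∨ b = oth a := by
  have h : ∀ a : A, ∃ o : A, o ≠ a ∧ head o = head a ∧ ∀ b, head b = head a → b = a ∨ b = o := by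
    intro a
    obtain ⟨x, y, hxy, h⟩ := Finset.card_eq_two.mp (hin (head a))
    have hmem : ∀ b, head b = head a ↔ (b = x ∨ b = y) := by
      intro b
      have : b ∈ univ.filter (fun c => head c = head a) ↔ b ∈ ({x, y} : Finset A) := by rw [h]
      simpa using this
    rcases (hmem a).mp rfl with rfl | rfl
    · exact ⟨y, hxy.symm, (hmem y).mpr (Or.inr rfl), fun b hb => (hmem b).mp hb⟩
    · exact ⟨x, hxy, (hmem x).mpr (Or.inl rfl), fun b hb => ((hmem b).mp hb).symm⟩
  choose o ho using h
  exact ⟨o, ho⟩

/-- a colour avoiding two given ones -/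
theorem exists_avoid (x y : Fin 3) : ∃ q : Fin 3, q ≠ x ∧ q ≠ y := by
  revert x y; decide

/-- growth along usable arcs -/
theorem grow {S A : Type} [Fintype S] [DecidableEq S] (tail head : A → S)
    (al : A → Fin 3) (hv : A → Fin 3 → Fin 3) (Us : A → Prop) (W0 : Finset S) (f0 : S → A) (p0 : S → Fin 3) :
    ∃ (W : Finset S) (f : S → A) (p : S → Fin 3), W0 ⊆ W ∧ (∀ z ∈ W0, f z = f0 z ∧ p z = p0 z) ∧
      (∀ z ∈ W, z ∉ W0 → Us (f z) ∧ tail (f z) = z ∧ head (f z) ∈ W ∧ p z ≠ al (f z) ∧
        p z ≠ hv (f z) (p (head (f z)))) ∧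
      (∀ a, Us a → head a ∈ W → tail a ∈ W) := by
  classical
  let P : Finset S → Prop := fun W => ∃ (f : S → A) (p : S → Fin 3), W0 ⊆ W ∧ (∀ z ∈ W0, f z = f0 z ∧ p z = p0 z) ∧
      (∀ z ∈ W, z ∉ W0 → Us (f z) ∧ tail (f z) = z ∧ head (f z) ∈ W ∧ p z ≠ al (f z) ∧
        p z ≠ hv (f z) (p (head (f z))))
  have hne : (univ.filter P).Nonempty := by
    refine ⟨W0, ?_⟩
    rw [mem_filter]
    refine ⟨mem_univ _, f0, p0, Subset.refl _, fun z _ => ⟨rfl, rfl⟩, fun z hz hz' => absurd hz hz'⟩
  obtain ⟨W, hW, hmax⟩ := (univ.filter P).exists_max_image (fun W => W.card) hne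
  rw [mem_filter] at hW
  obtain ⟨-, f, p, h0, h1, h2⟩ := hW
  refine ⟨W, f, p, h0, h1, h2, ?_⟩
  intro a ha hh
  by_contra hta
  obtain ⟨q, hq1, hq2⟩ := exists_avoid (al a) (hv a (p (head a)))
  have hP : P (insert (tail a) W) := by
    refine ⟨Function.update f (tail a) a, Function.update p (tail a) q,
      h0.trans (subset_insert _ _), ?_, ?_⟩
    · intro z hz
      have hne : z ≠ tail a := by
        rintro rfl; exact hta (h0 hz)
      rw [Function.update_of_ne hne, Function.update_of_ne hne]
      exact h1 z hz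
    · intro z hz hz0
      have hha : head a ≠ tail a := by
        intro h; rw [h] at hh; exact hta hh
      by_cases hzt : z = tail a
      · subst hzt
        rw [Function.update_self, Function.update_self]
        refine ⟨ha, rfl, mem_insert_of_mem hh, hq1, ?_⟩
        rw [Function.update_of_ne hha]; exact hq2
      · rw [Function.update_of_ne hzt, Function.update_of_ne hzt]
        have hzW : z ∈ W := (mem_insert.mp hz).resolve_left hzt
        obtain ⟨k1, k2, k3, k4, k5⟩ := h2 z hzW hz0
        refine ⟨k1, k2, mem_insert_of_mem k3, k4, ?_⟩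
        have : head (f z) ≠ tail a := by
          intro h; rw [h] at k3; exact hta k3
        rw [Function.update_of_ne this]; exact k5
  have := hmax _ (mem_filter.mpr ⟨mem_univ _, hP⟩)
  rw [card_insert_of_notMem hta] at this
  omega

/-- a set closed under in-arcs is closed under out-arcs -/
theorem closed_out {S A : Type} [Fintype S] [DecidableEq S] [Fintype A] [DecidableEq A] (tail head : A → S)
    (hout : ∀ z, (univ.filter (fun a => tail a = z)).card = 2)
    (hin : ∀ z, (univ.filter (fun a => head a = z)).card = 2) (W : Finset S)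
    (hW : ∀ a, head a ∈ W → tail a ∈ W) : ∀ a, tail a ∈ W → head a ∈ W := by
  have hcard : ∀ (g : A → S), (∀ z, (univ.filter (fun a => g a = z)).card = 2) →
      (univ.filter (fun a => g a ∈ W)).card = 2 * W.card := by
    intro g hg
    have h1 := Finset.card_eq_sum_card_fiberwise (f := g) (s := univ.filter (fun a => g a ∈ W)) (t := W)
      (fun a ha => by simpa using ha)
    rw [h1]
    have h2 : ∀ z ∈ W, ((univ.filter (fun a => g a ∈ W)).filter (fun a => g a = z)).card = 2 := by
      intro z hz
      rw [← hg z]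
      congr 1
      ext a
      simp only [mem_filter, mem_univ, true_and]
      constructor
      · rintro ⟨_, h⟩; exact h
      · rintro rfl; exact ⟨hz, rfl⟩
    rw [sum_congr rfl h2]
    simp [mul_comm]
  have hsub : univ.filter (fun a => head a ∈ W) ⊆ univ.filter (fun a => tail a ∈ W) := by
    intro a ha
    simp only [mem_filter, mem_univ, true_and] at ha ⊢
    exact hW a ha
  have heq := Finset.eq_of_subset_of_card_le hsub (by rw [hcard tail hout, hcard head hin])
  intro a ha
  have : a ∈ univ.filter (fun a => tail a ∈ W) := by simpa using ha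
  rw [← heq] at this
  simpa using this

/-- third colour -/
def thd (x y : Fin 3) : Fin 3 := -(x + y)

/-- colour of a head with label `x`, partner label `y`, when the opened special has colour `q` -/
def hcol (x y q : Fin 3) : Fin 3 := if q = y then thd x y else y

theorem hcol_ne_left : ∀ x y q : Fin 3, x ≠ y → hcol x y q ≠ x := by decide
theorem hcol_ne_q : ∀ x y q : Fin 3, x ≠ y → hcol x y q ≠ q := by decide
theorem hcol_ne_hcol : ∀ x y q : Fin 3, x ≠ y → hcol x y q ≠ hcol y x q := by decide
theorem thd_comm (x y : Fin 3) : thd x y = thd y x := by simp [thd, add_comm]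
theorem thd_ne_left : ∀ x y : Fin 3, x ≠ y → thd x y ≠ x := by decide
theorem thd_ne_right : ∀ x y : Fin 3, x ≠ y → thd x y ≠ y := by decide
theorem eq_of_ne_thd : ∀ x y u : Fin 3, x ≠ y → u ≠ thd x y → u ≠ x → u = y := by decide
theorem hcol_of_ne (x y q : Fin 3) (h : q ≠ y) : hcol x y q = y := by simp [hcol, h]

/-- shift by a sign -/
def sh (l : Fin 3) (s : ℤˣ) : Fin 3 := if s = 1 then l + 1 else l + 2

theorem sh_ne (l : Fin 3) (s : ℤˣ) : sh l s ≠ l := by
  unfold sh; revert l; split <;> decide

theorem sour_check (x y : Fin 3) (s : ℤˣ) (h : x ≠ y) : sh x s ≠ hcol x y (sh (thd x y) (-s)) := by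
  rcases Int.units_eq_one_or s with rfl | rfl
  · revert x y; decide
  · revert x y; decide

/-- validity of a partial solution -/
def Val {S A : Type} (tail head : A → S) (al be : A → Fin 3) (oth : A → A) (W : Finset S)
    (f : S → A) (p : S → Fin 3) : Prop :=
  ∀ z ∈ W, tail (f z) = z ∧ head (f z) ∈ W ∧ p z ≠ al (f z) ∧
    p z ≠ hcol (be (f z)) (be (oth (f z))) (p (head (f z)))

section
variable {S A : Type} [Fintype S] [DecidableEq S] [Fintype A] [DecidableEq A] (tail head : A → S)
    (hout : ∀ z, (univ.filter (fun a => tail a = z)).card = 2)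
    (hin : ∀ z, (univ.filter (fun a => head a = z)).card = 2)
    (hloop : ∀ a, tail a ≠ head a) (al be : A → Fin 3)
    (oth : A → A)
    (hoth : ∀ a, oth a ≠ a ∧ head (oth a) = head a ∧ ∀ b, head b = head a → b = a ∨ b = oth a)
    (hbe : ∀ a, be a ≠ be (oth a))
include hout hin hloop hoth hbe

/-- (A1) -/
theorem stepA1 (Z : Finset S) (hZ : ∀ a, tail a ∈ Z ↔ head a ∈ Z) (a : A) (ha : tail a ∈ Z)
    (hab : al a ≠ be a) :
    ∃ (W : Finset S) (f : S → A) (p : S → Fin 3), W ⊆ Z ∧ W.Nonempty ∧ Val tail head al be oth W f p := by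
  classical
  obtain ⟨W, f, p, h0, h1, h2, h3⟩ := grow tail head al (fun b q => hcol (be b) (be (oth b)) q)
    (fun b => tail b ∈ Z) {tail a} (fun _ => a) (fun _ => be a)
  have hWZ : W ⊆ Z := by
    intro z hz
    by_cases hz0 : z ∈ ({tail a} : Finset S)
    · rw [mem_singleton] at hz0; rw [hz0]; exact ha
    · obtain ⟨k1, k2, -⟩ := h2 z hz hz0
      rw [← k2]; exact k1
  have hWin : ∀ b, head b ∈ W → tail b ∈ W := by
    intro b hb
    exact h3 b ((hZ b).mpr (hWZ hb)) hb
  have hWout := closed_out tail head hout hin W hWin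
  have hta : tail a ∈ W := h0 (mem_singleton_self _)
  refine ⟨W, f, p, hWZ, ⟨_, hta⟩, ?_⟩
  intro z hz
  by_cases hz0 : z ∈ ({tail a} : Finset S)
  · obtain ⟨e1, e2⟩ := h1 z hz0
    rw [mem_singleton] at hz0
    subst hz0
    rw [e1, e2]
    exact ⟨rfl, hWout a hta, fun h => hab h.symm, fun h => hcol_ne_left _ _ _ (hbe a) h.symm⟩
  · obtain ⟨-, k2, k3, k4, k5⟩ := h2 z hz hz0
    exact ⟨k2, k3, k4, k5⟩

/-- strong connectivity of a minimal closed set: growing from `y` fills it -/
theorem growMin (Des : A → Prop) (Z1 : Finset S)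
    (hcl : ∀ a, Des a → tail a ∈ Z1 → head a ∈ Z1)
    (hmin : ∀ W : Finset S, W ⊆ Z1 → W.Nonempty → (∀ a, Des a → tail a ∈ W → head a ∈ W) → W = Z1)
    (y : S) (hy : y ∈ Z1) (e : A) (q : Fin 3) :
    ∃ (f : S → A) (p : S → Fin 3), f y = e ∧ p y = q ∧
      (∀ z ∈ Z1, z ≠ y → Des (f z) ∧ tail (f z) = z ∧ head (f z) ∈ Z1 ∧ p z ≠ al (f z) ∧
        p z ≠ hcol (be (f z)) (be (oth (f z))) (p (head (f z)))) := by
  classical
  obtain ⟨W, f, p, h0, h1, h2, h3⟩ := grow tail head al (fun b q => hcol (be b) (be (oth b)) q)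
    (fun b => Des b ∧ tail b ∈ Z1) {y} (fun _ => e) (fun _ => q)
  have hWZ : W ⊆ Z1 := by
    intro z hz
    by_cases hz0 : z ∈ ({y} : Finset S)
    · rw [mem_singleton] at hz0; rw [hz0]; exact hy
    · obtain ⟨k1, k2, -⟩ := h2 z hz hz0
      rw [← k2]; exact k1.2
  have hyW : y ∈ W := h0 (mem_singleton_self _)
  have hWeq : W = Z1 := by
    by_contra hne
    have hd : (Z1 \ W).Nonempty := by
      rw [Finset.nonempty_iff_ne_empty]
      intro h
      rw [Finset.sdiff_eq_empty_iff_subset] at h
      exact hne (Subset.antisymm hWZ h)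
    have := hmin (Z1 \ W) sdiff_subset hd (by
      intro a ha hta
      rw [mem_sdiff] at hta ⊢
      refine ⟨hcl a ha hta.1, fun hh => hta.2 (h3 a ⟨ha, hta.1⟩ hh)⟩)
    have hy' : y ∈ Z1 \ W := by rw [this]; exact hy
    exact (mem_sdiff.mp hy').2 hyW
  obtain ⟨e1, e2⟩ := h1 y (mem_singleton_self _)
  refine ⟨f, p, e1, e2, ?_⟩
  intro z hz hzy
  obtain ⟨k1, k2, k3, k4, k5⟩ := h2 z (by rw [hWeq]; exact hz) (by simpa using hzy)
  exact ⟨k1.1, k2, hWeq ▸ k3, k4, k5⟩

/-- (A2) -/
theorem stepA2 (Z : Finset S) (hZne : Z.Nonempty) (hZ : ∀ a, tail a ∈ Z ↔ head a ∈ Z)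
    (hab : ∀ a, tail a ∈ Z → al a = be a) :
    ∃ (W : Finset S) (f : S → A) (p : S → Fin 3), W ⊆ Z ∧ W.Nonempty ∧ Val tail head al be oth W f p := by
  classical
  -- involution
  have hoo : ∀ a, oth (oth a) = a := by
    intro a
    obtain ⟨h1, h2, h3⟩ := hoth a
    obtain ⟨k1, k2, k3⟩ := hoth (oth a)
    rcases h3 (oth (oth a)) (by rw [k2, h2]) with h | h
    · exact h
    · exact absurd h k1
  -- third colours
  have hg : ∀ z, ∃ g : A, head g = z := by
    intro z
    have : (univ.filter (fun a => head a = z)).Nonempty := by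
      rw [← card_pos, hin z]; norm_num
    obtain ⟨g, hg⟩ := this
    exact ⟨g, by simpa using hg⟩
  choose g hg using hg
  obtain ⟨cz, hcz⟩ : ∃ cz : S → Fin 3, ∀ a, cz (head a) = thd (be a) (be (oth a)) := by
    refine ⟨fun z => thd (be (g z)) (be (oth (g z))), ?_⟩
    intro a
    show thd (be (g (head a))) (be (oth (g (head a)))) = _
    rcases (hoth (g (head a))).2.2 a (by rw [hg]) with h | h
    · rw [← h]
    · have h' : oth a = g (head a) := by rw [h, hoo, ← h]
      rw [h', ← h, thd_comm]
  let sour : S → Prop := fun z => ∀ a, tail a = z → be a = cz z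
  have hd : ∀ z, ∃ a : A, ¬ sour z → (tail a = z ∧ be a ≠ cz z) := by
    intro z
    by_cases h : sour z
    · exact ⟨g z, fun h' => absurd h h'⟩
    · have h' := h
      simp only [sour, not_forall] at h'
      obtain ⟨a, h1, h2⟩ := h'
      exact ⟨a, fun _ => ⟨h1, h2⟩⟩
  choose d hd using hd
  let Des : A → Prop := fun a => sour (tail a) ∨ a = d (tail a)
  let lam : S → Fin 3 := fun z => if sour z then cz z else be (d z)
  have hlam : ∀ a, Des a → be a = lam (tail a) := by
    intro a ha
    by_cases h : sour (tail a)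
    · simp only [lam, if_pos h]
      exact h a rfl
    · simp only [lam, if_neg h]
      rcases ha with h' | h'
      · exact absurd h' h
      · rw [← h']
  -- minimal closed set
  let fam : Finset (Finset S) := Z.powerset.filter (fun W => W.Nonempty ∧ ∀ a, Des a → tail a ∈ W → head a ∈ W)
  have hfam : fam.Nonempty := by
    refine ⟨Z, ?_⟩
    simp only [fam, mem_filter, mem_powerset]
    exact ⟨Subset.refl _, hZne, fun a _ ha => (hZ a).mp ha⟩
  obtain ⟨Z1, hZ1, hZ1min⟩ := fam.exists_min_image (fun W => W.card) hfam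
  simp only [fam, mem_filter, mem_powerset] at hZ1
  obtain ⟨hZ1Z, hZ1ne, hcl⟩ := hZ1
  have hmin : ∀ W : Finset S, W ⊆ Z1 → W.Nonempty → (∀ a, Des a → tail a ∈ W → head a ∈ W) → W = Z1 := by
    intro W h1 h2 h3
    refine Finset.eq_of_subset_of_card_le h1 (hZ1min W ?_)
    simp only [fam, mem_filter, mem_powerset]
    exact ⟨h1.trans hZ1Z, h2, h3⟩
  by_cases hA : ∃ e, Des e ∧ tail e ∈ Z1 ∧ ¬ sour (head e) ∧ be (d (head e)) ≠ be e
  · -- (A2a)
    obtain ⟨e, he1, he2, he3, he4⟩ := hA
    obtain ⟨f, p, hf0, hp0, hfp⟩ := growMin tail head hout hin hloop al be oth hoth hbe Des Z1 hcl hmin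
      (tail e) he2 e (cz (head e))
    refine ⟨Z1, f, p, hZ1Z, hZ1ne, ?_⟩
    have hcz' := hcz e
    have hbd : be (d (head e)) = be (oth e) := by
      have h1 := (hd (head e) he3).2
      rw [hcz'] at h1
      exact eq_of_ne_thd _ _ _ (hbe e) h1 he4
    have hheadZ : head e ∈ Z1 := hcl e he1 he2
    intro z hz
    by_cases hz0 : z = tail e
    · subst hz0
      rw [hf0, hp0]
      refine ⟨rfl, hheadZ, ?_, ?_⟩
      · rw [hab e (hZ1Z he2), hcz']; exact thd_ne_left _ _ (hbe e)
      · obtain ⟨k1, k2, k3, k4, k5⟩ := hfp (head e) hheadZ (fun h => hloop e h.symm)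
        have hfd : f (head e) = d (head e) := by
          rcases k1 with h | h
          · rw [k2] at h; exact absurd h he3
          · rw [k2] at h; exact h
        have hpne : p (head e) ≠ be (oth e) := by
          have : al (f (head e)) = be (oth e) := by
            rw [hab _ (by rw [k2]; exact hZ1Z hheadZ), hfd, hbd]
          rw [← this]; exact k4
        rw [hcol_of_ne _ _ _ hpne, hcz']
        exact thd_ne_right _ _ (hbe e)
    · obtain ⟨-, k2, k3, k4, k5⟩ := hfp z hz hz0
      exact ⟨k2, k3, k4, k5⟩
  · -- (A2b)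
    push Not at hA
    let DZ : Finset A := univ.filter (fun a => Des a ∧ tail a ∈ Z1)
    let w : S → ℕ := fun z => if sour z then 2 else 1
    have hDout : DZ.card = ∑ z ∈ Z1, w z := by
      rw [Finset.card_eq_sum_card_fiberwise (f := tail) (s := DZ) (t := Z1)
        (fun a ha => by have := (mem_filter.mp ha).2.2; exact this)]
      refine sum_congr rfl ?_
      intro z hz
      by_cases h : sour z
      · simp only [w, if_pos h]
        rw [← hout z]
        congr 1
        ext a
        simp only [DZ, mem_filter, mem_univ, true_and]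
        constructor
        · rintro ⟨_, h⟩; exact h
        · rintro rfl; exact ⟨⟨Or.inl h, hz⟩, rfl⟩
      · simp only [w, if_neg h]
        rw [Finset.card_eq_one]
        refine ⟨d z, ?_⟩
        ext a
        simp only [DZ, mem_filter, mem_univ, true_and, mem_singleton]
        constructor
        · rintro ⟨⟨h1, h2⟩, rfl⟩
          rcases h1 with h1 | h1
          · exact absurd h1 h
          · exact h1
        · rintro rfl
          have := (hd z h).1
          refine ⟨⟨Or.inr ?_, ?_⟩, this⟩
          · rw [this]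
          · rw [this]; exact hz
    have hDin : DZ.card = ∑ z ∈ Z1, (DZ.filter (fun a => head a = z)).card :=
      Finset.card_eq_sum_card_fiberwise (f := head) (s := DZ) (t := Z1)
        (fun a ha => by have := (mem_filter.mp ha).2; exact hcl a this.1 this.2)
    have hle : ∀ z ∈ Z1, (DZ.filter (fun a => head a = z)).card ≤ w z := by
      intro z hz
      by_cases h : sour z
      · simp only [w, if_pos h]
        rw [← hin z]
        refine card_le_card ?_
        intro a ha
        simp only [mem_filter, mem_univ, true_and] at ha ⊢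
        exact ha.2
      · simp only [w, if_neg h]
        rw [Finset.card_le_one]
        intro a ha a' ha'
        simp only [DZ, mem_filter, mem_univ, true_and] at ha ha'
        by_contra hne
        have e1 := hA a ha.1.1 ha.1.2 (by rw [ha.2]; exact h)
        have e2 := hA a' ha'.1.1 ha'.1.2 (by rw [ha'.2]; exact h)
        rw [ha.2] at e1; rw [ha'.2] at e2
        rcases (hoth a).2.2 a' (by rw [ha.2, ha'.2]) with h' | h'
        · exact hne h'.symm
        · exact hbe a (by rw [← h', ← e1, ← e2])
    have heq : ∀ z ∈ Z1, (DZ.filter (fun a => head a = z)).card = w z :=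
      (Finset.sum_eq_sum_iff_of_le hle).mp (by rw [← hDin, hDout])
    have : Nonempty {z // z ∈ Z1} := hZ1ne.to_subtype
    obtain ⟨W, F, s, hWne, hWF, hWs⟩ := evenCircuit (Z := {z // z ∈ Z1})
      (fun y z => ∃ a, Des a ∧ tail a = y.1 ∧ head a = z.1)
      (by
        rintro z ⟨a, -, h1, h2⟩
        exact hloop a (h1.trans h2.symm))
      (fun z => lam z.1) (fun z => sour z.1)
      (by
        rintro ⟨z, hz⟩ hns
        have h1 := heq z hz
        simp only [w, if_neg hns] at h1
        rw [Finset.card_eq_one] at h1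
        obtain ⟨a, ha⟩ := h1
        have haDZ : a ∈ DZ.filter (fun a => head a = z) := by rw [ha]; exact mem_singleton_self _
        simp only [DZ, mem_filter, mem_univ, true_and] at haDZ
        refine ⟨⟨tail a, haDZ.1.2⟩, ?_, ?_⟩
        · show lam (tail a) = lam z
          rw [← hlam a haDZ.1.1]
          simp only [lam, if_neg hns]
          have := hA a haDZ.1.1 haDZ.1.2 (by rw [haDZ.2]; exact hns)
          rw [haDZ.2] at this
          exact this.symm
        · rintro ⟨x, hx⟩
          constructor
          · rintro ⟨a', h1, h2, h3⟩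
            have : a' ∈ DZ.filter (fun a => head a = z) := by
              simp only [DZ, mem_filter, mem_univ, true_and]
              exact ⟨⟨h1, by rw [h2]; exact hx⟩, h3⟩
            rw [ha, mem_singleton] at this
            subst this
            exact Subtype.ext h2.symm
          · intro h
            have h' : x = tail a := congrArg Subtype.val h
            exact ⟨a, haDZ.1.1, h'.symm, haDZ.2⟩)
      (by
        rintro ⟨z, hz⟩ hs
        have h1 := heq z hz
        simp only [w, if_pos hs] at h1
        have h2 : DZ.filter (fun a => head a = z) = univ.filter (fun a => head a = z) := by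
          refine Finset.eq_of_subset_of_card_le ?_ (by rw [h1, hin z])
          intro a ha
          simp only [mem_filter, mem_univ, true_and] at ha ⊢
          exact ha.2
        have h3 : ∀ a, head a = z → Des a ∧ tail a ∈ Z1 := by
          intro a ha
          have : a ∈ DZ.filter (fun a => head a = z) := by
            rw [h2]; simpa using ha
          simp only [DZ, mem_filter, mem_univ, true_and] at this
          exact this.1
        have k1 := h3 (g z) (hg z)
        have k0 : head (oth (g z)) = z := by rw [(hoth (g z)).2.1, hg]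
        have k2 := h3 (oth (g z)) k0
        have hcg := hcz (g z)
        rw [hg] at hcg
        have hlz : lam z = thd (be (g z)) (be (oth (g z))) := by
          simp only [lam, if_pos (show sour z from hs)]
          exact hcg
        refine ⟨⟨tail (g z), k1.2⟩, ⟨tail (oth (g z)), k2.2⟩, ?_, ?_, ?_, ?_⟩
        · show lam (tail (g z)) ≠ lam (tail (oth (g z)))
          rw [← hlam _ k1.1, ← hlam _ k2.1]
          exact hbe _
        · show lam (tail (g z)) ≠ lam z
          rw [← hlam _ k1.1, hlz]
          exact (thd_ne_left _ _ (hbe _)).symm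
        · show lam (tail (oth (g z))) ≠ lam z
          rw [← hlam _ k2.1, hlz]
          exact (thd_ne_right _ _ (hbe _)).symm
        · rintro ⟨x, hx⟩
          constructor
          · rintro ⟨a', e1, e2, e3⟩
            rcases (hoth (g z)).2.2 a' (by rw [hg]; exact e3) with h | h
            · left; rw [h] at e2; exact Subtype.ext e2.symm
            · right; rw [h] at e2; exact Subtype.ext e2.symm
          · rintro (h | h)
            · have h' : x = tail (g z) := congrArg Subtype.val h
              exact ⟨g z, k1.1, h'.symm, hg z⟩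
            · have h' : x = tail (oth (g z)) := congrArg Subtype.val h
              exact ⟨oth (g z), k2.1, h'.symm, k0⟩)
    -- transfer to `S`
    have hex : ∀ z : S, ∃ a : A, ∀ hz : z ∈ Z1, (⟨z, hz⟩ : {z // z ∈ Z1}) ∈ W →
        Des a ∧ tail a = z ∧ head a = (F ⟨z, hz⟩).1 := by
      intro z
      by_cases hz : z ∈ Z1
      · by_cases hW : (⟨z, hz⟩ : {z // z ∈ Z1}) ∈ W
        · obtain ⟨-, a, h1, h2, h3⟩ := hWF _ hW
          exact ⟨a, fun _ _ => ⟨h1, h2, h3⟩⟩
        · exact ⟨g z, fun _ h => absurd h hW⟩
      · exact ⟨g z, fun h => absurd h hz⟩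
    choose f hf using hex
    let p : S → Fin 3 := fun z => if hz : z ∈ Z1 then sh (lam z) (s ⟨z, hz⟩) else 0
    refine ⟨W.image Subtype.val, f, p, ?_, hWne.image _, ?_⟩
    · intro z hz
      rw [mem_image] at hz
      obtain ⟨⟨z', hz'⟩, -, rfl⟩ := hz
      exact hZ1Z hz'
    · intro z hz
      rw [mem_image] at hz
      obtain ⟨⟨z', hz'⟩, hzW, hzz⟩ := hz
      have hzz' : z' = z := hzz
      subst hzz'
      obtain ⟨k1, k2, k3⟩ := hf z' hz' hzW
      have hFW := (hWF _ hzW).1
      have hFZ : (F ⟨z', hz'⟩).1 ∈ Z1 := (F ⟨z', hz'⟩).2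
      have hpz : p z' = sh (lam z') (s ⟨z', hz'⟩) := by simp only [p, dif_pos hz']
      have hpF : p (head (f z')) = sh (lam (head (f z'))) (s (F ⟨z', hz'⟩)) := by
        rw [k3]; simp only [p, dif_pos hFZ]
      have hbl : be (f z') = lam z' := by rw [hlam _ k1, k2]
      refine ⟨k2, ?_, ?_, ?_⟩
      · rw [k3]; exact mem_image_of_mem _ hFW
      · rw [hab _ (by rw [k2]; exact hZ1Z hz'), hbl, hpz]
        exact sh_ne _ _
      · by_cases hs : sour (head (f z'))
        · have hs' : sour (F ⟨z', hz'⟩).1 := by rw [← k3]; exact hs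
          have e1 := (hWs _ hzW).1 hs'
          have e2 : lam (head (f z')) = thd (be (f z')) (be (oth (f z'))) := by
            simp only [lam, if_pos hs]
            exact hcz _
          rw [hpF, e1, e2, hpz, ← hbl]
          exact sour_check _ _ _ (hbe _)
        · have hs' : ¬ sour (F ⟨z', hz'⟩).1 := by rw [← k3]; exact hs
          have e1 := (hWs _ hzW).2 hs'
          have e2 : lam (head (f z')) = be (f z') := by
            simp only [lam, if_neg hs]
            exact hA _ k1 (by rw [k2]; exact hz') hs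
          have e3 : p (head (f z')) = p z' := by
            rw [hpF, hpz, e1, e2, hbl]
          rw [e3]
          exact (hcol_ne_q _ _ _ (hbe _)).symm

/-- a valid solution on everything -/
theorem exists_full : ∃ (f : S → A) (p : S → Fin 3), Val tail head al be oth univ f p := by
  classical
  let fam : Finset (Finset S) := univ.filter (fun W => ∃ (f : S → A) (p : S → Fin 3), Val tail head al be oth W f p)
  have hg : ∀ z, ∃ g : A, head g = z := by
    intro z
    have : (univ.filter (fun a => head a = z)).Nonempty := by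
      rw [← card_pos, hin z]; norm_num
    obtain ⟨g, hg⟩ := this
    exact ⟨g, by simpa using hg⟩
  choose g hg using hg
  have hfam : fam.Nonempty := by
    refine ⟨∅, ?_⟩
    simp only [fam, mem_filter, mem_univ, true_and]
    exact ⟨g, fun _ => 0, fun z hz => absurd hz (notMem_empty _)⟩
  obtain ⟨W, hW, hmax⟩ := fam.exists_max_image (fun W => W.card) hfam
  simp only [fam, mem_filter, mem_univ, true_and] at hW
  obtain ⟨f, p, hfp⟩ := hW
  by_cases hWu : W = univ
  · rw [hWu] at hfp; exact ⟨f, p, hfp⟩
  exfalso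
  -- W is closed under in-arcs
  have hWin : ∀ a, head a ∈ W → tail a ∈ W := by
    intro a hh
    by_contra hta
    obtain ⟨q, hq1, hq2⟩ := exists_avoid (al a) (hcol (be a) (be (oth a)) (p (head a)))
    have hmem : insert (tail a) W ∈ fam := by
      simp only [fam, mem_filter, mem_univ, true_and]
      refine ⟨Function.update f (tail a) a, Function.update p (tail a) q, ?_⟩
      intro z hz
      have hha : head a ≠ tail a := fun h => hloop a h.symm
      by_cases hzt : z = tail a
      · subst hzt
        rw [Function.update_self, Function.update_self]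
        refine ⟨rfl, mem_insert_of_mem hh, hq1, ?_⟩
        rw [Function.update_of_ne hha]; exact hq2
      · rw [Function.update_of_ne hzt, Function.update_of_ne hzt]
        have hzW : z ∈ W := (mem_insert.mp hz).resolve_left hzt
        obtain ⟨k2, k3, k4, k5⟩ := hfp z hzW
        refine ⟨k2, mem_insert_of_mem k3, k4, ?_⟩
        have : head (f z) ≠ tail a := by
          intro h; rw [h] at k3; exact hta k3
        rw [Function.update_of_ne this]; exact k5
    have := hmax _ hmem
    rw [card_insert_of_notMem hta] at this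
    omega
  have hWout := closed_out tail head hout hin W hWin
  have hZ : ∀ a, tail a ∈ Wᶜ ↔ head a ∈ Wᶜ := by
    intro a
    rw [mem_compl, mem_compl]
    exact ⟨fun h1 h2 => h1 (hWin a h2), fun h1 h2 => h1 (hWout a h2)⟩
  have hZne : (Wᶜ).Nonempty := by
    rw [Finset.nonempty_iff_ne_empty]
    intro h
    exact hWu (by rwa [Finset.compl_eq_empty_iff] at h)
  have key : ∃ (W' : Finset S) (f' : S → A) (p' : S → Fin 3), W' ⊆ Wᶜ ∧ W'.Nonempty ∧
      Val tail head al be oth W' f' p' := by
    by_cases h : ∃ a, tail a ∈ Wᶜ ∧ al a ≠ be a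
    · obtain ⟨a, h1, h2⟩ := h
      exact stepA1 tail head hout hin hloop al be oth hoth hbe Wᶜ hZ a h1 h2
    · push Not at h
      exact stepA2 tail head hout hin hloop al be oth hoth hbe Wᶜ hZne hZ h
  obtain ⟨W', f', p', h1, h2, h3⟩ := key
  have hdisj : ∀ z, z ∈ W' → z ∉ W := fun z hz => mem_compl.mp (h1 hz)
  have hmem : W ∪ W' ∈ fam := by
    simp only [fam, mem_filter, mem_univ, true_and]
    refine ⟨fun z => if z ∈ W' then f' z else f z, fun z => if z ∈ W' then p' z else p z, ?_⟩
    intro z hz
    by_cases hz' : z ∈ W'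
    · obtain ⟨k1, k2, k3, k4⟩ := h3 z hz'
      simp only [if_pos hz', if_pos k2]
      exact ⟨k1, mem_union_right _ k2, k3, k4⟩
    · have hzW : z ∈ W := (mem_union.mp hz).resolve_right hz'
      obtain ⟨k1, k2, k3, k4⟩ := hfp z hzW
      have : head (f z) ∉ W' := fun h => hdisj _ h k2
      simp only [if_neg hz', if_neg this]
      exact ⟨k1, mem_union_left _ k2, k3, k4⟩
  have := hmax _ hmem
  obtain ⟨z, hz⟩ := h2
  have hlt : W.card < (W ∪ W').card := by
    refine card_lt_card ?_
    rw [Finset.ssubset_iff_of_subset subset_union_left]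
    exact ⟨z, mem_union_right _ hz, hdisj z hz⟩
  omega

end
end LemA

/-- TASK LEMA -/
theorem lemA {S A : Type} [Fintype S] [DecidableEq S] [Fintype A] [DecidableEq A] (tail head : A → S)
    (hout : ∀ z, (univ.filter (fun a => tail a = z)).card = 2)
    (hin : ∀ z, (univ.filter (fun a => head a = z)).card = 2)
    (hloop : ∀ a, tail a ≠ head a) (al be : A → Fin 3)
    (hbe : ∀ a a', a ≠ a' → head a = head a' → be a ≠ be a') :
    ∃ (f : S → A) (p : S → Fin 3) (h : A → Fin 3), (∀ z, tail (f z) = z) ∧ (∀ z, p z ≠ al (f z)) ∧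
      (∀ a, h a ≠ be a) ∧ (∀ a, h a ≠ p (head a)) ∧ (∀ a a', a ≠ a' → head a = head a' → h a ≠ h a') ∧
      (∀ z, h (f z) ≠ p z) := by
  obtain ⟨oth, hoth⟩ := LemA.exists_oth head hin
  have hbe' : ∀ a, be a ≠ be (oth a) := fun a => hbe a (oth a) (hoth a).1.symm (hoth a).2.1.symm
  obtain ⟨f, p, hfp⟩ := LemA.exists_full tail head hout hin hloop al be oth hoth hbe'
  refine ⟨f, p, fun a => LemA.hcol (be a) (be (oth a)) (p (head a)), ?_, ?_, ?_, ?_, ?_, ?_⟩
  · exact fun z => (hfp z (mem_univ _)).1
  · exact fun z => (hfp z (mem_univ _)).2.2.1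
  · exact fun a => LemA.hcol_ne_left _ _ _ (hbe' a)
  · exact fun a => LemA.hcol_ne_q _ _ _ (hbe' a)
  · intro a a' hne hh
    have e1 : a' = oth a := ((hoth a).2.2 a' hh.symm).resolve_left (fun h => hne h.symm)
    have e2 : a = oth a' := ((hoth a').2.2 a hh).resolve_left hne
    show LemA.hcol (be a) (be (oth a)) (p (head a)) ≠ LemA.hcol (be a') (be (oth a')) (p (head a'))
    rw [← e1, ← e2, ← hh]
    exact LemA.hcol_ne_hcol _ _ _ (by rw [e1]; exact hbe' a)
  · exact fun z => (hfp z (mem_univ _)).2.2.2.symm

end S4C
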