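import Pool.Agent.LibS4C.H7
import Pool.Agent.LibS4C.Ext
import Pool.Agent.LibS4C.LemA
set_option autoImplicit false
set_option linter.unusedSectionVars false
namespace S4C
open Finset

variable {V : Type} [Fintype V] [DecidableEq V]

namespace Cfg
variable {σ : Equiv.Perm V} {b : V → ℕ} (C : Cfg σ b)

/-- head of a special of the stuck set -/
def hd (a : V) : V := if b (σ a) ∈ C.S then σ a else σ⁻¹ a
/-- other neighbour of the special -/
def ot (a : V) : V := if b (σ a) ∈ C.S then σ⁻¹ a else σ a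
/-- outer neighbour of the head -/
def oo (a : V) : V := if b (σ a) ∈ C.S then σ (σ a) else σ⁻¹ (σ⁻¹ a)

theorem hd_same (a : V) : σ.SameCycle a (C.hd a) := by
  unfold hd; split
  · exact ⟨1, by simp⟩
  · exact ⟨-1, by simp⟩

theorem ot_same (a : V) : σ.SameCycle a (C.ot a) := by
  unfold ot; split
  · exact ⟨-1, by simp⟩
  · exact ⟨1, by simp⟩

theorem oo_same (a : V) : σ.SameCycle a (C.oo a) := by
  unfold oo; split
  · exact Equiv.Perm.SameCycle.trans (y := σ a) ⟨1, by simp⟩ ⟨1, by simp⟩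
  · exact Equiv.Perm.SameCycle.trans (y := σ⁻¹ a) ⟨-1, by simp⟩ ⟨-1, by simp⟩

theorem hd_mem {a : V} (ha : a ∈ C.Sp) (haS : b a ∈ C.S) : b (C.hd a) ∈ C.S := by
  unfold hd; split
  · assumption
  · rename_i h
    exact (C.Sc a ha haS).resolve_left h

theorem hd_notSp {a : V} (ha : a ∈ C.Sp) : C.hd a ∉ C.Sp := by
  unfold hd; split
  · exact C.sigma_notMem ha
  · exact C.sigma_inv_notMem ha

theorem ot_notSp {a : V} (ha : a ∈ C.Sp) : C.ot a ∉ C.Sp := by
  unfold ot; split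
  · exact C.sigma_inv_notMem ha
  · exact C.sigma_notMem ha

theorem hd_ne_ot {a : V} (ha : a ∈ C.Sp) : C.hd a ≠ C.ot a := by
  unfold hd ot; split
  · exact C.sigma_ne_inv ha
  · exact (C.sigma_ne_inv ha).symm

theorem oo_ne {a : V} (ha : a ∈ C.Sp) : C.oo a ≠ a := by
  unfold oo; split
  · exact (C.st.cyc a ha).2
  · intro h
    apply (C.st.cyc a ha).2
    conv_lhs => rw [← h]
    simp

theorem oo_notSp {a : V} (ha : a ∈ C.Sp) : C.oo a ∉ C.Sp := by
  intro h
  exact C.oo_ne ha (C.st.dist a ha _ h (C.oo_same a)).symm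

theorem oo_ne_hd {a : V} (ha : a ∈ C.Sp) : C.oo a ≠ C.hd a := by
  unfold oo hd; split
  · intro h
    exact C.sigma_ne ha (σ.injective h)
  · intro h
    exact C.sigma_inv_ne ha ((σ⁻¹).injective h)

theorem hd_adj {a : V} (ha : a ∈ C.Sp) : (gr σ).Adj a (C.hd a) := by
  rw [gr_adj_iff]
  unfold hd; split
  · exact ⟨(C.sigma_ne ha).symm, Or.inl rfl⟩
  · exact ⟨(C.sigma_inv_ne ha).symm, Or.inr rfl⟩

theorem oo_adj {a : V} (ha : a ∈ C.Sp) : (gr σ).Adj (C.hd a) (C.oo a) := by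
  rw [gr_adj_iff]
  refine ⟨(C.oo_ne_hd ha).symm, ?_⟩
  unfold hd oo; split
  · exact Or.inl rfl
  · exact Or.inr rfl

/-- neighbours of a special -/
theorem nb_special {a w : V} (h : (gr σ).Adj a w) : w = C.hd a ∨ w = C.ot a := by
  unfold hd ot
  rcases gr_adj h with h | h <;> split <;> simp_all

/-- neighbours of a head -/
theorem nb_head {a w : V} (h : (gr σ).Adj (C.hd a) w) : w = a ∨ w = C.oo a := by
  have := gr_adj h
  unfold hd at this
  unfold oo
  split at this
  · rcases this with h | h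
    · right; simp_all
    · left; simp_all
  · rcases this with h | h
    · left; simp_all
    · right; simp_all

/-- the specials of the stuck set -/
def SA : Finset V := C.Sp.filter (fun a => b a ∈ C.S)
/-- the heads of the stuck set -/
def SH : Finset V := univ.filter (fun v => v ∉ C.Sp ∧ b v ∈ C.S)

theorem card_SA : C.SA.card = 2 * C.S.card := by
  have h : ∀ x ∈ C.SA, b x ∈ C.S := fun x hx => (mem_filter.mp hx).2
  rw [card_eq_sum_card_fiberwise (f := b) (t := C.S) h]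
  rw [sum_congr rfl (g := fun _ => 2)]
  · simp [mul_comm]
  · intro z hz
    have h2 := (mem_filter.mp (C.SD hz)).2
    rw [← h2]
    unfold mult SA
    rw [filter_filter]
    congr 1
    ext a
    simp only [mem_filter]
    constructor
    · rintro ⟨h1, h2, h3⟩; exact ⟨h1, h3⟩
    · rintro ⟨h1, h3⟩; exact ⟨h1, h3 ▸ hz, h3⟩

theorem card_SH : C.SH.card = 2 * C.S.card := by
  have h : ∀ x ∈ C.SH, b x ∈ C.S := fun x hx => (mem_filter.mp hx).2.2
  rw [card_eq_sum_card_fiberwise (f := b) (t := C.S) h]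
  rw [sum_congr rfl (g := fun _ => 2)]
  · simp [mul_comm]
  · intro z hz
    have hzD := C.SD hz
    have : C.SH.filter (fun a => b a = z) = {C.e1 z, C.e2 z} := by
      ext v
      simp only [mem_filter, mem_insert, mem_singleton]
      rw [C.he z hzD v]
      constructor
      · rintro ⟨h1, h2⟩
        exact ⟨h2, (mem_filter.mp h1).2.1⟩
      · rintro ⟨h1, h2⟩
        exact ⟨mem_filter.mpr ⟨mem_univ _, h2, h1 ▸ hz⟩, h1⟩
    rw [this, card_pair (C.hne z hzD)]

theorem hd_inj {a a' : V} (ha : a ∈ C.Sp) (ha' : a' ∈ C.Sp) (h : C.hd a = C.hd a') : a = a' := by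
  apply C.st.dist a ha a' ha'
  exact (C.hd_same a).trans (h ▸ (C.hd_same a').symm)

theorem hd_surj {v : V} (hv : v ∉ C.Sp) (hvS : b v ∈ C.S) : ∃ a ∈ C.Sp, b a ∈ C.S ∧ C.hd a = v := by
  have himg : C.SA.image C.hd = C.SH := by
    apply eq_of_subset_of_card_le
    · intro x hx
      obtain ⟨a, ha, rfl⟩ := mem_image.mp hx
      obtain ⟨ha1, ha2⟩ := mem_filter.mp ha
      exact mem_filter.mpr ⟨mem_univ _, C.hd_notSp ha1, C.hd_mem ha1 ha2⟩
    · rw [card_image_of_injOn, C.card_SA, C.card_SH]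
      intro a ha a' ha' h
      exact C.hd_inj (mem_filter.mp (mem_coe.mp ha)).1 (mem_filter.mp (mem_coe.mp ha')).1 h
  have : v ∈ C.SA.image C.hd := by
    rw [himg]; exact mem_filter.mpr ⟨mem_univ _, hv, hvS⟩
  obtain ⟨a, ha, rfl⟩ := mem_image.mp this
  exact ⟨a, (mem_filter.mp ha).1, (mem_filter.mp ha).2, rfl⟩

theorem ot_notS {a : V} (ha : a ∈ C.Sp) : b (C.ot a) ∉ C.S := by
  intro h
  obtain ⟨a', ha', _, h'⟩ := C.hd_surj (C.ot_notSp ha) h
  have : a = a' := C.st.dist a ha a' ha' ((C.ot_same a).trans (h' ▸ (C.hd_same a').symm))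
  subst this
  exact C.hd_ne_ot ha h'

theorem oo_notS {a : V} (ha : a ∈ C.Sp) : b (C.oo a) ∉ C.S := by
  intro h
  obtain ⟨a', ha', _, h'⟩ := C.hd_surj (C.oo_notSp ha) h
  have : a = a' := C.st.dist a ha a' ha' ((C.oo_same a).trans (h' ▸ (C.hd_same a').symm))
  subst this
  exact C.oo_ne_hd ha h'.symm

theorem not_T_of_same {a w : V} (ha : a ∈ C.Sp) (hw : σ.SameCycle a w) (hne : w ∉ C.Sp) : w ∉ C.T := by
  intro h
  exact hne (C.T_cyc ha hw h ▸ ha)

theorem T_notS {v : V} (hv : v ∈ C.T) : b v ∉ C.S := by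
  rcases mem_union.mp hv with h | h
  · exact fun hS => C.T1R v h (C.D_sub_R (C.S_sub_D hS))
  · exact (mem_filter.mp h).2.1

/-- the doubles that are not stuck -/
def D' : Finset ℕ := C.D \ C.S

theorem D'_sub : C.D' ⊆ C.D := sdiff_subset

theorem D'_union : C.D' ∪ C.S = C.D := by
  unfold D'
  exact sdiff_union_of_subset C.SD

theorem mem_D' {z : ℕ} : z ∈ C.D' ↔ z ∈ C.D ∧ z ∉ C.S := mem_sdiff

/-- the vertices coloured by `ext` -/
def Ce : Finset V := C.U ∪ (C.D'.image C.t ∪ (C.D'.image C.e1 ∪ C.D'.image C.e2))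

theorem mem_Ce {v : V} (h1 : v ∉ C.T) (h2 : b v ∉ C.S) : v ∈ C.Ce := by
  by_cases hD : b v ∈ C.D
  · have hD' : b v ∈ C.D' := C.mem_D'.mpr ⟨hD, h2⟩
    by_cases hSp : v ∈ C.Sp
    · have : v = C.t (b v) := by
        by_contra hne
        exact h1 (mem_union.mpr (Or.inr (mem_filter.mpr ⟨hSp, h2, fun _ => hne⟩)))
      refine mem_union.mpr (Or.inr (mem_union.mpr (Or.inl (mem_image.mpr ⟨b v, hD', this.symm⟩))))
    · exact mem_union.mpr (Or.inr (mem_union.mpr (Or.inr ((C.mem_End C.D'_sub v).mpr ⟨hD', hSp⟩))))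
  · exact mem_union.mpr (Or.inl (C.mem_U h1 hD))

theorem mem_Ce' {v : V} (h0 : v ∉ C.Sp) (h1 : v ∉ C.T) (h2 : b v ∉ C.S) :
    v ∈ C.U ∪ (C.D'.image C.e1 ∪ C.D'.image C.e2) := by
  by_cases hD : b v ∈ C.D
  · have hD' : b v ∈ C.D' := C.mem_D'.mpr ⟨hD, h2⟩
    exact mem_union.mpr (Or.inr ((C.mem_End C.D'_sub v).mpr ⟨hD', h0⟩))
  · exact mem_union.mpr (Or.inl (C.mem_U h1 hD))

/-- membership in `U ∪ End` -/
theorem mem_UE {x : V} (hx : x ∈ C.U ∪ ((C.D' ∪ C.S).image C.e1 ∪ (C.D' ∪ C.S).image C.e2)) : x ∉ C.Sp := by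
  rw [C.D'_union] at hx
  rcases mem_union.mp hx with h | h
  · exact C.U_notSp h
  · exact ((C.mem_End (le_refl _) x).mp h).2

theorem mem_E {x : V} (hx : x ∈ (C.D' ∪ C.S).image C.e1 ∪ (C.D' ∪ C.S).image C.e2) : b x ∈ C.D ∧ x ∉ C.Sp := by
  rw [C.D'_union] at hx
  exact (C.mem_End (le_refl _) x).mp hx

theorem tt' {z : ℕ} (hz : z ∈ C.D') : C.t z ∈ C.Sp ∧ b (C.t z) = z :=
  ⟨(C.tt z (C.mem_D'.mp hz).1 (C.mem_D'.mp hz).2).1, (C.tt z (C.mem_D'.mp hz).1 (C.mem_D'.mp hz).2).2.1⟩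

/-- output of the peeling lemma -/
theorem extC : ∃ c : V → Fin 3,
      (∀ v ∈ C.Ce, ∀ w ∈ C.Ce, (gr σ).Adj v w → c v ≠ c w) ∧
      (∀ v ∈ C.Ce, ∀ w ∈ C.Ce, v ≠ w → b v = b w → c v ≠ c w) ∧
      (∀ z ∈ C.S, ∀ p ∈ C.U ∪ (C.D'.image C.e1 ∪ C.D'.image C.e2), ∀ q ∈ C.U ∪ (C.D'.image C.e1 ∪ C.D'.image C.e2),
        (gr σ).Adj (C.e1 z) p → (gr σ).Adj (C.e2 z) q → c p ≠ c q) := by
  have hzD : ∀ z ∈ C.D' ∪ C.S, z ∈ C.D := by intro z hz; rw [C.D'_union] at hz; exact hz
  refine ext b C.U C.D' C.S C.t C.e1 C.e2 C.r (gr σ) sdiff_disjoint ?_ ?_ ?_ ?_ ?_ ?_ ?_ ?_ ?_ ?_ ?_ ?_ ?_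
  · intro z hz
    exact ((C.he z (hzD z hz) _).mp (Or.inl rfl)).1
  · intro z hz
    exact ((C.he z (hzD z hz) _).mp (Or.inr rfl)).1
  · intro z hz
    exact C.hne z (hzD z hz)
  · intro z hz
    exact (C.tt' hz).2
  · intro z hz h
    exact ((C.he z (C.D'_sub hz) _).mp (Or.inl rfl)).2 (h ▸ (C.tt' hz).1)
  · intro z hz h
    exact ((C.he z (C.D'_sub hz) _).mp (Or.inr rfl)).2 (h ▸ (C.tt' hz).1)
  · intro v hv h
    exact C.U_notD hv (hzD _ h)
  · intro e he x hx y hy hex hey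
    exact C.h4 (C.mem_E he).1 (C.mem_E he).2 (C.mem_UE hx) (C.mem_UE hy) hex hey
  · intro q hq x hx y hy hqx hqy
    exact C.h5 (C.U_notSp hq) (C.U_notD hq) (C.mem_E hx).1 (C.mem_E hx).2 (C.mem_E hy).1 (C.mem_E hy).2 hqx hqy
  · intro z hz x _ y _ w _ hx hy hw
    exact gr_two hx hy hw
  · intro z hz x hx hzx
    obtain ⟨_, _, h1, h2⟩ := C.tt z (C.mem_D'.mp hz).1 (C.mem_D'.mp hz).2
    have hxD := (C.mem_E hx).1
    rcases gr_adj hzx with h | h
    · subst h
      exact ⟨C.mem_D'.mpr ⟨hxD, (h1 hxD).1⟩, (h1 hxD).2⟩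
    · subst h
      exact ⟨C.mem_D'.mpr ⟨hxD, (h2 hxD).1⟩, (h2 hxD).2⟩
  · intro z hz z' hz' h
    exact h.1 (C.st.dist _ (C.tt' hz).1 _ (C.tt' hz').1 (gr_sameCycle h))
  · intro N hN1 hN2
    refine C.h7 N hN1 ?_
    intro v x hvx
    obtain ⟨h1, e, he, h2⟩ := hN2 v x hvx
    exact ⟨h1, e, C.mem_E he, h2⟩

theorem T_inj {v w : V} (hv : v ∈ C.T) (hw : w ∈ C.T) (h : b v = b w) : v = w := by
  rcases mem_union.mp hv with h1 | h1 <;> rcases mem_union.mp hw with h2 | h2
  · exact C.T1i v h1 w h2 h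
  · exact absurd (h ▸ C.st.inR w (mem_filter.mp h2).1 w (Equiv.Perm.SameCycle.refl _ _)) (C.T1R v h1)
  · exact absurd (h ▸ C.st.inR v (mem_filter.mp h1).1 v (Equiv.Perm.SameCycle.refl _ _)) (C.T1R w h2)
  · obtain ⟨hv1, hv2, hv3⟩ := mem_filter.mp h1
    obtain ⟨hw1, hw2, hw3⟩ := mem_filter.mp h2
    by_contra hne
    have hR : b v ∈ C.R := C.st.inR v hv1 v (Equiv.Perm.SameCycle.refl _ _)
    have hsub : ({v, w} : Finset V) ⊆ C.Sp.filter (fun a => b a = b v) := by
      intro x hx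
      rcases mem_insert.mp hx with rfl | hx
      · exact mem_filter.mpr ⟨hv1, rfl⟩
      · rw [mem_singleton.mp hx]; exact mem_filter.mpr ⟨hw1, h.symm⟩
    have h2le : 2 ≤ mult b C.Sp (b v) := by
      have := card_le_card hsub
      rwa [card_pair hne] at this
    have h2eq : mult b C.Sp (b v) = 2 := le_antisymm (C.st.two _ hR) h2le
    have hD : b v ∈ C.D := mem_filter.mpr ⟨hR, h2eq⟩
    obtain ⟨t1, t2, _⟩ := C.tt (b v) hD hv2
    have hvt := hv3 hD
    have hwt := hw3 (h ▸ hD)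
    rw [← h] at hwt
    have hsub3 : ({v, w, C.t (b v)} : Finset V) ⊆ C.Sp.filter (fun a => b a = b v) := by
      intro x hx
      rcases mem_insert.mp hx with rfl | hx
      · exact mem_filter.mpr ⟨hv1, rfl⟩
      · rcases mem_insert.mp hx with rfl | hx
        · exact mem_filter.mpr ⟨hw1, h.symm⟩
        · rw [mem_singleton.mp hx]; exact mem_filter.mpr ⟨t1, t2⟩
    have h3 := card_le_card hsub3
    rw [card_eq_three.mpr ⟨v, w, C.t (b v), hne, hvt, hwt, rfl⟩] at h3
    have h3' : 3 ≤ mult b C.Sp (b v) := h3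
    omega

theorem T_indep {v w : V} (hv : v ∈ C.T) (hw : w ∈ C.T) : ¬ (gr σ).Adj v w := by
  intro h
  rcases mem_union.mp hv with h1 | h1 
  · rcases mem_union.mp hw with h2 | h2
    · rcases gr_adj h with h' | h'
      · subst h'; exact C.T1s v h1 h.1.symm h2
      · subst h'
        apply C.T1s _ h2
        · simpa using h.1
        · simpa using h1
    · exact h.1 (C.T_cyc (mem_filter.mp h2).1 (gr_sameCycle h).symm hv)
  · exact h.1.symm (C.T_cyc (mem_filter.mp h1).1 (gr_sameCycle h) hw)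

include C in
theorem final : Col4 σ b := by
  classical
  obtain ⟨c, hc1, hc2, hc3⟩ := C.extC
  -- lemma A
  let A := {a : V // a ∈ C.Sp ∧ b a ∈ C.S}
  let Z := {z : ℕ // z ∈ C.S}
  let tail : A → Z := fun a => ⟨b a.1, a.2.2⟩
  let head : A → Z := fun a => ⟨b (C.hd a.1), C.hd_mem a.2.1 a.2.2⟩
  have hout : ∀ z : Z, (univ.filter (fun a : A => tail a = z)).card = 2 := by
    intro z
    have h2 := (mem_filter.mp (C.SD z.2)).2
    rw [← h2]
    unfold mult
    refine card_bij (fun a _ => a.1) ?_ ?_ ?_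
    · intro a ha
      have := congrArg Subtype.val (mem_filter.mp ha).2
      exact mem_filter.mpr ⟨a.2.1, this⟩
    · intro a _ a' _ h; exact Subtype.ext h
    · intro v hv
      obtain ⟨h3, h4⟩ := mem_filter.mp hv
      exact ⟨⟨v, h3, h4 ▸ z.2⟩, mem_filter.mpr ⟨mem_univ _, Subtype.ext h4⟩, rfl⟩
  have hin : ∀ z : Z, (univ.filter (fun a : A => head a = z)).card = 2 := by
    intro z
    have hzD := C.SD z.2
    rw [← card_pair (C.hne z.1 hzD)]
    refine card_bij (fun a _ => C.hd a.1) ?_ ?_ ?_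
    · intro a ha
      have h := congrArg Subtype.val (mem_filter.mp ha).2
      rcases (C.he z.1 hzD (C.hd a.1)).mpr ⟨h, C.hd_notSp a.2.1⟩ with h | h
      · rw [h]; simp
      · rw [h]; simp
    · intro a _ a' _ h; exact Subtype.ext (C.hd_inj a.2.1 a'.2.1 h)
    · intro v hv
      have hv' : v = C.e1 z.1 ∨ v = C.e2 z.1 := by simpa using hv
      obtain ⟨h1, h2⟩ := (C.he z.1 hzD v).mp hv'
      obtain ⟨a, ha, haS, hav⟩ := C.hd_surj h2 (h1 ▸ z.2)
      exact ⟨⟨a, ha, haS⟩, mem_filter.mpr ⟨mem_univ _, Subtype.ext (by rw [← h1, ← hav])⟩, hav⟩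
  have hloop : ∀ a : A, tail a ≠ head a := by
    intro a h
    have h' : b a.1 = b (C.hd a.1) := congrArg Subtype.val h
    have hadj := C.hd_adj a.2.1
    rcases gr_adj hadj with h2 | h2
    · rw [h2] at h'
      exact (C.hrc a.1).1 (C.sigma_ne a.2.1) h'.symm
    · rw [h2] at h'
      have := (C.hrc (σ⁻¹ a.1)).1 (by simpa using (C.sigma_inv_ne a.2.1).symm)
      apply this
      simpa using h'
  -- e1 / e2 analysis of two different arcs with the same head
  have hee : ∀ a a' : A, a ≠ a' → head a = head a' → c (C.oo a.1) ≠ c (C.oo a'.1) := by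
    intro a a' hne hh
    have hzS : b (C.hd a.1) ∈ C.S := C.hd_mem a.2.1 a.2.2
    have hzD := C.SD hzS
    have hb' : b (C.hd a'.1) = b (C.hd a.1) := (congrArg Subtype.val hh).symm
    have h1 := (C.he _ hzD (C.hd a.1)).mpr ⟨rfl, C.hd_notSp a.2.1⟩
    have h2 := (C.he _ hzD (C.hd a'.1)).mpr ⟨hb', C.hd_notSp a'.2.1⟩
    have hne' : C.hd a.1 ≠ C.hd a'.1 := fun h => hne (Subtype.ext (C.hd_inj a.2.1 a'.2.1 h))
    have hm : ∀ x : A, C.oo x.1 ∈ C.U ∪ (C.D'.image C.e1 ∪ C.D'.image C.e2) := by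
      intro x
      exact C.mem_Ce' (C.oo_notSp x.2.1) (C.not_T_of_same x.2.1 (C.oo_same x.1) (C.oo_notSp x.2.1)) (C.oo_notS x.2.1)
    rcases h1 with h1 | h1 <;> rcases h2 with h2 | h2
    · exact absurd (h1.trans h2.symm) hne'
    · exact hc3 _ hzS _ (hm a) _ (hm a') (h1 ▸ C.oo_adj a.2.1) (h2 ▸ C.oo_adj a'.2.1)
    · exact (hc3 _ hzS _ (hm a') _ (hm a) (h2 ▸ C.oo_adj a'.2.1) (h1 ▸ C.oo_adj a.2.1)).symm
    · exact absurd (h1.trans h2.symm) hne'
  obtain ⟨f, p, h, hf, hp, hh1, hh2, hh3, hh4⟩ := lemA tail head hout hin hloop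
    (fun a => c (C.ot a.1)) (fun a => c (C.oo a.1)) hee
  -- the arc of a head
  have harc : ∀ v, v ∉ C.Sp → b v ∈ C.S → ∃ a : A, C.hd a.1 = v := by
    intro v h1 h2
    obtain ⟨a, ha, haS, hav⟩ := C.hd_surj h1 h2
    exact ⟨⟨a, ha, haS⟩, hav⟩
  -- colour functions
  let colS : V → Fin 4 := fun v =>
    if hS : b v ∈ C.S then
      (if hv : v ∈ C.Sp then (if (f ⟨b v, hS⟩).1 = v then (p ⟨b v, hS⟩).castSucc else 3)
        else (h (harc v hv hS).choose).castSucc)
    else if v ∈ C.T then 3 else (c v).castSucc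
  have c1a : ∀ a : A, f (tail a) = a → colS a.1 = (p (tail a)).castSucc := by
    intro a ha
    simp only [colS, a.2.2, a.2.1, dif_pos]
    rw [if_pos]
    show (f (tail a)).1 = a.1
    rw [ha]
  have c1b : ∀ a : A, f (tail a) ≠ a → colS a.1 = 3 := by
    intro a ha
    simp only [colS, a.2.2, a.2.1, dif_pos]
    rw [if_neg]
    intro h
    exact ha (Subtype.ext h)
  have c2 : ∀ a : A, colS (C.hd a.1) = (h a).castSucc := by
    intro a
    simp only [colS, C.hd_mem a.2.1 a.2.2, C.hd_notSp a.2.1, dif_pos, dif_neg, not_false_eq_true]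
    have hs := (harc (C.hd a.1) (C.hd_notSp a.2.1) (C.hd_mem a.2.1 a.2.2)).choose_spec
    congr 2
    exact Subtype.ext (C.hd_inj (harc (C.hd a.1) (C.hd_notSp a.2.1) (C.hd_mem a.2.1 a.2.2)).choose.2.1 a.2.1 hs)
  have c3 : ∀ v, b v ∉ C.S → v ∈ C.T → colS v = 3 := by
    intro v h1 h2
    simp only [colS, h1, h2, dif_neg, not_false_eq_true, if_true]
  have c4 : ∀ v, b v ∉ C.S → v ∉ C.T → colS v = (c v).castSucc := by
    intro v h1 h2
    simp only [colS, h1, h2, dif_neg, not_false_eq_true, if_false]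
  have h3c : ∀ x : Fin 3, x.castSucc ≠ (3 : Fin 4) := by decide
  have hcs : ∀ x y : Fin 3, x ≠ y → x.castSucc ≠ y.castSucc := by decide
  -- classification
  have hcls : ∀ v : V, (∃ a : A, a.1 = v) ∨ (∃ a : A, C.hd a.1 = v) ∨ (b v ∉ C.S ∧ v ∈ C.T) ∨ (b v ∉ C.S ∧ v ∉ C.T) := by
    intro v
    by_cases hS : b v ∈ C.S
    · by_cases hSp : v ∈ C.Sp
      · exact Or.inl ⟨⟨v, hSp, hS⟩, rfl⟩
      · exact Or.inr (Or.inl (harc v hSp hS))
    · by_cases hT : v ∈ C.T
      · exact Or.inr (Or.inr (Or.inl ⟨hS, hT⟩))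
      · exact Or.inr (Or.inr (Or.inr ⟨hS, hT⟩))
  have hptail : ∀ a : A, f (tail a) = a → p (tail a) ≠ c (C.ot a.1) := by
    intro a ha
    have := hp (tail a)
    rwa [ha] at this
  -- adjacency, ordered by class
  have adj_rule : ∀ v w, (gr σ).Adj v w → colS v ≠ colS w := by
    -- half of the cases
    have key : ∀ v w, (gr σ).Adj v w →
        ((∃ a : A, a.1 = v) ∨ ((∃ a : A, C.hd a.1 = v) ∧ ¬ (∃ a : A, a.1 = w)) ∨
          ((b v ∉ C.S ∧ v ∈ C.T) ∧ b w ∉ C.S) ∨ ((b v ∉ C.S ∧ v ∉ C.T) ∧ (b w ∉ C.S ∧ w ∉ C.T))) → colS v ≠ colS w := by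
      intro v w hvw hcase
      rcases hcase with ⟨a, rfl⟩ | ⟨⟨a, rfl⟩, hw⟩ | ⟨⟨hvS, hvT⟩, hwS⟩ | ⟨⟨hvS, hvT⟩, hwS, hwT⟩
      · -- special of the stuck set
        rcases hcls w with ⟨a', rfl⟩ | ⟨a', rfl⟩ | ⟨hwS, hwT⟩ | ⟨hwS, hwT⟩
        · exact absurd (C.st.dist _ a.2.1 _ a'.2.1 (gr_sameCycle hvw)) hvw.1
        · have haa : a = a' := Subtype.ext (C.st.dist _ a.2.1 _ a'.2.1 ((gr_sameCycle hvw).trans (C.hd_same _).symm))
          subst haa
          rw [c2]
          by_cases ha : f (tail a) = a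
          · rw [c1a a ha]
            apply hcs
            intro hpe
            have := hh4 (tail a)
            rw [ha] at this
            exact this hpe.symm
          · rw [c1b a ha]; exact (h3c _).symm
        · exact absurd (C.T_cyc a.2.1 (gr_sameCycle hvw) hwT) hvw.1.symm
        · rcases C.nb_special hvw with rfl | rfl
          · exact absurd (C.hd_mem a.2.1 a.2.2) hwS
          · rw [c4 _ hwS hwT]
            by_cases ha : f (tail a) = a
            · rw [c1a a ha]; exact hcs _ _ (hptail a ha)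
            · rw [c1b a ha]; exact (h3c _).symm
      · -- head
        rcases C.nb_head hvw with rfl | rfl
        · exact absurd ⟨a, rfl⟩ hw
        · have h1 := C.oo_notS a.2.1
          have h2 := C.not_T_of_same a.2.1 (C.oo_same a.1) (C.oo_notSp a.2.1)
          rw [c2, c4 _ h1 h2]
          exact hcs _ _ (hh1 a)
      · rw [c3 v hvS hvT]
        by_cases hwT : w ∈ C.T
        · exact absurd hvw (C.T_indep hvT hwT)
        · rw [c4 w hwS hwT]; exact (h3c _).symm
      · rw [c4 v hvS hvT, c4 w hwS hwT]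
        exact hcs _ _ (hc1 v (C.mem_Ce hvT hvS) w (C.mem_Ce hwT hwS) hvw)
    intro v w hvw
    rcases hcls v with hv | hv | hv | hv
    · exact key v w hvw (Or.inl hv)
    · by_cases hw : ∃ a : A, a.1 = w
      · exact (key w v hvw.symm (Or.inl hw)).symm
      · exact key v w hvw (Or.inr (Or.inl ⟨hv, hw⟩))
    · rcases hcls w with hw | hw | hw | hw
      · exact (key w v hvw.symm (Or.inl hw)).symm
      · refine (key w v hvw.symm (Or.inr (Or.inl ⟨hw, ?_⟩))).symm
        rintro ⟨a, rfl⟩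
        exact hv.1 a.2.2
      · exact key v w hvw (Or.inr (Or.inr (Or.inl ⟨hv, hw.1⟩)))
      · exact key v w hvw (Or.inr (Or.inr (Or.inl ⟨hv, hw.1⟩)))
    · rcases hcls w with hw | hw | hw | hw
      · exact (key w v hvw.symm (Or.inl hw)).symm
      · refine (key w v hvw.symm (Or.inr (Or.inl ⟨hw, ?_⟩))).symm
        rintro ⟨a, rfl⟩
        exact hv.1 a.2.2
      · exact (key w v hvw.symm (Or.inr (Or.inr (Or.inl ⟨hw, hv.1⟩)))).symm
      · exact key v w hvw (Or.inr (Or.inr (Or.inr ⟨hv, hw⟩)))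
  refine ⟨colS, ?_, ?_⟩
  · intro v hv
    exact adj_rule (σ v) v ⟨hv, Or.inr rfl⟩
  · intro v w hne hbb
    by_cases hS : b v ∈ C.S
    · have hSw : b w ∈ C.S := hbb ▸ hS
      -- helper: special / head
      have sh : ∀ a a' : A, b a.1 = b (C.hd a'.1) → colS a.1 ≠ colS (C.hd a'.1) := by
        intro a a' hab
        rw [c2]
        by_cases ha : f (tail a) = a
        · rw [c1a a ha]
          apply hcs
          have h2 := hh2 a'
          have hth : head a' = tail a := Subtype.ext hab.symm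
          rw [hth] at h2
          exact h2.symm
        · rw [c1b a ha]; exact (h3c _).symm
      rcases hcls v with ⟨a, rfl⟩ | ⟨a, rfl⟩ | hv | hv
      · rcases hcls w with ⟨a', rfl⟩ | ⟨a', rfl⟩ | hw | hw
        · -- two specials in the same block
          have htt : tail a = tail a' := Subtype.ext hbb
          by_cases ha : f (tail a) = a
          · have ha' : f (tail a') ≠ a' := by
              rw [← htt, ha]; exact fun h => hne (congrArg Subtype.val h)
            rw [c1a a ha, c1b a' ha']; exact h3c _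
          · by_cases ha' : f (tail a') = a'
            · rw [c1b a ha, c1a a' ha']; exact (h3c _).symm
            · exfalso
              have h2 := hout (tail a)
              have hsub : ({a, a', f (tail a)} : Finset A) ⊆ univ.filter (fun x : A => tail x = tail a) := by
                intro x hx
                rcases mem_insert.mp hx with rfl | hx
                · simp
                · rcases mem_insert.mp hx with rfl | hx
                  · simp [htt]
                  · rw [mem_singleton.mp hx]; simp [hf]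
              have h3 := card_le_card hsub
              rw [h2, card_eq_three.mpr ⟨a, a', f (tail a), fun h => hne (congrArg Subtype.val h), Ne.symm ha,
                by rw [htt]; exact Ne.symm ha', rfl⟩] at h3
              omega
        · exact sh a a' hbb
        · exact absurd hSw hw.1
        · exact absurd hSw hw.1
      · rcases hcls w with ⟨a', rfl⟩ | ⟨a', rfl⟩ | hw | hw
        · exact (sh a' a hbb.symm).symm
        · rw [c2, c2]
          apply hcs
          apply hh3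
          · rintro rfl; exact hne rfl
          · exact Subtype.ext hbb
        · exact absurd hSw hw.1
        · exact absurd hSw hw.1
      · exact absurd hS hv.1
      · exact absurd hS hv.1
    · have hSw : b w ∉ C.S := hbb ▸ hS
      by_cases hv : v ∈ C.T
      · by_cases hw : w ∈ C.T
        · exact absurd (C.T_inj hv hw hbb) hne
        · rw [c3 v hS hv, c4 w hSw hw]; exact (h3c _).symm
      · by_cases hw : w ∈ C.T
        · rw [c4 v hS hv, c3 w hSw hw]; exact h3c _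
        · rw [c4 v hS hv, c4 w hSw hw]
          exact hcs _ _ (hc2 v (C.mem_Ce hv hS) w (C.mem_Ce hw hSw) hne hbb)

end Cfg
end S4C
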