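import Pool.Agent.LibS4C.Cfg
import Pool.Agent.LibS4C.FS
set_option autoImplicit false
set_option linter.unusedSectionVars false
namespace S4C
open Finset

variable {V : Type} [Fintype V] [DecidableEq V]

theorem closed_cycle (τ : Equiv.Perm V) (W : Finset V) (v0 : V) (h0 : v0 ∈ W)
    (h : ∀ w ∈ W, τ.SameCycle v0 w → τ w ∈ W) (m : V) (hm : τ.SameCycle v0 m) : m ∈ W := by
  obtain ⟨i, _, hi⟩ := hm.exists_pow_eq'
  have : ∀ j : ℕ, (τ ^ j) v0 ∈ W := by
    intro j
    induction j with
    | zero => simpa using h0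
    | succ j ih =>
      rw [pow_succ', Equiv.Perm.mul_apply]
      exact h _ ih ⟨j, by simp⟩
  rw [← hi]; exact this i

theorem gr_two {σ : Equiv.Perm V} {v x y z : V} (hx : (gr σ).Adj v x) (hy : (gr σ).Adj v y) (hz : (gr σ).Adj v z) :
    x = y ∨ y = z ∨ x = z := by
  rcases gr_adj hx with h1 | h1 <;> rcases gr_adj hy with h2 | h2 <;> rcases gr_adj hz with h3 | h3 <;>
    simp_all

namespace Cfg
variable {σ : Equiv.Perm V} {b : V → ℕ} (C : Cfg σ b)

theorem U_nb_unique {v e x y : V} (he : b e ∈ C.D) (hve : (gr σ).Adj v e) (hx : x ∈ C.U) (hy : y ∈ C.U)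
    (hvx : (gr σ).Adj v x) (hvy : (gr σ).Adj v y) : x = y := by
  rcases gr_two hvx hvy hve with h | h | h
  · exact h
  · subst h; exact absurd he (C.U_notD hy)
  · subst h; exact absurd he (C.U_notD hx)

theorem end_unique {x y q : V} (hx1 : b x ∈ C.D) (hx2 : x ∉ C.Sp) (hy1 : b y ∈ C.D) (hy2 : y ∉ C.Sp)
    (hxy : σ.SameCycle x y) (hq : q ∉ C.Sp) (hqD : b q ∉ C.D) (hxq : (gr σ).Adj q x) : x = y := by
  by_contra hne
  obtain ⟨a, ha, hxa, h⟩ := C.special_of_end hx1 hx2
  obtain ⟨a', ha', hya, h'⟩ := C.special_of_end hy1 hy2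
  have haa : a = a' := C.st.dist a ha a' ha' ((hxa.symm.trans hxy).trans hya)
  subst haa
  have hab : (x = σ a ∧ y = σ⁻¹ a) ∨ (x = σ⁻¹ a ∧ y = σ a) := by
    rcases h with h | h <;> rcases h' with h' | h'
    · exact absurd (h.trans h'.symm) hne
    · exact Or.inl ⟨h, h'⟩
    · exact Or.inr ⟨h, h'⟩
    · exact absurd (h.trans h'.symm) hne
  have hD2 : b (σ a) ∈ C.D ∧ b (σ⁻¹ a) ∈ C.D := by
    rcases hab with ⟨rfl, rfl⟩ | ⟨rfl, rfl⟩
    · exact ⟨hx1, hy1⟩
    · exact ⟨hy1, hx1⟩
  have h3 : σ (σ (σ a)) = a := by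
    by_contra h3
    exact C.v2 a ha h3 hD2
  have h3' : σ (σ a) = σ⁻¹ a := by
    conv_rhs => rw [← h3]
    simp
  have hq3 : q = a ∨ q = σ a ∨ q = σ⁻¹ a := by
    rcases gr_adj hxq.symm with hh | hh <;> rcases h with h | h
    · right; right; rw [hh, h, h3']
    · left; rw [hh, h]; simp
    · left; rw [hh, h]; simp
    · right; left
      rw [hh, h]
      apply σ.injective
      apply σ.injective
      simp [h3]
  rcases hq3 with rfl | rfl | rfl
  · exact hq ha
  · exact hqD hD2.1
  · exact hqD hD2.2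

theorem cyc3_of_same {a v : V} (ha : Cyc3 σ a) (h : σ.SameCycle a v) : Cyc3 σ v := by
  obtain ⟨i, rfl⟩ := h
  have e1 : ∀ x, (σ ^ i) (σ x) = σ ((σ ^ i) x) := by
    intro x
    rw [← Equiv.Perm.mul_apply, ← Equiv.Perm.mul_apply, ← zpow_add_one, ← zpow_one_add, add_comm]
  constructor
  · intro h
    apply ha.1
    have h2 : (σ ^ i) (σ a) = (σ ^ i) a := by
      rw [e1, h]
    exact (σ ^ i).injective h2
  · intro h
    apply ha.2
    have h2 : (σ ^ i) (σ (σ a)) = (σ ^ i) a := by
      rw [e1, e1, h]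
    exact (σ ^ i).injective h2

/-- each cycle of length at least 3 has a vertex outside `U` -/
theorem exists_notU {v : V} (hv : Cyc3 σ v) : ∃ m, σ.SameCycle v m ∧ m ∉ C.U := by
  rcases C.hcov v hv with ⟨a, ha, h⟩ | ⟨a, ha, h⟩
  · exact ⟨a, h, fun hU => C.U_notSp hU ha⟩
  · obtain ⟨t, ht, h'⟩ := C.T1h a ha
    exact ⟨t, h.trans h', fun hU => C.U_notT hU (mem_union.mpr (Or.inl ht))⟩

theorem T_block {v : V} (hv : b v ∉ C.D) : ∃ t ∈ C.T, b t = b v := by
  by_cases hR : b v ∈ C.R
  · have h1 := C.st.one (b v) hR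
    obtain ⟨a, ha⟩ := card_pos.mp h1
    obtain ⟨ha, hab⟩ := mem_filter.mp ha
    refine ⟨a, mem_union.mpr (Or.inr (mem_filter.mpr ⟨ha, ?_, ?_⟩)), hab⟩
    · rw [hab]; exact fun h => hv (C.S_sub_D h)
    · rw [hab]; exact fun h => absurd h hv
  · obtain ⟨t, ht, h⟩ := C.T1b v hR
    exact ⟨t, mem_union.mpr (Or.inl ht), h⟩

theorem h7 (N : SimpleGraph V) (hN1 : ∀ v x y, N.Adj v x → N.Adj v y → x = y)
    (hN2 : ∀ v x, N.Adj v x → v ∈ C.U ∧ ∃ e, (b e ∈ C.D ∧ e ∉ C.Sp) ∧ (gr σ).Adj v e) :
    ∃ c : V → Fin 3, (∀ v ∈ C.U, ∀ w ∈ C.U, ((gr σ).Adj v w ∨ N.Adj v w) → c v ≠ c w) ∧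
        (∀ v ∈ C.U, ∀ w ∈ C.U, v ≠ w → b v = b w → c v ≠ c w) := by
  classical
  refine FS (gr σ ⊔ N) C.U b ?_ ?_ ?_
  · -- degrees
    intro v hv x hx y hy z hz hvx hvy hvz
    rcases hvx with hvx | hvx
    · rcases hvy with hvy | hvy
      · rcases hvz with hvz | hvz
        · exact gr_two hvx hvy hvz
        · obtain ⟨_, e, he, hve⟩ := hN2 v z hvz
          exact Or.inl (C.U_nb_unique he.1 hve hx hy hvx hvy)
      · obtain ⟨_, e, he, hve⟩ := hN2 v y hvy
        rcases hvz with hvz | hvz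
        · exact Or.inr (Or.inr (C.U_nb_unique he.1 hve hx hz hvx hvz))
        · exact Or.inr (Or.inl (hN1 v y z hvy hvz))
    · obtain ⟨_, e, he, hve⟩ := hN2 v x hvx
      rcases hvy with hvy | hvy
      · rcases hvz with hvz | hvz
        · exact Or.inr (Or.inl (C.U_nb_unique he.1 hve hy hz hvy hvz))
        · exact Or.inr (Or.inr (hN1 v x z hvx hvz))
      · exact Or.inl (hN1 v x y hvx hvy)
  · -- acyclicity
    intro W hWU hWn
    by_contra hcon
    push Not at hcon
    have hcon' : ∀ v ∈ W, ∃ x ∈ W, ∃ y ∈ W, (gr σ ⊔ N).Adj v x ∧ (gr σ ⊔ N).Adj v y ∧ x ≠ y := hcon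
    obtain ⟨v0, hv0⟩ := hWn
    -- vertices without N-neighbour have both neighbours in W
    have hboth : ∀ v ∈ W, (∀ x, ¬ N.Adj v x) → σ v ∈ W ∧ σ⁻¹ v ∈ W ∧ Cyc3 σ v := by
      intro v hv hN
      obtain ⟨x, hx, y, hy, hvx, hvy, hxy⟩ := hcon' v hv
      have hvx' : (gr σ).Adj v x := hvx.resolve_right (hN x)
      have hvy' : (gr σ).Adj v y := hvy.resolve_right (hN y)
      rcases gr_adj hvx' with h1 | h1 <;> rcases gr_adj hvy' with h2 | h2
      · exact absurd (h1.trans h2.symm) hxy
      · refine ⟨h1 ▸ hx, h2 ▸ hy, ?_, ?_⟩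
        · rw [← h1]; exact hvx'.1.symm
        · intro h
          apply hxy
          rw [h1, h2]
          rw [Equiv.Perm.eq_inv_iff_eq]
          exact h
      · refine ⟨h2 ▸ hy, h1 ▸ hx, ?_, ?_⟩
        · rw [← h2]; exact hvy'.1.symm
        · intro h
          apply hxy
          rw [h1, h2]
          symm
          rw [Equiv.Perm.eq_inv_iff_eq]
          exact h
      · exact absurd (h1.trans h2.symm) hxy
    by_cases hq : ∃ q ∈ W, σ.SameCycle v0 q ∧ ∃ x, N.Adj q x
    · obtain ⟨q, hqW, hq0, x0, hqx0⟩ := hq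
      obtain ⟨hqU, e, he, hqe⟩ := hN2 q x0 hqx0
      obtain ⟨a, ha, hea, _⟩ := C.special_of_end he.1 he.2
      -- direction
      have hdir : ∀ τ : Equiv.Perm V, (τ = σ ∨ τ = σ⁻¹) → e = τ⁻¹ q → False := by
        intro τ hτ heq
        have hSC : ∀ u v, τ.SameCycle u v ↔ σ.SameCycle u v := by
          intro u v
          rcases hτ with rfl | rfl
          · rfl
          · exact Equiv.Perm.sameCycle_inv
        have hcl : ∀ w ∈ W, τ.SameCycle q w → τ w ∈ W := by
          intro w hw hqw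
          by_cases hN : ∃ y, N.Adj w y
          · obtain ⟨y0, hy0⟩ := hN
            obtain ⟨hwU, e', he', hwe'⟩ := hN2 w y0 hy0
            have hee : e = e' := by
              refine C.end_unique he.1 he.2 he'.1 he'.2 ?_ (C.U_notSp hqU) (C.U_notD hqU) hqe
              exact ((gr_sameCycle hqe).symm.trans ((hSC q w).mp hqw)).trans (gr_sameCycle hwe')
            subst hee
            have hwq : w = q := C.h4 he.1 he.2 (C.U_notSp hwU) (C.U_notSp hqU) hwe'.symm hqe.symm
            subst hwq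
            obtain ⟨x, hx, y, hy, hvx, hvy, hxy⟩ := hcon' w hw
            have hone : ∀ z ∈ W, (gr σ).Adj w z → z = τ w := by
              intro z hz hwz
              have hz' : z = τ w ∨ z = τ⁻¹ w := by
                rcases hτ with rfl | rfl
                · exact gr_adj hwz
                · rcases gr_adj hwz with h | h
                  · right; simpa using h
                  · left; exact h
              rcases hz' with h | h
              · exact h
              · exfalso
                rw [← heq] at h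
                subst h
                exact C.U_notD (hWU hz) he.1
            rcases hvx with hvx | hvx
            · rw [← hone x hx hvx]; exact hx
            · rcases hvy with hvy | hvy
              · rw [← hone y hy hvy]; exact hy
              · exact absurd (hN1 w x y hvx hvy) hxy
          · push Not at hN
            obtain ⟨h1, h2, _⟩ := hboth w hw hN
            rcases hτ with rfl | rfl
            · exact h1
            · exact h2
        have haq : τ.SameCycle q a := (hSC q a).mpr ((gr_sameCycle hqe).trans hea)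
        have := closed_cycle τ W q hqW hcl a haq
        exact C.U_notSp (hWU this) ha
      rcases gr_adj hqe with h | h
      · exact hdir σ⁻¹ (Or.inr rfl) (by simpa using h)
      · exact hdir σ (Or.inl rfl) h
    · push Not at hq
      have hcl : ∀ w ∈ W, σ.SameCycle v0 w → σ w ∈ W := by
        intro w hw hqw
        exact (hboth w hw (hq w hw hqw)).1
      have hc3 : Cyc3 σ v0 := (hboth v0 hv0 (hq v0 hv0 (Equiv.Perm.SameCycle.refl _ _))).2.2
      obtain ⟨m, hm, hmU⟩ := C.exists_notU hc3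
      exact hmU (hWU (closed_cycle σ W v0 hv0 hcl m hm))
  · intro v hv
    obtain ⟨t, ht, htb⟩ := C.T_block (C.U_notD hv)
    have h4 := C.hb v
    have hsub : C.U.filter (fun w => b w = b v) ⊆ (univ.filter (fun w => b w = b v)).erase t := by
      intro w hw
      obtain ⟨hwU, hwb⟩ := mem_filter.mp hw
      refine mem_erase.mpr ⟨?_, mem_filter.mpr ⟨mem_univ _, hwb⟩⟩
      rintro rfl
      exact C.U_notT hwU ht
    refine (card_le_card hsub).trans ?_
    have h5 : t ∈ univ.filter (fun w => b w = b v) := mem_filter.mpr ⟨mem_univ _, htb⟩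
    rw [card_erase_of_mem h5, h4]

end Cfg
end S4C
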