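import Pool.Agent.LibS4C.Defs
set_option autoImplicit false
/-! TASK IT: independent transversal of the outside blocks hitting all the cycles of `SpO`. -/
namespace S4C
open Finset

/-- graph of a permutation -/
def permG {V : Type} (σ : Equiv.Perm V) : SimpleGraph V where
  Adj v w := v ≠ w ∧ (σ v = w ∨ σ w = v)
  symm := ⟨fun _ _ h => ⟨h.1.symm, h.2.symm⟩⟩
  loopless := ⟨fun _ h => h.1 rfl⟩

/-- the existence part, from a 3-colouring of the remaining vertices -/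
theorem it_exists {V : Type} [Fintype V] [DecidableEq V] (σ : Equiv.Perm V) (b : V → ℕ) (hb : Fib4 b)
    (hFS : ∀ (G : SimpleGraph V) (U : Finset V)
      (_ : ∀ v ∈ U, ∀ x ∈ U, ∀ y ∈ U, ∀ z ∈ U, G.Adj v x → G.Adj v y → G.Adj v z → x = y ∨ y = z ∨ x = z)
      (_ : ∀ W : Finset V, W ⊆ U → W.Nonempty →
        ∃ v ∈ W, ∀ x ∈ W, ∀ y ∈ W, G.Adj v x → G.Adj v y → x = y)
      (_ : ∀ v ∈ U, (U.filter (fun w => b w = b v)).card ≤ 3),
      ∃ c : V → Fin 3, (∀ v ∈ U, ∀ w ∈ U, G.Adj v w → c v ≠ c w) ∧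
        (∀ v ∈ U, ∀ w ∈ U, v ≠ w → b v = b w → c v ≠ c w))
    (R : Finset ℕ) (SpO : Finset V)
    (hinj : ∀ a ∈ SpO, ∀ a' ∈ SpO, b a = b a' → a = a')
    (hcov : ∀ v, Cyc3 σ v → (∀ w, σ.SameCycle v w → b w ∉ R) → ∃ a ∈ SpO, σ.SameCycle v a) :
    ∃ T : Finset V, (∀ v ∈ T, b v ∉ R) ∧ (∀ v, b v ∉ R → ∃ t ∈ T, b t = b v) ∧
      (∀ t ∈ T, ∀ t' ∈ T, b t = b t' → t = t') ∧
      (∀ t ∈ T, σ t ≠ t → σ t ∉ T) := by
  classical
  -- representative to delete in each block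
  have hd : ∀ v : V, ∃ d : V, b d = b v ∧ (∀ a ∈ SpO, b a = b v → a = d) := by
    intro v
    by_cases h : ∃ a ∈ SpO, b a = b v
    · obtain ⟨a, ha, hav⟩ := h
      exact ⟨a, hav, fun a' ha' h' => hinj a' ha' a ha (h'.trans hav.symm)⟩
    · push Not at h
      exact ⟨v, rfl, fun a ha hav => absurd hav (h a ha)⟩
  -- a function of the block
  have hd' : ∃ D : ℕ → V → Prop, (∀ v, ∃ d, b d = b v ∧ D (b v) d ∧ (∀ x, b x = b v → D (b v) x → x = d)) ∧
      (∀ a ∈ SpO, D (b a) a) := by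
    choose d hd1 hd2 using hd
    -- choose one vertex for each block value
    have : ∀ y : ℕ, (∃ v, b v = y) → ∃ v, b v = y := fun y h => h
    choose rep hrep using this
    refine ⟨fun y x => ∃ h : ∃ v, b v = y, x = d (rep y h), ?_, ?_⟩
    · intro v
      have hv : ∃ v', b v' = b v := ⟨v, rfl⟩
      refine ⟨d (rep (b v) hv), (hd1 _).trans (hrep _ hv), ⟨hv, rfl⟩, ?_⟩
      rintro x _ ⟨h, hx⟩
      exact hx
    · intro a ha
      have hv : ∃ v', b v' = b a := ⟨a, rfl⟩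
      exact ⟨hv, hd2 _ a ha (hrep _ hv).symm⟩
  obtain ⟨D, hD, hDS⟩ := hd'
  set U : Finset V := univ.filter (fun v => b v ∉ R ∧ ¬ D (b v) v) with hUdef
  have hmemU : ∀ v, v ∈ U ↔ b v ∉ R ∧ ¬ D (b v) v := by
    intro v; simp [hUdef]
  -- block sizes
  have hcard : ∀ v, b v ∉ R → (U.filter (fun w => b w = b v)).card = 3 := by
    intro v hv
    obtain ⟨d, hd1, hd2, hd3⟩ := hD v
    have : U.filter (fun w => b w = b v) = (univ.filter (fun w => b w = b v)).erase d := by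
      ext w
      simp only [mem_filter, hmemU, mem_erase, mem_univ, true_and]
      constructor
      · rintro ⟨⟨h1, h2⟩, h3⟩
        refine ⟨?_, h3⟩
        rintro rfl
        rw [h3] at h2
        exact h2 hd2
      · rintro ⟨h1, h2⟩
        refine ⟨⟨by rw [h2]; exact hv, ?_⟩, h2⟩
        intro h3
        rw [h2] at h3
        exact h1 (hd3 w h2 h3)
    rw [this, card_erase_of_mem (by simp [hd1]), hb v]
  obtain ⟨c, hc1, hc2⟩ := hFS (permG σ) U (by
      intro v _ x _ y _ z _ hx hy hz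
      have key : ∀ x, (permG σ).Adj v x → x = σ v ∨ x = σ⁻¹ v := by
        rintro x ⟨h1, h2 | h2⟩
        · exact Or.inl h2.symm
        · right; rw [← h2]; simp
      rcases key x hx with h1 | h1 <;> rcases key y hy with h2 | h2 <;> rcases key z hz with h3 | h3 <;>
        simp [h1, h2, h3]) (by
      intro W hWU hW
      by_contra hcon
      push Not at hcon
      have hstep : ∀ v ∈ W, σ v ∈ W ∧ Cyc3 σ v := by
        intro v hv
        obtain ⟨x, hx, y, hy, hvx, hvy, hxy⟩ := hcon v hv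
        have key : ∀ x, (permG σ).Adj v x → x = σ v ∨ x = σ⁻¹ v := by
          rintro x ⟨h1, h2 | h2⟩
          · exact Or.inl h2.symm
          · right; rw [← h2]; simp
        have hne : ∀ x, (permG σ).Adj v x → v ≠ x := fun x h => h.1
        have hcyc : ∀ x y, x = σ v → y = σ⁻¹ v → v ≠ x → x ≠ y → Cyc3 σ v := by
          intro x y hx hy h1 h2
          refine ⟨fun h => h1 (by rw [hx, h]), fun h => h2 ?_⟩
          rw [hx, hy]
          rw [Equiv.Perm.eq_inv_iff_eq]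
          exact h
        rcases key x hvx with h1 | h1 <;> rcases key y hvy with h2 | h2
        · exact absurd (h1.trans h2.symm) hxy
        · exact ⟨h1 ▸ hx, hcyc x y h1 h2 (hne x hvx) hxy⟩
        · exact ⟨h2 ▸ hy, hcyc y x h2 h1 (hne y hvy) (Ne.symm hxy)⟩
        · exact absurd (h1.trans h2.symm) hxy
      obtain ⟨v, hv⟩ := hW
      have hpow : ∀ n : ℕ, ((σ ^ n : Equiv.Perm V)) v ∈ W := by
        intro n
        induction n with
        | zero => simpa using hv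
        | succ n ih =>
          rw [pow_succ', Equiv.Perm.mul_apply]
          exact (hstep _ ih).1
      have hall : ∀ w, σ.SameCycle v w → w ∈ W := by
        intro w hw
        obtain ⟨n, _, hn⟩ := Equiv.Perm.SameCycle.exists_pow_eq' hw
        rw [← hn]
        exact hpow n
      obtain ⟨a, ha, hva⟩ := hcov v (hstep v hv).2 (fun w hw => ((hmemU w).1 (hWU (hall w hw))).1)
      exact ((hmemU a).1 (hWU (hall a hva))).2 (hDS a ha)) (by
      intro v hv
      exact (hcard v ((hmemU v).1 hv).1).le)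
  refine ⟨U.filter (fun v => c v = 0), ?_, ?_, ?_, ?_⟩
  · intro v hv
    exact ((hmemU v).1 (mem_filter.1 hv).1).1
  · intro v hv
    have h3 := hcard v hv
    have himg : (U.filter (fun w => b w = b v)).image c = univ := by
      apply eq_univ_of_card
      rw [card_image_of_injOn, h3]
      · rfl
      · intro x hx y hy hxy
        simp only [coe_filter, Set.mem_ofPred_eq] at hx hy
        by_contra hne
        exact hc2 x hx.1 y hy.1 hne (hx.2.trans hy.2.symm) hxy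
    have h0 : (0 : Fin 3) ∈ (U.filter (fun w => b w = b v)).image c := by rw [himg]; exact mem_univ _
    obtain ⟨t, ht, ht0⟩ := mem_image.1 h0
    rw [mem_filter] at ht
    exact ⟨t, mem_filter.2 ⟨ht.1, ht0⟩, ht.2⟩
  · intro t ht t' ht' h
    by_contra hne
    rw [mem_filter] at ht ht'
    exact hc2 t ht.1 t' ht'.1 hne h (ht.2.trans ht'.2.symm)
  · intro t ht hσ ht'
    rw [mem_filter] at ht ht'
    exact hc1 t ht.1 (σ t) ht'.1 ⟨Ne.symm hσ, Or.inl rfl⟩ (ht.2.trans ht'.2.symm)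

/-- the swap lemma -/
theorem it_swap {V : Type} [Fintype V] [DecidableEq V] (σ : Equiv.Perm V) (b : V → ℕ)
    (R : Finset ℕ) (SpO : Finset V) (hO : ∀ a ∈ SpO, b a ∉ R)
    (hinj : ∀ a ∈ SpO, ∀ a' ∈ SpO, b a = b a' → a = a')
    (hex : ∃ T : Finset V, (∀ v ∈ T, b v ∉ R) ∧ (∀ v, b v ∉ R → ∃ t ∈ T, b t = b v) ∧
      (∀ t ∈ T, ∀ t' ∈ T, b t = b t' → t = t') ∧
      (∀ t ∈ T, σ t ≠ t → σ t ∉ T)) :
    ∃ T : Finset V, (∀ v ∈ T, b v ∉ R) ∧ (∀ v, b v ∉ R → ∃ t ∈ T, b t = b v) ∧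
      (∀ t ∈ T, ∀ t' ∈ T, b t = b t' → t = t') ∧
      (∀ t ∈ T, σ t ≠ t → σ t ∉ T) ∧ (∀ a ∈ SpO, ∃ t ∈ T, σ.SameCycle a t) := by
  classical
  let P : Finset V → Prop := fun T => (∀ v ∈ T, b v ∉ R) ∧ (∀ v, b v ∉ R → ∃ t ∈ T, b t = b v) ∧
      (∀ t ∈ T, ∀ t' ∈ T, b t = b t' → t = t') ∧ (∀ t ∈ T, σ t ≠ t → σ t ∉ T)
  obtain ⟨T0, hT0⟩ := hex
  have hne : ((univ : Finset (Finset V)).filter P).Nonempty := ⟨T0, by
    rw [mem_filter]; exact ⟨mem_univ _, hT0⟩⟩
  obtain ⟨T, hT, hmax⟩ := exists_max_image _ (fun T => (T ∩ SpO).card) hne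
  rw [mem_filter] at hT
  obtain ⟨_, h1, h2, h3, h4⟩ := hT
  refine ⟨T, h1, h2, h3, h4, ?_⟩
  by_contra hcon
  push Not at hcon
  obtain ⟨a, ha, hun⟩ := hcon
  obtain ⟨t0, ht0, hbt0⟩ := h2 a (hO a ha)
  have haT : a ∉ T := fun h => hun a h (Equiv.Perm.SameCycle.refl σ a)
  have ht0S : t0 ∉ SpO := fun h => haT (by rw [hinj a ha t0 h hbt0.symm]; exact ht0)
  have hne0 : t0 ≠ a := fun h => haT (h ▸ ht0)
  set T' : Finset V := insert a (T.erase t0) with hT'
  have hmem : ∀ v, v ∈ T' ↔ v = a ∨ (v ≠ t0 ∧ v ∈ T) := by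
    intro v; simp [hT']
  have hP : P T' := by
    refine ⟨?_, ?_, ?_, ?_⟩
    · intro v hv
      rcases (hmem v).1 hv with rfl | hv
      · exact hO v ha
      · exact h1 v hv.2
    · intro v hv
      obtain ⟨t, ht, htv⟩ := h2 v hv
      by_cases h : t = t0
      · exact ⟨a, (hmem a).2 (Or.inl rfl), by rw [← htv, h, hbt0]⟩
      · exact ⟨t, (hmem t).2 (Or.inr ⟨h, ht⟩), htv⟩
    · intro t ht t' ht' h
      rcases (hmem t).1 ht with rfl | ht1 <;> rcases (hmem t').1 ht' with rfl | ht2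
      · rfl
      · exact absurd (h3 t' ht2.2 t0 ht0 (h.symm.trans hbt0.symm)) ht2.1
      · exact absurd (h3 t ht1.2 t0 ht0 (h.trans hbt0.symm)) ht1.1
      · exact h3 t ht1.2 t' ht2.2 h
    · intro t ht hσ ht'
      rcases (hmem t).1 ht with rfl | ht1 <;> rcases (hmem (σ t)).1 ht' with h5 | ht2
      · exact hσ h5
      · exact hun _ ht2.2 (Equiv.Perm.sameCycle_apply_right.2 (Equiv.Perm.SameCycle.refl σ t))
      · exact hun t ht1.2 (by
          rw [← h5]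
          exact Equiv.Perm.sameCycle_apply_left.2 (Equiv.Perm.SameCycle.refl σ t))
      · exact h4 t ht1.2 hσ ht2.2
  have hle := hmax T' (by rw [mem_filter]; exact ⟨mem_univ _, hP⟩)
  have hlt : (T ∩ SpO).card < (T' ∩ SpO).card := by
    have : insert a (T ∩ SpO) ⊆ T' ∩ SpO := by
      intro v hv
      rw [mem_insert] at hv
      rcases hv with rfl | hv
      · exact mem_inter.2 ⟨(hmem v).2 (Or.inl rfl), ha⟩
      · rw [mem_inter] at hv
        refine mem_inter.2 ⟨(hmem v).2 (Or.inr ⟨?_, hv.1⟩), hv.2⟩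
        rintro rfl
        exact ht0S hv.2
    have h5 := card_le_card this
    rw [card_insert_of_notMem (fun h => haT (mem_inter.1 h).1)] at h5
    omega
  exact absurd hle (not_le.2 hlt)

/-- TASK IT, with the Fleischner-Stiebitz statement as a hypothesis. -/
theorem outsideIT_of_FS {V : Type} [Fintype V] [DecidableEq V] (σ : Equiv.Perm V) (b : V → ℕ) (hb : Fib4 b)
    (hFS : ∀ (G : SimpleGraph V) (U : Finset V)
      (_ : ∀ v ∈ U, ∀ x ∈ U, ∀ y ∈ U, ∀ z ∈ U, G.Adj v x → G.Adj v y → G.Adj v z → x = y ∨ y = z ∨ x = z)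
      (_ : ∀ W : Finset V, W ⊆ U → W.Nonempty →
        ∃ v ∈ W, ∀ x ∈ W, ∀ y ∈ W, G.Adj v x → G.Adj v y → x = y)
      (_ : ∀ v ∈ U, (U.filter (fun w => b w = b v)).card ≤ 3),
      ∃ c : V → Fin 3, (∀ v ∈ U, ∀ w ∈ U, G.Adj v w → c v ≠ c w) ∧
        (∀ v ∈ U, ∀ w ∈ U, v ≠ w → b v = b w → c v ≠ c w))
    (R : Finset ℕ) (SpO : Finset V) (hO : ∀ a ∈ SpO, b a ∉ R)
    (hinj : ∀ a ∈ SpO, ∀ a' ∈ SpO, b a = b a' → a = a')
    (hcov : ∀ v, Cyc3 σ v → (∀ w, σ.SameCycle v w → b w ∉ R) → ∃ a ∈ SpO, σ.SameCycle v a) :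
    ∃ T : Finset V, (∀ v ∈ T, b v ∉ R) ∧ (∀ v, b v ∉ R → ∃ t ∈ T, b t = b v) ∧
      (∀ t ∈ T, ∀ t' ∈ T, b t = b t' → t = t') ∧
      (∀ t ∈ T, σ t ≠ t → σ t ∉ T) ∧ (∀ a ∈ SpO, ∃ t ∈ T, σ.SameCycle a t) :=
  it_swap σ b R SpO hO hinj (it_exists σ b hb hFS R SpO hinj hcov)

end S4C
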