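import Pool.Agent.LibS4C.Defs
set_option autoImplicit false
set_option linter.unusedSectionVars false
/-! Key lemma (section 3 of the notes): the potential `Θ` can be made zero. -/
namespace S4C
open Finset

variable {V : Type} [Fintype V] [DecidableEq V]

lemma bool_ne {s t : Bool} (h : s ≠ t) : s = !t := by
  revert s t; decide

lemma bool_not {s t : Bool} (h : s = !t) : t = !s := by
  revert s t; decide

/-- one step in direction `s` -/
def stp (σ : Equiv.Perm V) (s : Bool) : Equiv.Perm V := if s then σ else σ⁻¹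

lemma stp_not (σ : Equiv.Perm V) (s : Bool) : stp σ (!s) = (stp σ s)⁻¹ := by
  cases s <;> simp [stp]

lemma stp_not_stp (σ : Equiv.Perm V) (s : Bool) (v : V) : stp σ (!s) (stp σ s v) = v := by
  rw [stp_not]; simp

lemma stp_stp_not (σ : Equiv.Perm V) (s : Bool) (v : V) : stp σ s (stp σ (!s) v) = v := by
  rw [stp_not]; simp

lemma same_stp (σ : Equiv.Perm V) (s : Bool) (v : V) : σ.SameCycle v (stp σ s v) := by
  cases s
  · exact ⟨-1, by simp [stp]⟩
  · exact ⟨1, by simp [stp]⟩

lemma stp_ne {σ : Equiv.Perm V} {v : V} (h : Cyc3 σ v) (s : Bool) : stp σ s v ≠ v := by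
  cases s
  · simp only [stp, Bool.false_eq_true, if_false]
    intro h1
    exact h.1 (Equiv.Perm.inv_eq_iff_eq.mp h1).symm
  · simpa [stp] using h.1

lemma stp2_ne {σ : Equiv.Perm V} {v : V} (h : Cyc3 σ v) (s : Bool) : stp σ s (stp σ s v) ≠ v := by
  cases s
  · simp only [stp, Bool.false_eq_true, if_false]
    intro h1
    have h2 : σ⁻¹ v = σ v := Equiv.Perm.inv_eq_iff_eq.mp h1
    exact h.2 (Equiv.Perm.inv_eq_iff_eq.mp h2).symm
  · simpa [stp] using h.2

lemma stp_ne_not {σ : Equiv.Perm V} {v : V} (h : Cyc3 σ v) (s : Bool) :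
    stp σ s v ≠ stp σ (!s) v := by
  intro h1
  have h2 := congrArg (stp σ s) h1
  rw [stp_stp_not] at h2
  exact stp2_ne h s h2

lemma tri_iff {σ : Equiv.Perm V} {v : V} (s : Bool) :
    stp σ s (stp σ s (stp σ s v)) = v ↔ σ (σ (σ v)) = v := by
  cases s
  · simp only [stp, Bool.false_eq_true, if_false]
    rw [Equiv.Perm.inv_eq_iff_eq, Equiv.Perm.inv_eq_iff_eq, Equiv.Perm.inv_eq_iff_eq]
    exact eq_comm
  · simp [stp]

lemma RC.one {σ : Equiv.Perm V} {b : V → ℕ} (hrc : RC σ b) {v : V} (s : Bool)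
    (h : stp σ s v ≠ v) : b (stp σ s v) ≠ b v := by
  cases s
  · simp only [stp, Bool.false_eq_true, if_false] at h ⊢
    have h1 := (hrc (σ⁻¹ v)).1
    have e : σ (σ⁻¹ v) = v := by simp
    rw [e] at h1
    exact (h1 h.symm).symm
  · simp only [stp, if_true] at h ⊢
    exact (hrc v).1 h

lemma RC.two {σ : Equiv.Perm V} {b : V → ℕ} (hrc : RC σ b) {v : V} (s : Bool)
    (h : stp σ s (stp σ s v) ≠ v) : b (stp σ s (stp σ s v)) ≠ b v := by
  cases s
  · simp only [stp, Bool.false_eq_true, if_false] at h ⊢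
    have h1 := (hrc (σ⁻¹ (σ⁻¹ v))).2
    have e : σ (σ (σ⁻¹ (σ⁻¹ v))) = v := by simp
    rw [e] at h1
    exact (h1 h.symm).symm
  · simp only [stp, if_true] at h ⊢
    exact (hrc v).2 h

/-- the set of bad vertices -/
def badV (σ : Equiv.Perm V) (b : V → ℕ) (R : Finset ℕ) (Sp : Finset V) : Finset V :=
  univ.filter (fun w => b w ∈ dbl b R Sp ∧ w ∉ Sp ∧ ∀ s, stp σ s w ∉ Sp)

/-- the set of double ends -/
def dendV (σ : Equiv.Perm V) (b : V → ℕ) (R : Finset ℕ) (Sp : Finset V) : Finset V :=
  Sp.filter (fun a => σ (σ (σ a)) ≠ a ∧ ∀ s, b (stp σ s a) ∈ dbl b R Sp)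

/-- the potential -/
def Theta (σ : Equiv.Perm V) (b : V → ℕ) (R : Finset ℕ) (Sp : Finset V) : ℕ :=
  (badV σ b R Sp).card + (dendV σ b R Sp).card

/-- the shift of `a` in direction `s` is dangerous (not allowed) -/
def Dang (σ : Equiv.Perm V) (b : V → ℕ) (D : Finset ℕ) (a : V) (s : Bool) : Prop :=
  σ (σ (σ a)) ≠ a ∧ b (stp σ (!s) a) ∈ D

/-- arcs: allowed shifts -/
def Arc (σ : Equiv.Perm V) (b : V → ℕ) (R : Finset ℕ) (Sp : Finset V) (y y' : ℕ) : Prop :=
  ∃ a ∈ Sp, ∃ s, b a = y ∧ ¬ Dang σ b (dbl b R Sp) a s ∧ b (stp σ s a) = y'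

/-- targets -/
structure Target (σ : Equiv.Perm V) (b : V → ℕ) (R : Finset ℕ) (Sp : Finset V) (y : ℕ) : Prop where
  inR : y ∈ R
  notD : y ∉ dbl b R Sp
  clean : ∀ w, b w = y → w ∈ Sp ∨ ∃ s, stp σ s w ∈ Sp
  safe : ∀ a ∈ Sp, ∀ s, b (stp σ s a) = y → ¬ Dang σ b (dbl b R Sp) a s

section basic
variable {σ : Equiv.Perm V} {b : V → ℕ} {R : Finset ℕ} {Sp : Finset V}

lemma State.stp_not_mem (hS : State σ b R Sp) {a : V} (ha : a ∈ Sp) (s : Bool) :
    stp σ s a ∉ Sp := by
  intro h
  exact stp_ne (hS.cyc a ha) s (hS.dist a ha _ h (same_stp σ s a)).symm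

lemma State.inj (hS : State σ b R Sp) {a a' : V} (ha : a ∈ Sp) (ha' : a' ∈ Sp) {s s' : Bool}
    (h : stp σ s a = stp σ s' a') : a = a' ∧ s = s' := by
  have h1 : a = a' := by
    apply hS.dist a ha a' ha'
    have h2 := same_stp σ s a
    rw [h] at h2
    exact h2.trans (same_stp σ s' a').symm
  subst h1
  refine ⟨rfl, ?_⟩
  by_contra hne
  have h3 : s' = !s := bool_ne (fun h => hne h.symm)
  rw [h3] at h
  exact stp_ne_not (hS.cyc a ha) s h

/-- number of endpoints in the block `y` -/
def nn (σ : Equiv.Perm V) (b : V → ℕ) (Sp : Finset V) (y : ℕ) : ℕ :=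
  ((Sp ×ˢ (univ : Finset Bool)).filter (fun p => b (stp σ p.2 p.1) = y)).card

/-- number of unclean vertices in the block `y` -/
def rest (σ : Equiv.Perm V) (b : V → ℕ) (Sp : Finset V) (y : ℕ) : ℕ :=
  (univ.filter (fun w => b w = y ∧ w ∉ Sp ∧ ∀ s, stp σ s w ∉ Sp)).card

lemma block_count (hb : Fib4 b) (hS : State σ b R Sp) {y : ℕ} (hy : y ∈ R) :
    mult b Sp y + nn σ b Sp y + rest σ b Sp y = 4 := by
  classical
  have h1 := hS.one y hy
  obtain ⟨v, hv⟩ := card_pos.mp (show 0 < (Sp.filter (fun a => b a = y)).card from h1)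
  have hbv : b v = y := (mem_filter.mp hv).2
  have h4 := hb v
  rw [hbv] at h4
  have hnn : nn σ b Sp y = (univ.filter (fun w => b w = y ∧ w ∉ Sp ∧ ∃ s, stp σ s w ∈ Sp)).card := by
    unfold nn
    apply card_bij (fun p _ => stp σ p.2 p.1)
    · rintro ⟨a, s⟩ hp
      simp only [mem_filter, mem_product, mem_univ, and_true, true_and] at hp ⊢
      refine ⟨hp.2, hS.stp_not_mem hp.1 s, !s, ?_⟩
      rw [stp_not_stp]
      exact hp.1
    · rintro ⟨a, s⟩ hp ⟨a', s'⟩ hp' h
      simp only [mem_filter, mem_product, mem_univ, and_true] at hp hp'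
      obtain ⟨h5, h6⟩ := hS.inj hp.1 hp'.1 h
      exact Prod.ext h5 h6
    · intro w hw
      simp only [mem_filter, mem_univ, true_and] at hw
      obtain ⟨hw1, hw2, s, hs⟩ := hw
      refine ⟨(stp σ s w, !s), ?_, ?_⟩
      · simp only [mem_filter, mem_product, mem_univ, and_true]
        refine ⟨hs, ?_⟩
        rw [stp_not_stp]
        exact hw1
      · simp only
        rw [stp_not_stp]
  have hm : mult b Sp y = (univ.filter (fun w => b w = y ∧ w ∈ Sp)).card := by
    unfold mult
    congr 1
    ext w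
    simp [and_comm]
  rw [hnn, hm]
  unfold rest
  rw [← h4]
  have e1 : (univ.filter (fun w => b w = y)) = (univ.filter (fun w => b w = y ∧ w ∈ Sp)) ∪
      ((univ.filter (fun w => b w = y ∧ w ∉ Sp ∧ ∃ s, stp σ s w ∈ Sp)) ∪
        (univ.filter (fun w => b w = y ∧ w ∉ Sp ∧ ∀ s, stp σ s w ∉ Sp))) := by
    ext w
    simp only [mem_filter, mem_univ, true_and, mem_union]
    constructor
    · intro h
      by_cases h5 : w ∈ Sp
      · exact Or.inl ⟨h, h5⟩
      · right
        by_cases h6 : ∃ s, stp σ s w ∈ Sp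
        · exact Or.inl ⟨h, h5, h6⟩
        · push Not at h6
          exact Or.inr ⟨h, h5, h6⟩
    · rintro (h | h | h) <;> exact h.1
  rw [e1, card_union_of_disjoint, card_union_of_disjoint]
  · ring
  · rw [disjoint_left]
    intro w hw hw'
    simp only [mem_filter, mem_univ, true_and] at hw hw'
    obtain ⟨s, hs⟩ := hw.2.2
    exact hw'.2.2 s hs
  · rw [disjoint_left]
    intro w hw hw'
    simp only [mem_filter, mem_univ, true_and, mem_union] at hw hw'
    rcases hw' with h | h
    · exact h.2.1 hw.2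
    · exact h.2.1 hw.2

/-- number of dangerous endpoints in the block `y` -/
noncomputable def om (σ : Equiv.Perm V) (b : V → ℕ) (R : Finset ℕ) (Sp : Finset V) (y : ℕ) : ℕ := by
  classical
  exact ((Sp ×ˢ (univ : Finset Bool)).filter
    (fun p => b (stp σ p.2 p.1) = y ∧ Dang σ b (dbl b R Sp) p.1 p.2)).card

/-- Existence of a target in a closed set of blocks. -/
lemma exists_target (hb : Fib4 b) (hS : State σ b R Sp) (Y : Finset ℕ) (hYR : Y ⊆ R)
    (hYcl : ∀ y ∈ Y, ∀ y', Arc σ b R Sp y y' → y' ∈ Y)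
    (hYb : ∀ w ∈ badV σ b R Sp, b w ∈ Y)
    (hYd : ∀ a ∈ dendV σ b R Sp, ∀ s, b (stp σ s a) ∈ Y)
    (hT : 0 < Theta σ b R Sp) : ∃ t ∈ Y, Target σ b R Sp t := by
  classical
  by_contra hcon
  push Not at hcon
  set D := dbl b R Sp with hD
  set P := Sp ×ˢ (univ : Finset Bool) with hP
  have hmem : ∀ p : V × Bool, p ∈ P ↔ p.1 ∈ Sp := by
    intro p
    rw [hP, mem_product]
    simp
  have hDmult : ∀ y ∈ Y, y ∈ D → mult b Sp y = 2 := fun y _ h => (mem_filter.mp h).2
  have hSmult : ∀ y ∈ Y, y ∉ D → mult b Sp y = 1 := by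
    intro y hy h
    have h1 := hS.one y (hYR hy)
    have h2 := hS.two y (hYR hy)
    have h3 : mult b Sp y ≠ 2 := fun h3 => h (mem_filter.mpr ⟨hYR hy, h3⟩)
    omega
  -- sums over blocks
  have hsum : ∀ (q : V × Bool → Prop) [DecidablePred q] (Z : Finset ℕ),
      ∑ y ∈ Z, (P.filter (fun p => b (stp σ p.2 p.1) = y ∧ q p)).card =
        (P.filter (fun p => b (stp σ p.2 p.1) ∈ Z ∧ q p)).card := by
    intro q _ Z
    rw [← card_biUnion]
    · congr 1
      ext p
      simp only [mem_biUnion, mem_filter]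
      constructor
      · rintro ⟨y, hy, h1, h2, h3⟩
        exact ⟨h1, h2 ▸ hy, h3⟩
      · rintro ⟨h1, h2, h3⟩
        exact ⟨_, h2, h1, rfl, h3⟩
    · intro y _ y' _ hne
      rw [Function.onFun, disjoint_left]
      intro p hp hp'
      exact hne ((mem_filter.mp hp).2.1.symm.trans (mem_filter.mp hp').2.1)
  have hnn : ∀ Z : Finset ℕ, ∑ y ∈ Z, nn σ b Sp y =
      (P.filter (fun p => b (stp σ p.2 p.1) ∈ Z)).card := by
    intro Z
    have := hsum (fun _ => True) Z
    simpa [nn, hP] using this
  have hom : ∀ Z : Finset ℕ, ∑ y ∈ Z, om σ b R Sp y =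
      (P.filter (fun p => b (stp σ p.2 p.1) ∈ Z ∧ Dang σ b D p.1 p.2)).card := by
    intro Z
    exact hsum (fun p => Dang σ b D p.1 p.2) Z
  have hmult : ∑ y ∈ Y, mult b Sp y = (Sp.filter (fun a => b a ∈ Y)).card := by
    unfold mult
    rw [← card_biUnion]
    · congr 1
      ext p
      simp only [mem_biUnion, mem_filter]
      constructor
      · rintro ⟨y, hy, h1, h2⟩
        exact ⟨h1, h2 ▸ hy⟩
      · rintro ⟨h1, h2⟩
        exact ⟨_, h2, h1, rfl⟩
    · intro y _ y' _ hne
      rw [Function.onFun, disjoint_left]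
      intro p hp hp'
      exact hne ((mem_filter.mp hp).2.symm.trans (mem_filter.mp hp').2)
  set YS := Y.filter (fun y => y ∉ D) with hYS
  set YD := Y.filter (fun y => y ∈ D) with hYD
  have hsplit : ∀ g : ℕ → ℕ, ∑ y ∈ Y, g y = ∑ y ∈ YD, g y + ∑ y ∈ YS, g y := by
    intro g
    exact (sum_filter_add_sum_filter_not Y (fun y => y ∈ D) g).symm
  have hκ : (Sp.filter (fun a => b a ∈ Y)).card = 2 * YD.card + YS.card := by
    rw [← hmult, hsplit]
    rw [sum_congr rfl (fun y hy => hDmult y (mem_filter.mp hy).1 (mem_filter.mp hy).2),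
      sum_congr rfl (fun y hy => hSmult y (mem_filter.mp hy).1 (mem_filter.mp hy).2)]
    simp
    ring
  -- allowed and non-allowed pairs
  set A := P.filter (fun p => b p.1 ∈ Y ∧ ¬ Dang σ b D p.1 p.2) with hA
  set N := P.filter (fun p => b p.1 ∈ Y ∧ Dang σ b D p.1 p.2) with hN
  have hAN : A.card + N.card = 2 * (Sp.filter (fun a => b a ∈ Y)).card := by
    rw [← card_union_of_disjoint]
    · have : A ∪ N = (Sp.filter (fun a => b a ∈ Y)) ×ˢ (univ : Finset Bool) := by
        ext p
        simp only [hA, hN, mem_union, mem_filter, hmem, mem_product, mem_univ, and_true]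
        tauto
      rw [this, card_product]
      simp [mul_comm]
    · rw [disjoint_left]
      intro p hp hp'
      exact (mem_filter.mp hp).2.2 (mem_filter.mp hp').2.2
  have hNle : N.card ≤ ∑ y ∈ YD, nn σ b Sp y := by
    rw [hnn]
    apply card_le_card_of_injOn (fun p => (p.1, !p.2))
    · rintro ⟨a, s⟩ hp
      obtain ⟨h1, h2, h3⟩ := mem_filter.mp (Finset.mem_coe.mp hp)
      simp only at h2 h3
      have ha : a ∈ Sp := (hmem _).mp h1
      apply Finset.mem_coe.mpr
      refine mem_filter.mpr ⟨(hmem _).mpr ha, ?_⟩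
      show b (stp σ (!s) a) ∈ YD
      refine mem_filter.mpr ⟨?_, h3.2⟩
      by_cases h4 : Dang σ b D a (!s)
      · apply hYd a
        refine mem_filter.mpr ⟨ha, h3.1, ?_⟩
        intro s'
        by_cases h5 : s' = s
        · rw [h5]
          have := h4.2
          simpa using this
        · have h6 : s' = !s := bool_ne h5
          rw [h6]
          exact h3.2
      · exact hYcl _ h2 _ ⟨a, ha, !s, rfl, h4, rfl⟩
    · rintro ⟨a, s⟩ _ ⟨a', s'⟩ _ h
      simp only [Prod.mk.injEq] at h ⊢
      exact ⟨h.1, by revert h; cases s <;> cases s' <;> simp⟩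
  have hE : A.card + ∑ y ∈ YS, om σ b R Sp y + 2 * (dendV σ b R Sp).card ≤
      ∑ y ∈ Y, nn σ b Sp y := by
    rw [hnn, hom]
    set O := P.filter (fun p => b (stp σ p.2 p.1) ∈ YS ∧ Dang σ b D p.1 p.2) with hO
    have e : 2 * (dendV σ b R Sp).card = ((dendV σ b R Sp) ×ˢ (univ : Finset Bool)).card := by
      rw [card_product]
      simp [mul_comm]
    rw [e, ← card_union_of_disjoint, ← card_union_of_disjoint]
    · apply card_le_card
      intro p hp
      rcases mem_union.mp hp with hp | hp
      · rcases mem_union.mp hp with hp | hp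
        · obtain ⟨h1, h2, h3⟩ := mem_filter.mp hp
          refine mem_filter.mpr ⟨h1, ?_⟩
          exact hYcl _ h2 _ ⟨p.1, (hmem _).mp h1, p.2, rfl, h3, rfl⟩
        · obtain ⟨h1, h2, h3⟩ := mem_filter.mp hp
          exact mem_filter.mpr ⟨h1, (mem_filter.mp h2).1⟩
      · have h1 := (mem_product.mp hp).1
        refine mem_filter.mpr ⟨(hmem _).mpr (mem_filter.mp h1).1, hYd _ h1 _⟩
    · rw [disjoint_left]
      intro p hp hp'
      have h1 := (mem_filter.mp (mem_product.mp hp').1).2
      rcases mem_union.mp hp with hp | hp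
      · exact (mem_filter.mp hp).2.2 ⟨h1.1, h1.2 _⟩
      · exact (mem_filter.mp (mem_filter.mp hp).2.1).2 (h1.2 _)
    · rw [disjoint_left]
      intro p hp hp'
      exact (mem_filter.mp hp).2.2 (mem_filter.mp hp').2.2
  -- the blocks
  have hbadsum : ∑ y ∈ YD, rest σ b Sp y = (badV σ b R Sp).card := by
    unfold rest badV
    rw [← card_biUnion]
    · congr 1
      ext w
      simp only [mem_biUnion, mem_filter, mem_univ, true_and]
      constructor
      · rintro ⟨y, hy, h1, h2, h3⟩
        exact ⟨h1 ▸ (mem_filter.mp hy).2, h2, h3⟩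
      · rintro ⟨h1, h2, h3⟩
        refine ⟨b w, mem_filter.mpr ⟨?_, h1⟩, rfl, h2, h3⟩
        exact hYb w (mem_filter.mpr ⟨mem_univ _, h1, h2, h3⟩)
    · intro y _ y' _ hne
      rw [Function.onFun, disjoint_left]
      intro p hp hp'
      exact hne ((mem_filter.mp hp).2.1.symm.trans (mem_filter.mp hp').2.1)
  have hX : ∑ y ∈ YD, nn σ b Sp y + (badV σ b R Sp).card = 2 * YD.card := by
    rw [← hbadsum, ← sum_add_distrib]
    have : ∀ y ∈ YD, nn σ b Sp y + rest σ b Sp y = 2 := by
      intro y hy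
      have h1 := block_count hb hS (hYR (mem_filter.mp hy).1)
      have h2 := hDmult y (mem_filter.mp hy).1 (mem_filter.mp hy).2
      omega
    rw [sum_congr rfl this]
    simp
    ring
  have hZ : ∑ y ∈ YS, nn σ b Sp y ≤ 2 * YS.card + ∑ y ∈ YS, om σ b R Sp y := by
    have : ∀ y ∈ YS, nn σ b Sp y ≤ 2 + om σ b R Sp y := by
      intro y hy
      have hyY := (mem_filter.mp hy).1
      have hyD := (mem_filter.mp hy).2
      have h1 := block_count hb hS (hYR hyY)
      have h2 := hSmult y hyY hyD
      by_cases hr : rest σ b Sp y = 0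
      · -- clean, hence a dangerous endpoint
        have hclean : ∀ w, b w = y → w ∈ Sp ∨ ∃ s, stp σ s w ∈ Sp := by
          intro w hw
          by_contra hne
          push Not at hne
          have : 0 < rest σ b Sp y :=
            card_pos.mpr ⟨w, mem_filter.mpr ⟨mem_univ _, hw, hne.1, hne.2⟩⟩
          omega
        have hnt := hcon y hyY
        have : 0 < om σ b R Sp y := by
          by_contra h0
          apply hnt
          refine ⟨hYR hyY, hyD, hclean, ?_⟩
          intro a ha s has hdang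
          apply h0
          refine card_pos.mpr ⟨(a, s), ?_⟩
          exact mem_filter.mpr ⟨(hmem _).mpr ha, has, hdang⟩
        omega
      · omega
    calc ∑ y ∈ YS, nn σ b Sp y ≤ ∑ y ∈ YS, (2 + om σ b R Sp y) := sum_le_sum this
      _ = _ := by rw [sum_add_distrib]; simp; ring
  have hEs := hsplit (nn σ b Sp)
  unfold Theta at hT
  omega

/-- The effect of a simultaneous shift of the specials in `M` on the potential. -/
lemma shift (hrc : RC σ b) (hS : State σ b R Sp) (M : Finset V) (hM : M ⊆ Sp)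
    (dir : V → Bool) (z t : ℕ) (hz : z ∈ dbl b R Sp) (ht : Target σ b R Sp t)
    (H1 : ∀ x ∈ M, ¬ Dang σ b (dbl b R Sp) x (dir x))
    (H2 : ∀ c, (Sp.filter (fun x => b (if x ∈ M then stp σ (dir x) x else x) = c)).card +
      (if c = z then 1 else 0) = mult b Sp c + (if c = t then 1 else 0))
    (H4 : ∀ x ∈ M, b (stp σ (!dir x) x) ≠ t)
    (H6 : ∀ x ∈ M, b x ≠ t)
    (hv : (∃ w ∈ badV σ b R Sp, b w = z) ∨ (∃ a ∈ dendV σ b R Sp, ∃ s, b (stp σ s a) = z)) :
    ∃ Sp' : Finset V, State σ b R Sp' ∧
      (∀ v, (∃ a ∈ Sp, σ.SameCycle v a) ↔ (∃ a ∈ Sp', σ.SameCycle v a)) ∧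
      Theta σ b R Sp' < Theta σ b R Sp := by
  classical
  set D := dbl b R Sp with hD
  set φ : V → V := fun x => if x ∈ M then stp σ (dir x) x else x with hφ
  have hφM : ∀ x ∈ M, φ x = stp σ (dir x) x := fun x hx => by simp [hφ, hx]
  have hφN : ∀ x, x ∉ M → φ x = x := fun x hx => by simp [hφ, hx]
  have hφs : ∀ x, σ.SameCycle x (φ x) := by
    intro x
    by_cases hx : x ∈ M
    · rw [hφM x hx]; exact same_stp _ _ _
    · rw [hφN x hx]
  have hφinj : ∀ x ∈ Sp, ∀ y ∈ Sp, φ x = φ y → x = y := by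
    intro x hx y hy h
    apply hS.dist x hx y hy
    have h1 := hφs x
    rw [h] at h1
    exact h1.trans (hφs y).symm
  set Sp' := Sp.image φ with hSp'
  have hmult' : ∀ c, mult b Sp' c =
      (Sp.filter (fun x => b (if x ∈ M then stp σ (dir x) x else x) = c)).card := by
    intro c
    unfold mult
    rw [hSp', filter_image, card_image_of_injOn]
    intro x hx y hy h
    exact hφinj x (mem_filter.mp (Finset.mem_coe.mp hx)).1 y (mem_filter.mp (Finset.mem_coe.mp hy)).1 h
  have hm : ∀ c, mult b Sp' c + (if c = z then 1 else 0) = mult b Sp c + (if c = t then 1 else 0) := by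
    intro c
    rw [hmult', H2]
  have hzm : mult b Sp z = 2 := (mem_filter.mp hz).2
  have hzt : z ≠ t := by
    intro h
    exact ht.notD (h ▸ hz)
  have htm : mult b Sp t = 1 := by
    have h1 := hS.one t ht.inR
    have h2 := hS.two t ht.inR
    have h3 : mult b Sp t ≠ 2 := fun h3 => ht.notD (mem_filter.mpr ⟨ht.inR, h3⟩)
    omega
  have hcyc3 : ∀ x s, Cyc3 σ x → Cyc3 σ (stp σ s x) := by
    intro x s hx
    have hcomm : ∀ v, σ (stp σ s v) = stp σ s (σ v) := by
      intro v
      cases s <;> simp [stp]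
    constructor
    · rw [hcomm]
      exact fun h => hx.1 ((stp σ s).injective h)
    · rw [hcomm, hcomm]
      exact fun h => hx.2 ((stp σ s).injective h)
  have hlong : ∀ x s, σ (σ (σ (stp σ s x))) = stp σ s x ↔ σ (σ (σ x)) = x := by
    intro x s
    have hcomm : ∀ v, σ (stp σ s v) = stp σ s (σ v) := by
      intro v
      cases s <;> simp [stp]
    rw [hcomm, hcomm, hcomm]
    exact (stp σ s).injective.eq_iff
  have hS' : State σ b R Sp' := by
    constructor
    · intro a ha a' ha' h
      obtain ⟨x, hx, rfl⟩ := mem_image.mp ha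
      obtain ⟨y, hy, rfl⟩ := mem_image.mp ha'
      have h1 : x = y := hS.dist x hx y hy (((hφs x).trans h).trans (hφs y).symm)
      rw [h1]
    · intro a ha
      obtain ⟨x, hx, rfl⟩ := mem_image.mp ha
      by_cases hxM : x ∈ M
      · rw [hφM x hxM]; exact hcyc3 _ _ (hS.cyc x hx)
      · rw [hφN x hxM]; exact hS.cyc x hx
    · intro a ha w hw
      obtain ⟨x, hx, rfl⟩ := mem_image.mp ha
      exact hS.inR x hx w ((hφs x).trans hw)
    · intro y hy
      have h1 := hm y
      have h2 := hS.one y hy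
      by_cases hyz : y = z
      · subst hyz
        rw [if_pos rfl, if_neg hzt] at h1
        omega
      · rw [if_neg hyz] at h1
        omega
    · intro y hy
      have h1 := hm y
      have h2 := hS.two y hy
      by_cases hyt : y = t
      · subst hyt
        rw [if_pos rfl] at h1
        omega
      · rw [if_neg hyt] at h1
        omega
  have hD' : ∀ c, c ∈ dbl b R Sp' → c = t ∨ (c ∈ D ∧ c ≠ z) := by
    intro c hc
    obtain ⟨h1, h2⟩ := mem_filter.mp hc
    have h3 := hm c
    by_cases hct : c = t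
    · exact Or.inl hct
    · right
      rw [if_neg hct] at h3
      by_cases hcz : c = z
      · subst hcz
        rw [if_pos rfl] at h3
        omega
      · rw [if_neg hcz] at h3
        exact ⟨mem_filter.mpr ⟨h1, by omega⟩, hcz⟩
  have hmem' : ∀ x ∈ Sp, x ∉ M → x ∈ Sp' := fun x hx hxM => mem_image.mpr ⟨x, hx, hφN x hxM⟩
  have hmemM : ∀ x ∈ M, stp σ (dir x) x ∈ Sp' := fun x hx => mem_image.mpr ⟨x, hM hx, hφM x hx⟩
  have hbad : ∀ w ∈ badV σ b R Sp', w ∈ badV σ b R Sp ∧ b w ≠ z := by
    intro w hw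
    obtain ⟨_, hw1, hw2, hw3⟩ := mem_filter.mp hw
    have hwt : b w ≠ t := by
      intro h
      rcases ht.clean w h with h1 | ⟨s, h1⟩
      · exact hw2 (hmem' w h1 (fun h2 => H6 w h2 h))
      · by_cases hx : stp σ s w ∈ M
        · by_cases h2 : s = !dir (stp σ s w)
          · have h3 := hmemM _ hx
            have h4 : stp σ (dir (stp σ s w)) (stp σ s w) = w := by
              have h5 : dir (stp σ s w) = !s := bool_not h2
              rw [h5, stp_not_stp]
            rw [h4] at h3
            exact hw2 h3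
          · have h2' : s = dir (stp σ s w) := by
              by_contra h6
              exact h2 (bool_ne h6)
            have h3 := H4 _ hx
            rw [← h2', stp_not_stp] at h3
            exact h3 h
        · exact hw3 s (hmem' _ h1 hx)
    obtain ⟨hwD, hwz⟩ := (hD' _ hw1).resolve_left hwt
    refine ⟨mem_filter.mpr ⟨mem_univ _, hwD, ?_, ?_⟩, hwz⟩
    · intro h
      have hwM : w ∈ M := by
        by_contra h1
        exact hw2 (hmem' w h h1)
      exact hw3 _ (hmemM w hwM)
    · intro s h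
      have hxM : stp σ s w ∈ M := by
        by_contra h1
        exact hw3 s (hmem' _ h h1)
      set x := stp σ s w with hx
      have hwx : w = stp σ (!s) x := by rw [hx, stp_not_stp]
      by_cases h2 : dir x = s
      · have h3 := H1 x hxM
        rw [h2] at h3
        unfold Dang at h3
        rw [← hwx] at h3
        have h4 : σ (σ (σ x)) = x := by
          by_contra h4
          exact h3 ⟨h4, hwD⟩
        have h5 := (tri_iff (!s)).mpr h4
        have h6 := hmemM x hxM
        rw [h2] at h6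
        have h7 : stp σ (!s) w = stp σ s x := by
          rw [hwx]
          have h8 := congrArg (stp σ s) h5
          rw [stp_stp_not] at h8
          exact h8
        rw [← h7] at h6
        exact hw3 _ h6
      · have h3 : dir x = !s := bool_ne h2
        have h4 := hmemM x hxM
        rw [h3, ← hwx] at h4
        exact hw2 h4
  -- double ends: not shifted
  have hdend1 : ∀ a ∈ Sp, a ∉ M → a ∈ dendV σ b R Sp' →
      a ∈ dendV σ b R Sp ∧ ∀ s, b (stp σ s a) ≠ z := by
    intro a ha haM had
    obtain ⟨_, h1, h2⟩ := mem_filter.mp had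
    have h3 : ∀ s, b (stp σ s a) ≠ t := by
      intro s hst
      have h4 := ht.safe a ha s hst
      have h5 : b (stp σ (!s) a) ∉ D := fun h5 => h4 ⟨h1, h5⟩
      have h6 : b (stp σ (!s) a) = t := by
        rcases hD' _ (h2 (!s)) with h6 | h6
        · exact h6
        · exact absurd h6.1 h5
      have h7 : stp σ s (stp σ s (stp σ (!s) a)) = stp σ s a := by rw [stp_stp_not]
      have h8 := hrc.two s (v := stp σ (!s) a) (by
        rw [h7]
        exact stp_ne_not (hS.cyc a ha) s)
      rw [h7, hst, h6] at h8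
      exact h8 rfl
    have h4 : ∀ s, b (stp σ s a) ∈ D ∧ b (stp σ s a) ≠ z := fun s =>
      (hD' _ (h2 s)).resolve_left (h3 s)
    exact ⟨mem_filter.mpr ⟨ha, h1, fun s => (h4 s).1⟩, fun s => (h4 s).2⟩
  -- double ends: shifted
  have hdend2 : ∀ x ∈ M, stp σ (dir x) x ∈ dendV σ b R Sp' →
      stp σ (dir x) (stp σ (dir x) x) ∈ badV σ b R Sp ∧
      b (stp σ (dir x) (stp σ (dir x) x)) ≠ z := by
    intro x hx had
    obtain ⟨_, h1, h2⟩ := mem_filter.mp had
    have hxlong : σ (σ (σ x)) ≠ x := fun h => h1 ((hlong x _).mpr h)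
    set w := stp σ (dir x) (stp σ (dir x) x) with hw
    have hsame : σ.SameCycle x w := (same_stp σ (dir x) x).trans (same_stp σ (dir x) _)
    have hwSp : w ∉ Sp := by
      intro h
      exact stp2_ne (hS.cyc x (hM hx)) _ (hS.dist x (hM hx) w h hsame).symm
    have hwn : ∀ s, stp σ s w ∉ Sp := by
      intro s h
      by_cases hs : s = dir x
      · rw [hs] at h
        have h3 := hS.dist x (hM hx) _ h (hsame.trans (same_stp σ (dir x) w))
        exact hxlong ((tri_iff (dir x)).mp h3.symm)
      · have hs' : s = !dir x := bool_ne hs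
        rw [hs', hw, stp_not_stp] at h
        exact hS.stp_not_mem (hM hx) _ h
    have hwt : b w ≠ t := by
      intro h
      rcases ht.clean w h with h3 | ⟨s, h3⟩
      · exact hwSp h3
      · exact hwn s h3
    obtain ⟨h3, h4⟩ := (hD' _ (h2 (dir x))).resolve_left hwt
    exact ⟨mem_filter.mpr ⟨mem_univ _, h3, hwSp, hwn⟩, h4⟩
  refine ⟨Sp', hS', ?_, ?_⟩
  · intro v
    constructor
    · rintro ⟨a, ha, h⟩
      exact ⟨φ a, mem_image_of_mem φ ha, h.trans (hφs a)⟩
    · rintro ⟨a, ha, h⟩
      obtain ⟨x, hx, rfl⟩ := mem_image.mp ha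
      exact ⟨x, hx, h.trans (hφs x).symm⟩
  · -- counting
    set M2 := M.filter (fun x => stp σ (dir x) x ∈ dendV σ b R Sp') with hM2
    set B1 := (badV σ b R Sp).filter (fun w => b w ≠ z) with hB1
    set E1 := (dendV σ b R Sp).filter (fun a => ∀ s, b (stp σ s a) ≠ z) with hE1
    have c1 : (badV σ b R Sp').card + M2.card ≤ B1.card := by
      rw [← card_image_of_injOn (s := M2) (f := fun x => stp σ (dir x) (stp σ (dir x) x)),
        ← card_union_of_disjoint]
      · apply card_le_card
        intro w hw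
        rcases mem_union.mp hw with hw | hw
        · exact mem_filter.mpr (hbad w hw)
        · obtain ⟨x, hx, rfl⟩ := mem_image.mp hw
          exact mem_filter.mpr (hdend2 x (mem_filter.mp hx).1 (mem_filter.mp hx).2)
      · rw [disjoint_left]
        intro w hw hw'
        obtain ⟨x, hx, rfl⟩ := mem_image.mp hw'
        have h1 := (mem_filter.mp hw).2.2.2 (!dir x)
        rw [stp_not_stp] at h1
        exact h1 (hmemM x (mem_filter.mp hx).1)
      · intro x hx y hy h
        have hx' := hM (mem_filter.mp (Finset.mem_coe.mp hx)).1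
        have hy' := hM (mem_filter.mp (Finset.mem_coe.mp hy)).1
        apply hS.dist x hx' y hy'
        have h1 : σ.SameCycle x (stp σ (dir x) (stp σ (dir x) x)) :=
          (same_stp σ (dir x) x).trans (same_stp σ (dir x) _)
        have h2 : σ.SameCycle y (stp σ (dir y) (stp σ (dir y) y)) :=
          (same_stp σ (dir y) y).trans (same_stp σ (dir y) _)
        simp only at h
        rw [h] at h1
        exact h1.trans h2.symm
    have c2 : (dendV σ b R Sp').card ≤ E1.card + M2.card := by
      have h1 : dendV σ b R Sp' ⊆ E1 ∪ M2.image (fun x => stp σ (dir x) x) := by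
        intro a ha
        obtain ⟨x, hx, hxa⟩ := mem_image.mp (mem_filter.mp ha).1
        by_cases hxM : x ∈ M
        · rw [hφM x hxM] at hxa
          apply mem_union_right
          refine mem_image.mpr ⟨x, mem_filter.mpr ⟨hxM, ?_⟩, hxa⟩
          rw [hxa]; exact ha
        · rw [hφN x hxM] at hxa
          subst hxa
          exact mem_union_left _ (mem_filter.mpr (hdend1 x hx hxM ha))
      exact (card_le_card h1).trans ((card_union_le _ _).trans
        (Nat.add_le_add_left card_image_le _))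
    have c3 : B1.card + E1.card < Theta σ b R Sp := by
      unfold Theta
      have h1 : B1.card ≤ (badV σ b R Sp).card := card_filter_le _ _
      have h2 : E1.card ≤ (dendV σ b R Sp).card := card_filter_le _ _
      rcases hv with ⟨w, hw, hwz⟩ | ⟨a, ha, s, has⟩
      · have : B1.card < (badV σ b R Sp).card := by
          apply card_lt_card
          rw [ssubset_iff_of_subset (filter_subset _ _)]
          exact ⟨w, hw, fun h => (mem_filter.mp h).2 hwz⟩
        omega
      · have : E1.card < (dendV σ b R Sp).card := by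
          apply card_lt_card
          rw [ssubset_iff_of_subset (filter_subset _ _)]
          exact ⟨a, ha, fun h => (mem_filter.mp h).2 s has⟩
        omega
    have c4 : Theta σ b R Sp' = (badV σ b R Sp').card + (dendV σ b R Sp').card := rfl
    omega

/-- paths of length `n` -/
def PathN (r : ℕ → ℕ → Prop) (n : ℕ) (z t : ℕ) : Prop :=
  ∃ y : ℕ → ℕ, y 0 = z ∧ y n = t ∧ ∀ i < n, r (y i) (y (i + 1))

lemma pathN_of_rtg {r : ℕ → ℕ → Prop} {z t : ℕ} (h : Relation.ReflTransGen r z t) :
    ∃ n, PathN r n z t := by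
  induction h with
  | refl => exact ⟨0, fun _ => z, rfl, rfl, by simp⟩
  | @tail b c _ hbc ih =>
    obtain ⟨n, y, h0, hn, hy⟩ := ih
    refine ⟨n + 1, fun i => if i ≤ n then y i else c, by simp [h0], by simp, ?_⟩
    intro i hi
    by_cases h : i = n
    · subst h
      simp only [le_refl, if_true, Nat.not_succ_le_self, if_false]
      rw [hn]
      exact hbc
    · have h1 : i + 1 ≤ n := by omega
      have h2 : i ≤ n := by omega
      simp only [h1, h2, if_true]
      exact hy i (by omega)

/-- One improvement step. -/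
lemma improve (hb : Fib4 b) (hrc : RC σ b) (hS : State σ b R Sp) (hT : 0 < Theta σ b R Sp) :
    ∃ Sp' : Finset V, State σ b R Sp' ∧
      (∀ v, (∃ a ∈ Sp, σ.SameCycle v a) ↔ (∃ a ∈ Sp', σ.SameCycle v a)) ∧
      Theta σ b R Sp' < Theta σ b R Sp := by
  classical
  set Dv : ℕ → Prop := fun z => (∃ w ∈ badV σ b R Sp, b w = z) ∨
    (∃ a ∈ dendV σ b R Sp, ∃ s, b (stp σ s a) = z) with hDv
  have hDvD : ∀ z, Dv z → z ∈ dbl b R Sp := by
    rintro z (⟨w, hw, rfl⟩ | ⟨a, ha, s, rfl⟩)
    · exact (mem_filter.mp hw).2.1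
    · exact (mem_filter.mp ha).2.2 s
  set Y := R.filter (fun y => ∃ z, Dv z ∧ Relation.ReflTransGen (Arc σ b R Sp) z y) with hY
  have hDvY : ∀ z, Dv z → z ∈ Y := fun z hz =>
    mem_filter.mpr ⟨(mem_filter.mp (hDvD z hz)).1, z, hz, Relation.ReflTransGen.refl⟩
  obtain ⟨t₀, ht₀, hTar₀⟩ := exists_target hb hS Y (filter_subset _ _) (by
    rintro y hy y' hyy'
    obtain ⟨_, z, hz, hzy⟩ := mem_filter.mp hy
    refine mem_filter.mpr ⟨?_, z, hz, hzy.tail hyy'⟩
    obtain ⟨a, ha, s, _, _, h⟩ := hyy'
    rw [← h]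
    exact hS.inR a ha _ (same_stp σ s a)) (fun w hw => hDvY _ (Or.inl ⟨w, hw, rfl⟩))
    (fun a ha s => hDvY _ (Or.inr ⟨a, ha, s, rfl⟩)) hT
  have hex : ∃ n, ∃ z t, Dv z ∧ Target σ b R Sp t ∧ PathN (Arc σ b R Sp) n z t := by
    obtain ⟨_, z, hz, hzt⟩ := mem_filter.mp ht₀
    obtain ⟨n, hn⟩ := pathN_of_rtg hzt
    exact ⟨n, z, t₀, hz, hTar₀, hn⟩
  set m := Nat.find hex with hm
  obtain ⟨z, t, hz, ht, y, hy0, hym, hy⟩ := Nat.find_spec hex
  rw [← hm] at hym hy
  have hmin : ∀ n, (∃ z t, Dv z ∧ Target σ b R Sp t ∧ PathN (Arc σ b R Sp) n z t) → m ≤ n :=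
    fun n hn => Nat.find_min' hex hn
  have hinj : ∀ i j, i < j → j ≤ m → y i ≠ y j := by
    intro i j hij hj heq
    have h1 := hmin (m - (j - i)) ⟨z, t, hz, ht,
      fun k => if k ≤ i then y k else y (k + (j - i)), by simp [hy0], ?_, ?_⟩
    · omega
    · by_cases h : m - (j - i) ≤ i
      · simp only [h, if_true]
        have h2 : m = j := by omega
        have h3 : m - (j - i) = i := by omega
        rw [h3, heq, ← h2, hym]
      · simp only [h, if_false]
        have h3 : m - (j - i) + (j - i) = m := by omega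
        rw [h3, hym]
    · intro k hk
      by_cases h1 : k + 1 ≤ i
      · have h2 : k ≤ i := by omega
        simp only [h1, h2, if_true]
        exact hy k (by omega)
      · by_cases h2 : k ≤ i
        · have h3 : k = i := by omega
          subst h3
          simp only [le_refl, if_true, h1, if_false]
          rw [heq]
          have h4 : k + 1 + (j - k) = j + 1 := by omega
          rw [h4]
          exact hy j (by omega)
        · simp only [h1, h2, if_false]
          have h4 : k + 1 + (j - i) = (k + (j - i)) + 1 := by omega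
          rw [h4]
          exact hy _ (by omega)
  have hinj' : ∀ i j, i ≤ m → j ≤ m → y i = y j → i = j := by
    intro i j hi hj h
    rcases lt_trichotomy i j with h1 | h1 | h1
    · exact absurd h (hinj i j h1 hj)
    · exact h1
    · exact absurd h.symm (hinj j i h1 hi)
  have hshort : ∀ i, i + 1 < m → ¬ Arc σ b R Sp (y i) t := by
    intro i hi harc
    have h1 := hmin (i + 1) ⟨z, t, hz, ht, fun k => if k ≤ i then y k else t, by simp [hy0],
      by simp, ?_⟩
    · omega
    · intro k hk
      by_cases h1 : k + 1 ≤ i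
      · have h2 : k ≤ i := by omega
        simp only [h1, h2, if_true]
        exact hy k (by omega)
      · have h3 : k = i := by omega
        subst h3
        simp only [le_refl, if_true, h1, if_false]
        exact harc
  have hzt : z ≠ t := by
    intro h
    exact ht.notD (h ▸ hDvD z hz)
  have hm0 : 0 < m := by
    rcases Nat.eq_zero_or_pos m with h | h
    · exfalso
      rw [h] at hym
      exact hzt (hy0.symm.trans hym)
    · exact h
  have harc : ∀ i, ∃ p : V × Bool, i < m → (p.1 ∈ Sp ∧ b p.1 = y i ∧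
      ¬ Dang σ b (dbl b R Sp) p.1 p.2 ∧ b (stp σ p.2 p.1) = y (i + 1)) := by
    intro i
    by_cases hi : i < m
    · obtain ⟨a, ha, s, h1, h2, h3⟩ := hy i hi
      exact ⟨(a, s), fun _ => ⟨ha, h1, h2, h3⟩⟩
    · obtain ⟨a, ha, s, h1, h2, h3⟩ := hy 0 hm0
      exact ⟨(a, s), fun h => absurd h hi⟩
  choose p hp using harc
  have hpinj : ∀ i j, i < m → j < m → (p i).1 = (p j).1 → i = j := by
    intro i j hi hj h
    apply hinj' i j hi.le hj.le
    rw [← (hp i hi).2.1, ← (hp j hj).2.1, h]
  set M := (range m).image (fun i => (p i).1) with hMdef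
  have hMSp : M ⊆ Sp := by
    intro x hx
    obtain ⟨i, hi, rfl⟩ := mem_image.mp hx
    exact (hp i (mem_range.mp hi)).1
  set dir : V → Bool := fun x => decide (∃ i, i < m ∧ (p i).1 = x ∧ (p i).2 = true) with hdir
  have hdirp : ∀ i, i < m → dir (p i).1 = (p i).2 := by
    intro i hi
    simp only [hdir]
    cases h : (p i).2
    · rw [decide_eq_false_iff_not]
      rintro ⟨j, hj, h1, h2⟩
      have h3 := hpinj j i hj hi h1
      rw [h3, h] at h2
      exact Bool.false_ne_true h2
    · rw [decide_eq_true_iff]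
      exact ⟨i, hi, rfl, h⟩
  have hsafe : ∀ i, i < m → b (stp σ (!(p i).2) (p i).1) ≠ t := by
    intro i hi h
    obtain ⟨h1, h2, h3, h4⟩ := hp i hi
    have h5 := ht.safe _ h1 _ h
    by_cases h6 : i + 1 < m
    · exact hshort i h6 ⟨_, h1, _, h2, h5, h⟩
    · have h7 : i + 1 = m := by omega
      rw [h7, hym] at h4
      have h8 : stp σ (p i).2 (stp σ (p i).2 (stp σ (!(p i).2) (p i).1)) =
          stp σ (p i).2 (p i).1 := by rw [stp_stp_not]
      have h9 := hrc.two (p i).2 (v := stp σ (!(p i).2) (p i).1) (by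
        rw [h8]
        exact stp_ne_not (hS.cyc _ h1) _)
      rw [h8, h4, h] at h9
      exact h9 rfl
  apply shift hrc hS M hMSp dir z t (hDvD z hz) ht
  · intro x hx
    obtain ⟨i, hi, rfl⟩ := mem_image.mp hx
    have hi' := mem_range.mp hi
    rw [hdirp i hi']
    exact (hp i hi').2.2.1
  · intro c
    have e1 : ∀ (q : V → Prop) [DecidablePred q], (Sp.filter q).card = ((Sp \ M).filter q).card + (M.filter q).card := by
      intro q _
      rw [← card_union_of_disjoint]
      · congr 1
        rw [← filter_union, sdiff_union_of_subset hMSp]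
      · exact disjoint_filter_filter sdiff_disjoint
    have e2 : ((Sp \ M).filter (fun x => b (if x ∈ M then stp σ (dir x) x else x) = c)) =
        ((Sp \ M).filter (fun x => b x = c)) := by
      apply filter_congr
      intro x hx
      rw [if_neg (mem_sdiff.mp hx).2]
    have e3 : (M.filter (fun x => b (if x ∈ M then stp σ (dir x) x else x) = c)).card =
        ∑ i ∈ range m, if y (i + 1) = c then 1 else 0 := by
      rw [← card_filter, hMdef, filter_image, card_image_of_injOn]
      · congr 1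
        apply filter_congr
        intro i hi
        have hi' := mem_range.mp hi
        have h1 : (p i).1 ∈ M := mem_image.mpr ⟨i, hi, rfl⟩
        rw [← hMdef, if_pos h1, hdirp i hi', (hp i hi').2.2.2]
      · intro i hi j hj h
        exact hpinj i j (mem_range.mp (mem_filter.mp (Finset.mem_coe.mp hi)).1)
          (mem_range.mp (mem_filter.mp (Finset.mem_coe.mp hj)).1) h
    have e4 : (M.filter (fun x => b x = c)).card = ∑ i ∈ range m, if y i = c then 1 else 0 := by
      rw [← card_filter, hMdef, filter_image, card_image_of_injOn]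
      · congr 1
        apply filter_congr
        intro i hi
        have hi' := mem_range.mp hi
        rw [(hp i hi').2.1]
      · intro i hi j hj h
        exact hpinj i j (mem_range.mp (mem_filter.mp (Finset.mem_coe.mp hi)).1)
          (mem_range.mp (mem_filter.mp (Finset.mem_coe.mp hj)).1) h
    have e5 := sum_range_succ (fun i => if y i = c then 1 else 0) m
    have e6 := sum_range_succ' (fun i => if y i = c then 1 else 0) m
    have e7 : (if c = z then 1 else 0 : ℕ) = if y 0 = c then 1 else 0 := by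
      rw [hy0]; simp only [eq_comm]
    have e8 : (if c = t then 1 else 0 : ℕ) = if y m = c then 1 else 0 := by
      rw [hym]; simp only [eq_comm]
    unfold mult
    rw [e1, e1 (fun x => b x = c), e2, e3, e4, e7, e8]
    omega
  · intro x hx
    obtain ⟨i, hi, rfl⟩ := mem_image.mp hx
    have hi' := mem_range.mp hi
    rw [hdirp i hi']
    exact hsafe i hi'
  · intro x hx
    obtain ⟨i, hi, rfl⟩ := mem_image.mp hx
    have hi' := mem_range.mp hi
    rw [(hp i hi').2.1, ← hym]
    exact hinj i m hi' le_rfl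
  · exact hz

end basic

/-- Section 3 of the notes. -/
theorem key {V : Type} [Fintype V] [DecidableEq V] (σ : Equiv.Perm V) (b : V → ℕ) (hb : Fib4 b) (hrc : RC σ b)
    (R : Finset ℕ) (Sp : Finset V) (hS : State σ b R Sp) :
    ∃ Sp' : Finset V, State σ b R Sp' ∧
      (∀ v, (∃ a ∈ Sp, σ.SameCycle v a) ↔ (∃ a ∈ Sp', σ.SameCycle v a)) ∧
      (∀ w, b w ∈ dbl b R Sp' → w ∈ Sp' ∨ σ w ∈ Sp' ∨ σ⁻¹ w ∈ Sp') ∧
      (∀ a ∈ Sp', σ (σ (σ a)) ≠ a → ¬ (b (σ a) ∈ dbl b R Sp' ∧ b (σ⁻¹ a) ∈ dbl b R Sp')) := by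
  classical
  have main : ∀ n : ℕ, ∀ Sp : Finset V, State σ b R Sp → Theta σ b R Sp = n →
      ∃ Sp' : Finset V, State σ b R Sp' ∧
      (∀ v, (∃ a ∈ Sp, σ.SameCycle v a) ↔ (∃ a ∈ Sp', σ.SameCycle v a)) ∧
      Theta σ b R Sp' = 0 := by
    intro n
    induction n using Nat.strong_induction_on with
    | _ n ih =>
      intro Sp hS hn
      rcases Nat.eq_zero_or_pos (Theta σ b R Sp) with h | h
      · exact ⟨Sp, hS, fun _ => Iff.rfl, h⟩
      · obtain ⟨Sp1, h1, h2, h3⟩ := improve hb hrc hS h
        obtain ⟨Sp2, h4, h5, h6⟩ := ih _ (by omega) Sp1 h1 rfl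
        exact ⟨Sp2, h4, fun v => (h2 v).trans (h5 v), h6⟩
  obtain ⟨Sp', h1, h2, h3⟩ := main _ Sp hS rfl
  unfold Theta at h3
  have hb0 : badV σ b R Sp' = ∅ := card_eq_zero.mp (by omega)
  have hd0 : dendV σ b R Sp' = ∅ := card_eq_zero.mp (by omega)
  refine ⟨Sp', h1, h2, ?_, ?_⟩
  · intro w hw
    by_contra hcon
    push Not at hcon
    have : w ∈ badV σ b R Sp' := by
      refine mem_filter.mpr ⟨mem_univ _, hw, hcon.1, ?_⟩
      intro s
      cases s
      · simpa [stp] using hcon.2.2
      · simpa [stp] using hcon.2.1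
    rw [hb0] at this
    simp at this
  · intro a ha hlong hcon
    have : a ∈ dendV σ b R Sp' := by
      refine mem_filter.mpr ⟨ha, hlong, ?_⟩
      intro s
      cases s
      · simpa [stp] using hcon.2
      · simpa [stp] using hcon.1
    rw [hd0] at this
    simp at this

end S4C
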