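import Pool.Agent.LibS4C.Defs
set_option autoImplicit false
/-! Reduction: two vertices of a block at distance at most 2 on a cycle (section 1 of the notes). -/
namespace S4C
open Finset Equiv

variable {V : Type} [Fintype V] [DecidableEq V]

/-! ### four colours -/

theorem col_a : ∀ x h1 h2 : Fin 4, ∃ y : Fin 4, y ≠ x ∧ y ≠ h1 ∧ y ≠ h2 := by decide

theorem col_b : ∀ x3 x4 f1 f2 : Fin 4, x3 ≠ x4 → f1 ≠ f2 →
    ∃ x1 x2 : Fin 4, x1 ≠ x2 ∧ x1 ≠ x3 ∧ x1 ≠ x4 ∧ x2 ≠ x3 ∧ x2 ≠ x4 ∧ x1 ≠ f1 ∧ x2 ≠ f2 := by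
  decide

theorem col_c : ∀ x3 x4 : Fin 4, x3 ≠ x4 →
    ∃ x1 x2 : Fin 4, x1 ≠ x2 ∧ x1 ≠ x3 ∧ x1 ≠ x4 ∧ x2 ≠ x3 ∧ x2 ≠ x4 := by
  decide

/-! ### bypassing a vertex -/

/-- bypass the vertex `x` -/
def byp (x : V) (ρ : Perm V) : Perm V := swap x (ρ x) * ρ

theorem byp_self (x : V) (ρ : Perm V) : byp x ρ x = x := by
  simp [byp]

theorem byp_ne (x : V) (ρ : Perm V) {v : V} (h1 : v ≠ x) (h2 : ρ v ≠ x) : byp x ρ v = ρ v := by
  rw [byp, Perm.mul_apply, swap_apply_of_ne_of_ne h2]
  intro h
  exact h1 (ρ.injective h)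

theorem byp_eq (x : V) (ρ : Perm V) {v : V} (h2 : ρ v = x) : byp x ρ v = ρ x := by
  rw [byp, Perm.mul_apply, h2, swap_apply_left]

theorem byp_support (x : V) (ρ : Perm V) {v : V} (hv : byp x ρ v ≠ v) : ρ v ≠ v ∧ v ≠ x := by
  have h1 : v ≠ x := by
    rintro rfl
    exact hv (byp_self v ρ)
  refine ⟨fun h => hv ?_, h1⟩
  rw [byp_ne x ρ h1 (by rw [h]; exact h1), h]

/-- bypass four vertices -/
def by4 (p q r s : V) (ρ : Perm V) : Perm V := byp s (byp r (byp q (byp p ρ)))

theorem by4_out {p q r s : V} {ρ : Perm V} {v w : V} (hv : v ∉ ({p, q, r, s} : Finset V))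
    (hw : w ∉ ({p, q, r, s} : Finset V)) (h : ρ v = w) : by4 p q r s ρ v = w := by
  simp only [mem_insert, mem_singleton, not_or] at hv hw
  obtain ⟨v1, v2, v3, v4⟩ := hv
  obtain ⟨w1, w2, w3, w4⟩ := hw
  have e1 : byp p ρ v = w := by rw [byp_ne p ρ v1 (by rw [h]; exact w1), h]
  have e2 : byp q (byp p ρ) v = w := by rw [byp_ne q _ v2 (by rw [e1]; exact w2), e1]
  have e3 : byp r (byp q (byp p ρ)) v = w := by rw [byp_ne r _ v3 (by rw [e2]; exact w3), e2]
  rw [by4, byp_ne s _ v4 (by rw [e3]; exact w4), e3]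

theorem by4_chain2 {p q r s : V} {ρ : Perm V} {v w : V} (hv : v ∉ ({p, q, r, s} : Finset V))
    (hw : w ∉ ({p, q, r, s} : Finset V)) (hpq : p ≠ q) (h1 : ρ v = p) (h2 : ρ p = q) (h3 : ρ q = w) :
    by4 p q r s ρ v = w := by
  simp only [mem_insert, mem_singleton, not_or] at hv hw
  obtain ⟨v1, v2, v3, v4⟩ := hv
  obtain ⟨w1, w2, w3, w4⟩ := hw
  have e1 : byp p ρ v = q := by rw [byp_eq p ρ h1, h2]
  have e1' : byp p ρ q = w := by rw [byp_ne p ρ hpq.symm (by rw [h3]; exact w1), h3]
  have e2 : byp q (byp p ρ) v = w := by rw [byp_eq q _ e1, e1']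
  have e3 : byp r (byp q (byp p ρ)) v = w := by rw [byp_ne r _ v3 (by rw [e2]; exact w3), e2]
  rw [by4, byp_ne s _ v4 (by rw [e3]; exact w4), e3]

theorem by4_chain3 {p q r s : V} {ρ : Perm V} {v w : V} (hv : v ∉ ({p, q, r, s} : Finset V))
    (hw : w ∉ ({p, q, r, s} : Finset V)) (hpq : p ≠ q) (hpr : p ≠ r) (hqr : q ≠ r)
    (h1 : ρ v = p) (h2 : ρ p = q) (h3 : ρ q = r) (h4 : ρ r = w) :
    by4 p q r s ρ v = w := by
  simp only [mem_insert, mem_singleton, not_or] at hv hw
  obtain ⟨v1, v2, v3, v4⟩ := hv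
  obtain ⟨w1, w2, w3, w4⟩ := hw
  have e1 : byp p ρ v = q := by rw [byp_eq p ρ h1, h2]
  have e1' : byp p ρ q = r := by rw [byp_ne p ρ hpq.symm (by rw [h3]; exact hpr.symm), h3]
  have e1'' : byp p ρ r = w := by rw [byp_ne p ρ hpr.symm (by rw [h4]; exact w1), h4]
  have e2 : byp q (byp p ρ) v = r := by rw [byp_eq q _ e1, e1']
  have e2' : byp q (byp p ρ) r = w := by rw [byp_ne q _ hqr.symm (by rw [e1'']; exact w2), e1'']
  have e3 : byp r (byp q (byp p ρ)) v = w := by rw [byp_eq r _ e2, e2']
  rw [by4, byp_ne s _ v4 (by rw [e3]; exact w4), e3]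

theorem by4_support {p q r s : V} {ρ : Perm V} {v : V} (hv : by4 p q r s ρ v ≠ v) :
    ρ v ≠ v ∧ v ∉ ({p, q, r, s} : Finset V) := by
  obtain ⟨h1, h2⟩ := byp_support _ _ hv
  obtain ⟨h3, h4⟩ := byp_support _ _ h1
  obtain ⟨h5, h6⟩ := byp_support _ _ h3
  obtain ⟨h7, h8⟩ := byp_support _ _ h5
  refine ⟨h7, ?_⟩
  simp only [mem_insert, mem_singleton, not_or]
  exact ⟨h8, h6, h4, h2⟩

theorem by4_card {p q r s : V} {ρ : Perm V} {x : V} (hx : x ∈ ({p, q, r, s} : Finset V))
    (hρ : ρ x ≠ x) : (by4 p q r s ρ).support.card < ρ.support.card := by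
  apply card_lt_card
  rw [ssubset_iff_of_subset]
  · refine ⟨x, Perm.mem_support.2 hρ, fun h => ?_⟩
    exact (by4_support (Perm.mem_support.1 h)).2 hx
  · intro v hv
    exact Perm.mem_support.2 (by4_support (Perm.mem_support.1 hv)).1

/-! ### recolouring a block -/

theorem recolor (σ : Perm V) (b : V → ℕ) (z : Finset V) (hz : ∀ v ∈ z, ∀ w, b w = b v → w ∈ z)
    (c x : V → Fin 4) (hc1 : ∀ v, v ∉ z → σ v ∉ z → σ v ≠ v → c (σ v) ≠ c v)
    (hc2 : ∀ v w, v ≠ w → b v = b w → c v ≠ c w)
    (hx : ∀ v ∈ z, ∀ w ∈ z, v ≠ w → x v ≠ x w)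
    (h1 : ∀ v ∈ z, σ v ∉ z → x v ≠ c (σ v)) (h2 : ∀ v, v ∉ z → σ v ∈ z → x (σ v) ≠ c v) :
    Col4 σ b := by
  refine ⟨fun v => if v ∈ z then x v else c v, ?_, ?_⟩
  · intro v hv
    by_cases hvz : v ∈ z <;> by_cases hsz : σ v ∈ z
    · simp only [hvz, hsz, if_true]
      exact hx _ hsz _ hvz hv
    · simp only [hvz, hsz, if_true, if_false]
      exact (h1 v hvz hsz).symm
    · simp only [hvz, hsz, if_true, if_false]
      exact h2 v hvz hsz
    · simp only [hvz, hsz, if_false]
      exact hc1 v hvz hsz hv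
  · intro v w hvw hb
    by_cases hvz : v ∈ z
    · have hwz : w ∈ z := hz v hvz w hb.symm
      simp only [hvz, hwz, if_true]
      exact hx _ hvz _ hwz hvw
    · have hwz : w ∉ z := fun h => hvz (hz w h v hb)
      simp only [hvz, hwz, if_false]
      exact hc2 v w hvw hb

/-- the block of two given vertices -/
theorem block {b : V → ℕ} (hb : Fib4 b) {p q : V} (hpq : p ≠ q) (hbpq : b q = b p) :
    ∃ r s : V, p ≠ r ∧ p ≠ s ∧ q ≠ r ∧ q ≠ s ∧ r ≠ s ∧
      (∀ w, w ∈ ({p, q, r, s} : Finset V) ↔ b w = b p) := by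
  have h4 := hb p
  set F := univ.filter (fun w => b w = b p) with hF
  have hp : p ∈ F := by simp [hF]
  have hq : q ∈ F := by simp [hF, hbpq]
  have hq' : q ∈ F.erase p := mem_erase.2 ⟨hpq.symm, hq⟩
  have h2 : ((F.erase p).erase q).card = 2 := by
    rw [card_erase_of_mem hq', card_erase_of_mem hp, h4]
  obtain ⟨r, s, hrs, hr⟩ := card_eq_two.1 h2
  have hr1 : r ∈ (F.erase p).erase q := by rw [hr]; simp
  have hs1 : s ∈ (F.erase p).erase q := by rw [hr]; simp
  simp only [mem_erase] at hr1 hs1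
  refine ⟨r, s, hr1.2.1.symm, hs1.2.1.symm, hr1.1.symm, hs1.1.symm, hrs, fun w => ?_⟩
  have key : w ∈ F ↔ w ∈ ({p, q, r, s} : Finset V) := by
    have : F = insert p (insert q {r, s}) := by
      rw [← hr, insert_erase hq', insert_erase hp]
    rw [this]
  rw [← key, hF]
  simp

/-- the function with given values at four points -/
def val4 (p q r : V) (x1 x2 x3 x4 : Fin 4) (v : V) : Fin 4 :=
  if v = p then x1 else if v = q then x2 else if v = r then x3 else x4

theorem val4_inj {p q r s : V} (hpq : p ≠ q) (hpr : p ≠ r) (hps : p ≠ s) (hqr : q ≠ r) (hqs : q ≠ s)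
    (hrs : r ≠ s) {x1 x2 x3 x4 : Fin 4} (h12 : x1 ≠ x2) (h13 : x1 ≠ x3) (h14 : x1 ≠ x4)
    (h23 : x2 ≠ x3) (h24 : x2 ≠ x4) (h34 : x3 ≠ x4) :
    ∀ v ∈ ({p, q, r, s} : Finset V), ∀ w ∈ ({p, q, r, s} : Finset V), v ≠ w →
      val4 p q r x1 x2 x3 x4 v ≠ val4 p q r x1 x2 x3 x4 w := by
  intro v hv w hw hvw
  simp only [mem_insert, mem_singleton] at hv hw
  rcases hv with rfl | rfl | rfl | rfl <;> rcases hw with rfl | rfl | rfl | rfl <;>
    simp_all [val4, Ne.symm, eq_comm]

/-! ### conjugation by a transposition -/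

/-- conjugate of `σ` by the transposition of `m` and `c` -/
def cj (m c : V) (σ : Perm V) : Perm V := swap m c * σ * swap m c

theorem cj_apply (m c : V) (σ : Perm V) (v : V) : cj m c σ v = swap m c (σ (swap m c v)) := rfl

theorem cj_keep {m c : V} {σ : Perm V} {v w : V} (h1 : v ≠ m) (h2 : v ≠ c) (h3 : w ≠ m) (h4 : w ≠ c)
    (h : σ v = w) : cj m c σ v = w := by
  rw [cj_apply, swap_apply_of_ne_of_ne h1 h2, h, swap_apply_of_ne_of_ne h3 h4]

theorem cj_left {m c : V} {σ : Perm V} {w : V} (h3 : w ≠ m) (h4 : w ≠ c)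
    (h : σ c = w) : cj m c σ m = w := by
  rw [cj_apply, swap_apply_left, h, swap_apply_of_ne_of_ne h3 h4]

theorem cj_right {m c : V} {σ : Perm V} {w : V} (h3 : w ≠ m) (h4 : w ≠ c)
    (h : σ m = w) : cj m c σ c = w := by
  rw [cj_apply, swap_apply_right, h, swap_apply_of_ne_of_ne h3 h4]

theorem cj_to_left {m c : V} {σ : Perm V} {v : V} (h1 : v ≠ m) (h2 : v ≠ c)
    (h : σ v = c) : cj m c σ v = m := by
  rw [cj_apply, swap_apply_of_ne_of_ne h1 h2, h, swap_apply_right]

theorem cj_to_right {m c : V} {σ : Perm V} {v : V} (h1 : v ≠ m) (h2 : v ≠ c)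
    (h : σ v = m) : cj m c σ v = c := by
  rw [cj_apply, swap_apply_of_ne_of_ne h1 h2, h, swap_apply_left]

theorem cj_card (m c : V) (σ : Perm V) : (cj m c σ).support.card = σ.support.card := by
  have : cj m c σ = swap m c * σ * (swap m c)⁻¹ := by rw [swap_inv]; rfl
  rw [this, Perm.card_support_conj]

/-- two consecutive vertices in a block -/
theorem red1 (σ : Perm V) (b : V → ℕ) (hb : Fib4 b)
    (ih : ∀ τ : Perm V, τ.support.card < σ.support.card → Col4 τ b)
    {a e : V} (hae : a ≠ e) (hσ : σ a = e) (hbe : b e = b a) : Col4 σ b := by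
  obtain ⟨r, s, har, has, her, hes, hrs, hz⟩ := block hb hae hbe
  have haz : a ∈ ({a, e, r, s} : Finset V) := by simp
  have hez : e ∈ ({a, e, r, s} : Finset V) := by simp
  have hrz : r ∈ ({a, e, r, s} : Finset V) := by simp
  have hsz : s ∈ ({a, e, r, s} : Finset V) := by simp
  have hz' : ∀ v ∈ ({a, e, r, s} : Finset V), ∀ w, b w = b v → w ∈ ({a, e, r, s} : Finset V) := by
    intro v hv w hw
    rw [hz] at hv ⊢
    rw [hw, hv]
  obtain ⟨a', ha'⟩ := σ.surjective a
  obtain ⟨r', hr'⟩ := σ.surjective r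
  obtain ⟨s', hs'⟩ := σ.surjective s
  by_cases hcase : (a' ∉ ({a, e, r, s} : Finset V) ∧ σ e ∉ ({a, e, r, s} : Finset V)) ∧ a' = σ e
  · -- triangle
    obtain ⟨⟨ht, -⟩, hta⟩ := hcase
    have hte : σ e = a' := hta.symm
    have hta' : a' ≠ a := fun h => ht (h ▸ haz)
    have hte' : a' ≠ e := fun h => ht (h ▸ hez)
    have htr : a' ≠ r := fun h => ht (h ▸ hrz)
    have hts : a' ≠ s := fun h => ht (h ▸ hsz)
    obtain ⟨c, hc1, hc2⟩ := ih (by4 a e r s (cj a' r σ)) (by
      have h := by4_card (p := a) (q := e) (r := r) (s := s) (ρ := cj a' r σ) (x := a) haz (by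
        rw [cj_keep (w := e) hta'.symm har hte'.symm her hσ]
        exact hae.symm)
      rwa [cj_card] at h)
    have hout : ∀ v w, v ∉ ({a, e, r, s} : Finset V) → w ∉ ({a, e, r, s} : Finset V) →
        cj a' r σ v = w → w ≠ v → c w ≠ c v := by
      intro v w hv hw h hne
      have h' := by4_out hv hw h
      have := hc1 v (by rw [h']; exact hne)
      rwa [h'] at this
    obtain ⟨x4, h4a, h4b, h4c⟩ := col_a (c a') (c (σ s)) (c s')
    obtain ⟨x1, x2, h12, h13, h14, h23, h24⟩ := col_c (c a') x4 h4a.symm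
    refine recolor σ b {a, e, r, s} hz' c (val4 a e r x1 x2 (c a') x4) ?_ hc2
      (val4_inj hae har has her hes hrs h12 h13 h14 h23 h24 h4a.symm) ?_ ?_
    · intro v hv hsv hne
      apply hout v (σ v) hv hsv _ hne
      apply cj_keep _ _ _ _ rfl
      · rintro rfl
        exact hsv (ha' ▸ haz)
      · rintro rfl
        exact hv hrz
      · intro h
        exact hv (by rw [σ.injective (h.trans hta)]; exact hez)
      · intro h
        exact hsv (h ▸ hrz)
    · intro v hv hsv
      simp only [mem_insert, mem_singleton] at hv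
      rcases hv with rfl | rfl | rfl | rfl
      · exact absurd (hσ ▸ hez) hsv
      · rw [hte]
        simpa [val4, hae.symm] using h23
      · have : c (σ v) ≠ c a' := by
          have hne : σ v ≠ a' := fun h => her (σ.injective (hte.trans h.symm))
          apply hout a' (σ v) ht hsv _ hne
          exact cj_left hne (fun h => hsv (by rw [h]; exact hrz)) rfl
        simpa [val4, har.symm, her.symm] using this.symm
      · simpa [val4, has.symm, hes.symm, hrs.symm] using h4b
    · intro v hv hsv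
      simp only [mem_insert, mem_singleton] at hsv
      rcases hsv with h | h | h | h
      · have : v = a' := σ.injective (h.trans ha'.symm)
        subst this
        rw [h]
        simpa [val4] using h13
      · exact absurd (by rw [σ.injective (h.trans hσ.symm)]; exact haz) hv
      · rw [h]
        have hne : a' ≠ v := by
          rintro rfl
          exact har (ha'.symm.trans h)
        have : c a' ≠ c v := by
          apply hout v a' hv ht _ hne
          exact cj_to_left hne.symm (fun h => hv (h ▸ hrz)) h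
        simpa [val4, har.symm, her.symm] using this
      · rw [h]
        have : v = s' := σ.injective (h.trans hs'.symm)
        subst this
        simpa [val4, has.symm, hes.symm, hrs.symm] using h4c
  · obtain ⟨c, hc1, hc2⟩ := ih (by4 a e r s σ) (by4_card (x := a) haz (by rw [hσ]; exact hae.symm))
    have hff : ∃ f1 f2 : Fin 4, f1 ≠ f2 ∧ (a' ∉ ({a, e, r, s} : Finset V) → f1 = c a') ∧
        (σ e ∉ ({a, e, r, s} : Finset V) → f2 = c (σ e)) := by
      by_cases h1 : a' ∈ ({a, e, r, s} : Finset V)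
      · obtain ⟨y, hy, -, -⟩ := col_a (c (σ e)) 0 0
        exact ⟨y, c (σ e), hy, fun h => absurd h1 h, fun _ => rfl⟩
      · by_cases h2 : σ e ∈ ({a, e, r, s} : Finset V)
        · obtain ⟨y, hy, -, -⟩ := col_a (c a') 0 0
          exact ⟨c a', y, hy.symm, fun _ => rfl, fun h => absurd h2 h⟩
        · have hne : a' ≠ σ e := fun h => hcase ⟨⟨h1, h2⟩, h⟩
          have h' := by4_chain2 (s := s) h1 h2 hae ha' hσ rfl
          have := hc1 a' (by rw [h']; exact hne.symm)
          rw [h'] at this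
          exact ⟨c a', c (σ e), this.symm, fun _ => rfl, fun _ => rfl⟩
    obtain ⟨f1, f2, hf, hf1, hf2⟩ := hff
    obtain ⟨x3, -, h3b, h3c⟩ := col_a 0 (c (σ r)) (c r')
    obtain ⟨x4, h4a, h4b, h4c⟩ := col_a x3 (c (σ s)) (c s')
    obtain ⟨x1, x2, h12, h13, h14, h23, h24, h1f, h2f⟩ := col_b x3 x4 f1 f2 h4a.symm hf
    refine recolor σ b {a, e, r, s} hz' c (val4 a e r x1 x2 x3 x4) ?_ hc2
      (val4_inj hae har has her hes hrs h12 h13 h14 h23 h24 h4a.symm) ?_ ?_
    · intro v hv hsv hne
      have h' := by4_out hv hsv rfl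
      have := hc1 v (by rw [h']; exact hne)
      rwa [h'] at this
    · intro v hv hsv
      simp only [mem_insert, mem_singleton] at hv
      rcases hv with rfl | rfl | rfl | rfl
      · exact absurd (hσ ▸ hez) hsv
      · rw [← hf2 hsv]
        simpa [val4, hae.symm] using h2f
      · simpa [val4, har.symm, her.symm] using h3b
      · simpa [val4, has.symm, hes.symm, hrs.symm] using h4b
    · intro v hv hsv
      simp only [mem_insert, mem_singleton] at hsv
      rcases hsv with h | h | h | h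
      · have : v = a' := σ.injective (h.trans ha'.symm)
        subst this
        rw [h, ← hf1 hv]
        simpa [val4] using h1f
      · exact absurd (by rw [σ.injective (h.trans hσ.symm)]; exact haz) hv
      · rw [h]
        have : v = r' := σ.injective (h.trans hr'.symm)
        subst this
        simpa [val4, har.symm, her.symm] using h3c
      · rw [h]
        have : v = s' := σ.injective (h.trans hs'.symm)
        subst this
        simpa [val4, has.symm, hes.symm, hrs.symm] using h4c

/-- two vertices of a block at distance two, no edge inside a block -/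
theorem red3 (σ : Perm V) (b : V → ℕ) (hb : Fib4 b)
    (ih : ∀ τ : Perm V, τ.support.card < σ.support.card → Col4 τ b)
    (hE : ∀ v, σ v ≠ v → b (σ v) ≠ b v)
    {u m w : V} (huw : u ≠ w) (hum : σ u = m) (hmw : σ m = w) (hbw : b w = b u) : Col4 σ b := by
  obtain ⟨c0, d, huc, hud, hwc, hwd, hcd, hz⟩ := block hb huw hbw
  have hmu : m ≠ u := by
    rintro rfl
    exact huw (hum.symm.trans hmw)
  have hmw' : m ≠ w := by
    rintro rfl
    exact hmu.symm (σ.injective (hum.trans hmw.symm))
  have hz2 : ∀ v, v ∈ ({u, c0, w, d} : Finset V) ↔ b v = b u := by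
    intro v
    rw [← hz v]
    simp only [mem_insert, mem_singleton]
    tauto
  have huz : u ∈ ({u, c0, w, d} : Finset V) := by simp
  have hwz : w ∈ ({u, c0, w, d} : Finset V) := by simp
  have hcz : c0 ∈ ({u, c0, w, d} : Finset V) := by simp
  have hdz : d ∈ ({u, c0, w, d} : Finset V) := by simp
  have hz' : ∀ v ∈ ({u, c0, w, d} : Finset V), ∀ w', b w' = b v →
      w' ∈ ({u, c0, w, d} : Finset V) := by
    intro v hv w' hw
    rw [hz2] at hv ⊢
    rw [hw, hv]
  have hm : m ∉ ({u, c0, w, d} : Finset V) := by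
    rw [hz2]
    have := hE u (by rw [hum]; exact hmu)
    rwa [hum] at this
  have hmc : m ≠ c0 := fun h => hm (h ▸ hcz)
  have hmd : m ≠ d := fun h => hm (h ▸ hdz)
  obtain ⟨u', hu'⟩ := σ.surjective u
  obtain ⟨d', hd'⟩ := σ.surjective d
  have hu'u : u' ≠ u := by
    rintro rfl
    exact hmu (hum.symm.trans hu')
  have hwne : σ w ≠ w := by
    intro h
    exact hmw' (σ.injective (hmw.trans h.symm))
  have hu'z : u' ∉ ({u, c0, w, d} : Finset V) := by
    rw [hz2]
    have := hE u' (by rw [hu']; exact hu'u.symm)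
    rw [hu'] at this
    exact this.symm
  have hw'z : σ w ∉ ({u, c0, w, d} : Finset V) := by
    rw [hz2, ← hbw]
    exact hE w hwne
  have hu'm : u' ≠ m := by
    rintro rfl
    exact huw (hu'.symm.trans hmw)
  have hw'm : σ w ≠ m := by
    intro h
    exact huw (σ.injective (hum.trans h.symm))
  have hc' : σ c0 ≠ m := fun h => huc (σ.injective (hum.trans h.symm))
  by_cases hcase : u' = σ w
  · -- 4-cycle
    have hwp : σ w = u' := hcase.symm
    have hpc : u' ≠ c0 := fun h => hu'z (h ▸ hcz)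
    have hpd : u' ≠ d := fun h => hu'z (h ▸ hdz)
    have hpw : u' ≠ w := fun h => hu'z (h ▸ hwz)
    set ρ := cj u' d (cj m c0 σ) with hρ
    have hρu : ρ u = c0 := by
      apply cj_keep hu'u.symm hud hpc.symm hcd
      exact cj_to_right hmu.symm huc hum
    obtain ⟨c, hc1, hc2⟩ := ih (by4 u c0 w d ρ) (by
      have h := by4_card (p := u) (q := c0) (r := w) (s := d) (ρ := ρ) (x := u) huz (by
        rw [hρu]
        exact huc.symm)
      rwa [hρ, cj_card, cj_card, ← hρ] at h)
    have hout : ∀ v w', v ∉ ({u, c0, w, d} : Finset V) → w' ∉ ({u, c0, w, d} : Finset V) →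
        ρ v = w' → w' ≠ v → c w' ≠ c v := by
      intro v w' hv hw h hne
      have h' := by4_out hv hw h
      have := hc1 v (by rw [h']; exact hne)
      rwa [h'] at this
    -- the neighbours of `d`
    have hdo : σ d ∉ ({u, c0, w, d} : Finset V) → c (σ d) ≠ c u' := by
      intro h
      have h1 : σ d ≠ u' := fun h' => hwd (σ.injective (hwp.trans h'.symm))
      have h2 : σ d ≠ m := fun h' => hud (σ.injective (hum.trans h'.symm))
      apply hout u' (σ d) hu'z h _ h1
      apply cj_left h1 (fun h' => h (by rw [h']; exact hdz))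
      exact cj_keep hmd.symm hcd.symm h2 (fun h' => h (by rw [h']; exact hcz)) rfl
    have hdi : d' ∉ ({u, c0, w, d} : Finset V) → c u' ≠ c d' := by
      intro h
      have h1 : d' ≠ u' := by
        rintro rfl
        exact hud (hu'.symm.trans hd')
      have h2 : d' ≠ m := by
        rintro rfl
        exact hwd (hmw.symm.trans hd')
      apply hout d' u' h hu'z _ h1.symm
      apply cj_to_left h1 (fun h' => h (by rw [h']; exact hdz))
      exact cj_keep h2 (fun h' => h (by rw [h']; exact hcz)) hmd.symm hcd.symm hd'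
    have hx4 : ∃ x4 : Fin 4, x4 ≠ c m ∧ (σ d ∉ ({u, c0, w, d} : Finset V) → x4 ≠ c (σ d)) ∧
        (d' ∉ ({u, c0, w, d} : Finset V) → x4 ≠ c d') ∧ (c u' = c m ∨ c u' = x4) := by
      by_cases h : c u' = c m
      · obtain ⟨y, h1, h2, h3⟩ := col_a (c m) (c (σ d)) (c d')
        exact ⟨y, h1, fun _ => h2, fun _ => h3, Or.inl h⟩
      · exact ⟨c u', h, fun h' => (hdo h').symm, hdi, Or.inr rfl⟩
    obtain ⟨x4, h4a, h4b, h4c, h4d⟩ := hx4
    obtain ⟨x1, x2, h12, h13, h14, h23, h24⟩ := col_c (c m) x4 h4a.symm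
    have hx1p : x1 ≠ c u' := by
      rcases h4d with h | h
      · rw [h]; exact h13
      · rw [h]; exact h14
    have hx2p : x2 ≠ c u' := by
      rcases h4d with h | h
      · rw [h]; exact h23
      · rw [h]; exact h24
    refine recolor σ b {u, c0, w, d} hz' c (val4 u c0 w x1 (c m) x2 x4) ?_ hc2
      (val4_inj huc huw hud hwc.symm hcd hwd h13 h12 h14 h23.symm h4a.symm h24) ?_ ?_
    · intro v hv hsv hne
      apply hout v (σ v) hv hsv _ hne
      have h1 : v ≠ m := by
        rintro rfl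
        exact hsv (hmw ▸ hwz)
      have h2 : σ v ≠ m := by
        intro h
        exact hv (by rw [σ.injective (h.trans hum.symm)]; exact huz)
      have h3 : v ≠ u' := by
        rintro rfl
        exact hsv (hu' ▸ huz)
      have h4 : σ v ≠ u' := by
        intro h
        exact hv (by rw [σ.injective (h.trans hwp.symm)]; exact hwz)
      have h5 : v ≠ c0 := fun h => hv (h ▸ hcz)
      have h6 : v ≠ d := fun h => hv (h ▸ hdz)
      have h7 : σ v ≠ c0 := fun h => hsv (h ▸ hcz)
      have h8 : σ v ≠ d := fun h => hsv (h ▸ hdz)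
      exact cj_keep h3 h6 h4 h8 (cj_keep h1 h5 h2 h7 rfl)
    · intro v hv hsv
      simp only [mem_insert, mem_singleton] at hv
      rcases hv with rfl | rfl | rfl | rfl
      · rw [hum]
        simpa [val4] using h13
      · have h5 : σ v ≠ u' := fun h => hwc (σ.injective (hwp.trans h.symm))
        have : c (σ v) ≠ c m := by
          apply hout m (σ v) hm hsv _ hc'
          apply cj_keep hu'm.symm hmd h5 (fun h => hsv (by rw [h]; exact hdz))
          exact cj_left hc' (fun h => hsv (by rw [h]; exact hcz)) rfl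
        simpa [val4, huc.symm] using this.symm
      · rw [hwp]
        simpa [val4, huw.symm, hwc] using hx2p
      · simpa [val4, hud.symm, hcd.symm, hwd.symm] using h4b hsv
    · intro v hv hsv
      simp only [mem_insert, mem_singleton] at hsv
      rcases hsv with h | h | h | h
      · have : v = u' := σ.injective (h.trans hu'.symm)
        rw [h, this]
        simpa [val4] using hx1p
      · rw [h]
        have h1 : v ≠ m := by
          rintro rfl
          exact hwc (hmw.symm.trans h)
        have h3 : v ≠ u' := by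
          rintro rfl
          exact huc (hu'.symm.trans h)
        have : c m ≠ c v := by
          apply hout v m hv hm _ h1.symm
          apply cj_keep h3 (fun h => hv (h ▸ hdz)) hu'm.symm hmd
          exact cj_to_left h1 (fun h => hv (h ▸ hcz)) h
        simpa [val4, huc.symm] using this
      · have : v = m := σ.injective (h.trans hmw.symm)
        rw [h, this]
        simpa [val4, huw.symm, hwc] using h23
      · have : v = d' := σ.injective (h.trans hd'.symm)
        subst this
        rw [h]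
        simpa [val4, hud.symm, hcd.symm, hwd.symm] using h4c hv
  · set ρ := cj m c0 σ with hρ
    have hρu : ρ u = c0 := cj_to_right hmu.symm huc hum
    have hρc : ρ c0 = w := cj_right hmw'.symm hwc hmw
    have hρu' : ρ u' = u := cj_keep hu'm (fun h => hu'z (h ▸ hcz)) hmu.symm huc hu'
    have hρw : ρ w = σ w := cj_keep hmw'.symm hwc hw'm (fun h => hw'z (h ▸ hcz)) rfl
    obtain ⟨c, hc1, hc2⟩ := ih (by4 u c0 w d ρ) (by
      have h := by4_card (p := u) (q := c0) (r := w) (s := d) (ρ := ρ) (x := u) huz (by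
        rw [hρu]
        exact huc.symm)
      rwa [hρ, cj_card, ← hρ] at h)
    have hout : ∀ v w', v ∉ ({u, c0, w, d} : Finset V) → w' ∉ ({u, c0, w, d} : Finset V) →
        ρ v = w' → w' ≠ v → c w' ≠ c v := by
      intro v w' hv hw h hne
      have h' := by4_out hv hw h
      have := hc1 v (by rw [h']; exact hne)
      rwa [h'] at this
    have hf : c (σ w) ≠ c u' := by
      have h' := by4_chain3 (s := d) hu'z hw'z huc huw hwc.symm hρu' hρu hρc hρw
      have := hc1 u' (by rw [h']; exact fun h => hcase h.symm)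
      rwa [h'] at this
    obtain ⟨x4, h4a, h4b, h4c⟩ := col_a (c m) (c (σ d)) (c d')
    obtain ⟨x1, x2, h12, h13, h14, h23, h24, h1f, h2f⟩ := col_b (c m) x4 (c u') (c (σ w)) h4a.symm
      hf.symm
    refine recolor σ b {u, c0, w, d} hz' c (val4 u c0 w x1 (c m) x2 x4) ?_ hc2
      (val4_inj huc huw hud hwc.symm hcd hwd h13 h12 h14 h23.symm h4a.symm h24) ?_ ?_
    · intro v hv hsv hne
      apply hout v (σ v) hv hsv _ hne
      have h1 : v ≠ m := by
        rintro rfl
        exact hsv (hmw ▸ hwz)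
      have h2 : σ v ≠ m := by
        intro h
        exact hv (by rw [σ.injective (h.trans hum.symm)]; exact huz)
      have h5 : v ≠ c0 := fun h => hv (h ▸ hcz)
      have h7 : σ v ≠ c0 := fun h => hsv (h ▸ hcz)
      exact cj_keep h1 h5 h2 h7 rfl
    · intro v hv hsv
      simp only [mem_insert, mem_singleton] at hv
      rcases hv with rfl | rfl | rfl | rfl
      · rw [hum]
        simpa [val4] using h13
      · have : c (σ v) ≠ c m := by
          apply hout m (σ v) hm hsv _ hc'
          exact cj_left hc' (fun h => hsv (by rw [h]; exact hcz)) rfl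
        simpa [val4, huc.symm] using this.symm
      · simpa [val4, huw.symm, hwc] using h2f
      · simpa [val4, hud.symm, hcd.symm, hwd.symm] using h4b
    · intro v hv hsv
      simp only [mem_insert, mem_singleton] at hsv
      rcases hsv with h | h | h | h
      · have : v = u' := σ.injective (h.trans hu'.symm)
        rw [h, this]
        simpa [val4] using h1f
      · rw [h]
        have h1 : v ≠ m := by
          rintro rfl
          exact hwc (hmw.symm.trans h)
        have : c m ≠ c v := by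
          apply hout v m hv hm _ h1.symm
          exact cj_to_left h1 (fun h => hv (h ▸ hcz)) h
        simpa [val4, huc.symm] using this
      · have : v = m := σ.injective (h.trans hmw.symm)
        rw [h, this]
        simpa [val4, huw.symm, hwc] using h23
      · have : v = d' := σ.injective (h.trans hd'.symm)
        subst this
        rw [h]
        simpa [val4, hud.symm, hcd.symm, hwd.symm] using h4c

/-- **Reduction.** -/
theorem reduction (σ : Perm V) (b : V → ℕ) (hb : Fib4 b)
    (ih : ∀ τ : Perm V, τ.support.card < σ.support.card → Col4 τ b) : Col4 σ b ∨ RC σ b := by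
  by_cases h1 : ∃ a, σ a ≠ a ∧ b (σ a) = b a
  · obtain ⟨a, ha, hba⟩ := h1
    exact Or.inl (red1 σ b hb ih ha.symm rfl hba)
  · have hE : ∀ v, σ v ≠ v → b (σ v) ≠ b v := fun v hv hbv => h1 ⟨v, hv, hbv⟩
    by_cases h2 : ∃ u, σ (σ u) ≠ u ∧ b (σ (σ u)) = b u
    · obtain ⟨u, hu, hbu⟩ := h2
      exact Or.inl (red3 σ b hb ih hE hu.symm rfl rfl hbu)
    · exact Or.inr fun v => ⟨hE v, fun hv hbv => h2 ⟨v, hv, hbv⟩⟩

end S4C
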