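import Pool.Agent.LibS4C.Defs
set_option autoImplicit false
namespace S4C
open Finset

/-- the stuck set and the rank function on the other doubles -/
theorem stuck {V : Type} [Fintype V] [DecidableEq V] (σ : Equiv.Perm V) (b : V → ℕ) (Sp : Finset V)
    (D : Finset ℕ) (hV : Nonempty V) :
    ∃ (S : Finset ℕ) (r : ℕ → ℕ) (t : ℕ → V), S ⊆ D ∧
      (∀ a ∈ Sp, b a ∈ S → b (σ a) ∈ S ∨ b (σ⁻¹ a) ∈ S) ∧
      (∀ z ∈ D, z ∉ S → t z ∈ Sp ∧ b (t z) = z ∧
        (b (σ (t z)) ∈ D → b (σ (t z)) ∉ S ∧ r (b (σ (t z))) < r z) ∧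
        (b (σ⁻¹ (t z)) ∈ D → b (σ⁻¹ (t z)) ∉ S ∧ r (b (σ⁻¹ (t z))) < r z)) := by
  classical
  have key : ∀ n : ℕ, ∀ (S : Finset ℕ) (r : ℕ → ℕ) (t : ℕ → V), S.card = n → S ⊆ D →
      (∀ z ∈ D, z ∉ S → r z < (D \ S).card) →
      (∀ z ∈ D, z ∉ S → t z ∈ Sp ∧ b (t z) = z ∧
        (b (σ (t z)) ∈ D → b (σ (t z)) ∉ S ∧ r (b (σ (t z))) < r z) ∧
        (b (σ⁻¹ (t z)) ∈ D → b (σ⁻¹ (t z)) ∉ S ∧ r (b (σ⁻¹ (t z))) < r z)) →
      ∃ (S : Finset ℕ) (r : ℕ → ℕ) (t : ℕ → V), S ⊆ D ∧
      (∀ a ∈ Sp, b a ∈ S → b (σ a) ∈ S ∨ b (σ⁻¹ a) ∈ S) ∧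
      (∀ z ∈ D, z ∉ S → t z ∈ Sp ∧ b (t z) = z ∧
        (b (σ (t z)) ∈ D → b (σ (t z)) ∉ S ∧ r (b (σ (t z))) < r z) ∧
        (b (σ⁻¹ (t z)) ∈ D → b (σ⁻¹ (t z)) ∉ S ∧ r (b (σ⁻¹ (t z))) < r z)) := by
    intro n
    induction n with
    | zero =>
      intro S r t hc hSD hr ht
      have : S = ∅ := card_eq_zero.mp hc
      subst this
      exact ⟨∅, r, t, hSD, by simp, ht⟩
    | succ n ih =>
      intro S r t hc hSD hr ht
      by_cases hcl : ∀ a ∈ Sp, b a ∈ S → b (σ a) ∈ S ∨ b (σ⁻¹ a) ∈ S
      · exact ⟨S, r, t, hSD, hcl, ht⟩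
      · push Not at hcl
        obtain ⟨a, haSp, haS, h1, h2⟩ := hcl
        set z := b a with hz
        have hzD : z ∈ D := hSD haS
        have hne1 : b (σ a) ≠ z := fun h => h1 (h ▸ haS)
        have hne2 : b (σ⁻¹ a) ≠ z := fun h => h2 (h ▸ haS)
        have hcard : (D \ (S.erase z)).card = (D \ S).card + 1 := by
          have : D \ (S.erase z) = insert z (D \ S) := by
            ext y
            simp only [mem_sdiff, mem_erase, mem_insert, not_and, ne_eq]
            constructor
            · rintro ⟨hyD, h⟩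
              by_cases hy : y = z
              · exact Or.inl hy
              · exact Or.inr ⟨hyD, h hy⟩
            · rintro (rfl | ⟨hyD, hyS⟩)
              · exact ⟨hzD, fun h => absurd rfl h⟩
              · exact ⟨hyD, fun _ => hyS⟩
          rw [this, card_insert_of_notMem (by simp [haS])]
        refine ih (S.erase z) (Function.update r z ((D \ S).card)) (Function.update t z a) ?_
          ((erase_subset _ _).trans hSD) ?_ ?_
        · rw [card_erase_of_mem haS, hc]; rfl
        · intro y hyD hyS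
          rw [hcard]
          by_cases hy : y = z
          · subst hy; simp
          · rw [Function.update_of_ne hy]
            have : y ∉ S := fun h => hyS (mem_erase.mpr ⟨hy, h⟩)
            exact lt_trans (hr y hyD this) (Nat.lt_succ_self _)
        · intro y hyD hyS
          by_cases hy : y = z
          · subst hy
            simp only [Function.update_self]
            refine ⟨haSp, rfl, ?_, ?_⟩
            · intro hD
              refine ⟨fun h => h1 (mem_of_mem_erase h), ?_⟩
              rw [Function.update_of_ne hne1]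
              exact hr _ hD h1
            · intro hD
              refine ⟨fun h => h2 (mem_of_mem_erase h), ?_⟩
              rw [Function.update_of_ne hne2]
              exact hr _ hD h2
          · have hyS' : y ∉ S := fun h => hyS (mem_erase.mpr ⟨hy, h⟩)
            obtain ⟨q1, q2, q3, q4⟩ := ht y hyD hyS'
            rw [Function.update_of_ne hy]
            refine ⟨q1, q2, ?_, ?_⟩
            · intro hD
              obtain ⟨w1, w2⟩ := q3 hD
              refine ⟨fun h => w1 (mem_of_mem_erase h), ?_⟩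
              have hne : b (σ (t y)) ≠ z := fun h => w1 (by rw [h]; exact haS)
              rw [Function.update_of_ne hne, Function.update_of_ne hy]
              exact w2
            · intro hD
              obtain ⟨w1, w2⟩ := q4 hD
              refine ⟨fun h => w1 (mem_of_mem_erase h), ?_⟩
              have hne : b (σ⁻¹ (t y)) ≠ z := fun h => w1 (by rw [h]; exact haS)
              rw [Function.update_of_ne hne, Function.update_of_ne hy]
              exact w2
  exact key D.card D (fun _ => 0) (fun _ => hV.some) rfl (le_refl _)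
    (fun z hz hz' => absurd hz hz') (fun z hz hz' => absurd hz hz')

end S4C
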