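import Pool.Agent.LibS4C.Defs
set_option autoImplicit false

/-! Module ZONE of the strong 4-colouring proof: choice of special vertices and of the zone `R`. -/
namespace S4C
namespace ZoneAux
open Finset Classical

variable {V : Type} [Fintype V] [DecidableEq V]

theorem cyc3_zpow {σ : Equiv.Perm V} {v : V} (h : Cyc3 σ v) (i : ℤ) : Cyc3 σ ((σ ^ i) v) := by
  have e1 : σ ((σ ^ i) v) = (σ ^ i) (σ v) := by
    have := congrArg (fun p : Equiv.Perm V => p v) ((Commute.refl σ).zpow_right i).eq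
    simpa [Equiv.Perm.mul_apply] using this
  have e2 : σ (σ ((σ ^ i) v)) = (σ ^ i) (σ (σ v)) := by
    rw [e1]
    have := congrArg (fun p : Equiv.Perm V => p (σ v)) ((Commute.refl σ).zpow_right i).eq
    simpa [Equiv.Perm.mul_apply] using this
  refine ⟨?_, ?_⟩
  · rw [e1]
    intro hh
    exact h.1 ((σ ^ i).injective hh)
  · rw [e2]
    intro hh
    exact h.2 ((σ ^ i).injective hh)

theorem cyc3_same {σ : Equiv.Perm V} {v w : V} (hs : σ.SameCycle v w) (h : Cyc3 σ v) : Cyc3 σ w := by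
  obtain ⟨i, rfl⟩ := hs
  exact cyc3_zpow h i

/-- one special vertex on every cycle of length at least three -/
def Valid (σ : Equiv.Perm V) (Sp : Finset V) : Prop :=
  (∀ a ∈ Sp, Cyc3 σ a) ∧ (∀ a ∈ Sp, ∀ a' ∈ Sp, σ.SameCycle a a' → a = a') ∧
    (∀ v, Cyc3 σ v → ∃ a ∈ Sp, σ.SameCycle v a)

theorem exists_valid (σ : Equiv.Perm V) : ∃ Sp : Finset V, Valid σ Sp := by
  let s : Setoid V := ⟨σ.SameCycle, Equiv.Perm.SameCycle.equivalence σ⟩
  let rep : V → V := fun v => (Quotient.mk s v).out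
  have hrep : ∀ v, σ.SameCycle (rep v) v := fun v => Quotient.exact (Quotient.out_eq (Quotient.mk s v))
  have hrr : ∀ v w, σ.SameCycle v w → rep v = rep w := by
    intro v w h
    have : Quotient.mk s v = Quotient.mk s w := Quotient.sound h
    simp only [rep, this]
  refine ⟨(univ.filter (fun v => Cyc3 σ v)).image rep, ?_, ?_, ?_⟩
  · intro a ha
    obtain ⟨v, hv, rfl⟩ := mem_image.1 ha
    exact cyc3_same (hrep v).symm (mem_filter.1 hv).2
  · intro a ha a' ha' h
    obtain ⟨v, hv, rfl⟩ := mem_image.1 ha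
    obtain ⟨v', hv', rfl⟩ := mem_image.1 ha'
    exact hrr v v' ((hrep v).symm.trans (h.trans (hrep v')))
  · intro v hv
    exact ⟨rep v, mem_image.2 ⟨v, mem_filter.2 ⟨mem_univ _, hv⟩, rfl⟩, (hrep v).symm⟩

/-- the potential -/
noncomputable def Phi (b : V → ℕ) (Sp : Finset V) : ℕ := ∑ y ∈ univ.image b, (mult b Sp y) ^ 2

/-- moving the special vertex `a` to `w` -/
def shift (Sp : Finset V) (a w : V) : Finset V := insert w (Sp.erase a)

theorem shift_valid {σ : Equiv.Perm V} {Sp : Finset V} (h : Valid σ Sp) {a w : V} (ha : a ∈ Sp)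
    (hw : σ.SameCycle a w) : Valid σ (shift Sp a w) := by
  refine ⟨?_, ?_, ?_⟩
  · intro x hx
    rcases mem_insert.1 hx with rfl | hx
    · exact cyc3_same hw (h.1 a ha)
    · exact h.1 x (mem_of_mem_erase hx)
  · intro x hx x' hx' hs
    rcases mem_insert.1 hx with hx1 | hx1
    · rcases mem_insert.1 hx' with hx2 | hx2
      · rw [hx1, hx2]
      · exfalso
        rw [hx1] at hs
        have := h.2.1 a ha x' (mem_of_mem_erase hx2) (hw.trans hs)
        exact (mem_erase.1 hx2).1 this.symm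
    · rcases mem_insert.1 hx' with hx2 | hx2
      · exfalso
        rw [hx2] at hs
        have := h.2.1 a ha x (mem_of_mem_erase hx1) (hw.trans hs.symm)
        exact (mem_erase.1 hx1).1 this.symm
      · exact h.2.1 x (mem_of_mem_erase hx1) x' (mem_of_mem_erase hx2) hs
  · intro v hv
    obtain ⟨a', ha', hs⟩ := h.2.2 v hv
    by_cases e : a' = a
    · subst e
      exact ⟨w, mem_insert_self _ _, hs.trans hw⟩
    · exact ⟨a', mem_insert_of_mem (mem_erase.2 ⟨e, ha'⟩), hs⟩

theorem mult_shift {σ : Equiv.Perm V} {b : V → ℕ} {Sp : Finset V} (h : Valid σ Sp) {a w : V} (ha : a ∈ Sp)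
    (hw : σ.SameCycle a w) (hne : b w ≠ b a) (y : ℕ) :
    mult b (shift Sp a w) y + (if y = b a then 1 else 0) = mult b Sp y + (if y = b w then 1 else 0) := by
  have hwS : w ∉ Sp := by
    intro hmem
    have := h.2.1 a ha w hmem hw
    exact hne (by rw [this])
  unfold mult shift
  rw [filter_insert, filter_erase]
  by_cases h1 : b w = y
  · subst h1
    simp only [if_true, if_neg hne, add_zero]
    have hna : a ∉ Sp.filter (fun x => b x = b w) := by
      intro hh
      exact hne ((mem_filter.1 hh).2).symm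
    rw [erase_eq_of_notMem hna, card_insert_of_notMem]
    · intro hh
      exact hwS (mem_filter.1 hh).1
  · have h1' : y ≠ b w := fun hh => h1 hh.symm
    simp only [if_neg h1, if_neg h1', add_zero]
    by_cases h2 : y = b a
    · subst h2
      simp only [if_true]
      rw [card_erase_of_mem (show a ∈ Sp.filter (fun x => b x = b a) from mem_filter.2 ⟨ha, rfl⟩)]
      have : 0 < (Sp.filter (fun x => b x = b a)).card := card_pos.2 ⟨a, mem_filter.2 ⟨ha, rfl⟩⟩
      omega
    · simp only [if_neg h2, add_zero]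
      rw [erase_eq_of_notMem]
      intro hh
      exact h2 ((mem_filter.1 hh).2).symm

theorem phi_shift {σ : Equiv.Perm V} {b : V → ℕ} {Sp : Finset V} (h : Valid σ Sp) {a w : V} (ha : a ∈ Sp)
    (hw : σ.SameCycle a w) (hne : b w ≠ b a) :
    Phi b (shift Sp a w) + 2 * mult b Sp (b a) = Phi b Sp + 2 * mult b Sp (b w) + 2 := by
  have key := mult_shift (b := b) h ha hw hne
  unfold Phi
  have ma : b a ∈ univ.image b := mem_image_of_mem _ (mem_univ _)
  have mw : b w ∈ (univ.image b).erase (b a) := mem_erase.2 ⟨hne, mem_image_of_mem _ (mem_univ _)⟩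
  rw [← add_sum_erase _ _ ma, ← add_sum_erase _ _ mw, ← add_sum_erase (univ.image b) _ ma,
    ← add_sum_erase ((univ.image b).erase (b a)) _ mw]
  have ea := key (b a)
  have ew := key (b w)
  rw [if_pos rfl, if_neg (fun hh => hne hh.symm)] at ea
  rw [if_neg hne, if_pos rfl] at ew
  have erest : ∑ y ∈ ((univ.image b).erase (b a)).erase (b w), (mult b (shift Sp a w) y) ^ 2
      = ∑ y ∈ ((univ.image b).erase (b a)).erase (b w), (mult b Sp y) ^ 2 := by
    refine sum_congr rfl ?_
    intro y hy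
    have hy1 := (mem_erase.1 hy).1
    have hy2 := (mem_erase.1 (mem_erase.1 hy).2).1
    have := key y
    rw [if_neg hy2, if_neg hy1] at this
    simp only [add_zero] at this
    rw [this]
  rw [erest]
  have ea' : mult b Sp (b a) = mult b (shift Sp a w) (b a) + 1 := by omega
  have ew' : mult b (shift Sp a w) (b w) = mult b Sp (b w) + 1 := by omega
  rw [ea', ew']
  ring

/-- one step of the reachability relation between blocks -/
def Step (σ : Equiv.Perm V) (b : V → ℕ) (Sp : Finset V) (y y' : ℕ) : Prop :=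
  ∃ a ∈ Sp, b a = y ∧ ∃ w, σ.SameCycle a w ∧ b w = y'

/-- paths of given length -/
def PathN (σ : Equiv.Perm V) (b : V → ℕ) (Sp : Finset V) : ℕ → ℕ → ℕ → Prop
  | 0, y, y' => y = y'
  | (n + 1), y, y' => ∃ y1, Step σ b Sp y y1 ∧ PathN σ b Sp n y1 y'

theorem path_shift (σ : Equiv.Perm V) (b : V → ℕ) (Sp : Finset V) (a w : V) :
    ∀ n y y', PathN σ b Sp n y y' → PathN σ b (shift Sp a w) n y y' ∨ ∃ k ≤ n, PathN σ b Sp k (b a) y' := by
  intro n
  induction n with
  | zero => intro y y' h; exact Or.inl h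
  | succ n ih =>
    intro y y' h
    obtain ⟨y1, ⟨a1, ha1, hb1, w1, hs, hw1⟩, hp⟩ := h
    by_cases e : a1 = a
    · right
      subst e
      exact ⟨n + 1, le_rfl, y1, ⟨a1, ha1, rfl, w1, hs, hw1⟩, hp⟩
    · rcases ih y1 y' hp with h1 | ⟨k, hk, h1⟩
      · left
        exact ⟨y1, ⟨a1, mem_insert_of_mem (mem_erase.2 ⟨e, ha1⟩), hb1, w1, hs, hw1⟩, h1⟩
      · right
        exact ⟨k, by omega, h1⟩

theorem path_snoc (σ : Equiv.Perm V) (b : V → ℕ) (Sp : Finset V) :
    ∀ n y y' y'', PathN σ b Sp n y y' → Step σ b Sp y' y'' → PathN σ b Sp (n + 1) y y'' := by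
  intro n
  induction n with
  | zero =>
    intro y y' y'' h hs
    have : y = y' := h
    subst this
    exact ⟨y'', hs, rfl⟩
  | succ n ih =>
    intro y y' y'' h hs
    obtain ⟨y1, h1, hp⟩ := h
    exact ⟨y1, h1, ih y1 y' y'' hp hs⟩

/-- minimisers of the potential among the valid choices -/
def IsMin (σ : Equiv.Perm V) (b : V → ℕ) (Sp : Finset V) : Prop :=
  Valid σ Sp ∧ ∀ Sp', Valid σ Sp' → Phi b Sp ≤ Phi b Sp'

theorem exists_min (σ : Equiv.Perm V) (b : V → ℕ) : ∃ Sp : Finset V, IsMin σ b Sp := by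
  obtain ⟨Sp0, h0⟩ := exists_valid σ
  obtain ⟨Sp, hSp, hmin⟩ := exists_min_image (univ.filter (fun Sp : Finset V => Valid σ Sp)) (Phi b)
    ⟨Sp0, mem_filter.2 ⟨mem_univ _, h0⟩⟩
  exact ⟨Sp, (mem_filter.1 hSp).2, fun Sp' h' => hmin Sp' (mem_filter.2 ⟨mem_univ _, h'⟩)⟩

theorem z1 (σ : Equiv.Perm V) (b : V → ℕ) :
    ∀ n, ∀ Sp, IsMin σ b Sp → ∀ y y', PathN σ b Sp n y y' → mult b Sp y ≤ mult b Sp y' + 1 := by
  intro n
  induction n using Nat.strong_induction_on with
  | _ n ih =>
    intro Sp hmin y y' hp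
    cases n with
    | zero =>
      have : y = y' := hp
      subst this
      omega
    | succ n =>
      obtain ⟨y1, ⟨a, ha, hb, w, hs, hw⟩, hp⟩ := hp
      subst hb
      subst hw
      by_cases e : b w = b a
      · rw [e] at hp
        exact ih n (by omega) Sp hmin _ _ hp
      · have hphi := phi_shift (b := b) hmin.1 ha hs e
        have hv := shift_valid hmin.1 ha hs
        have hle := hmin.2 _ hv
        have h1 : mult b Sp (b a) ≤ mult b Sp (b w) + 1 := by omega
        by_cases h2 : mult b Sp (b a) ≤ mult b Sp (b w)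
        · have := ih n (by omega) Sp hmin _ _ hp
          omega
        · have h3 : mult b Sp (b a) = mult b Sp (b w) + 1 := by omega
          have hmin' : IsMin σ b (shift Sp a w) := by
            refine ⟨hv, ?_⟩
            intro Sp' h'
            have := hmin.2 Sp' h'
            omega
          rcases path_shift σ b Sp a w n (b w) y' hp with h4 | ⟨k, hk, h4⟩
          · have h5 := ih n (by omega) _ hmin' _ _ h4
            have key := mult_shift (b := b) hmin.1 ha hs e
            have ew := key (b w)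
            rw [if_neg e, if_pos rfl] at ew
            have ey := key y'
            by_cases c1 : y' = b w
            · subst c1
              omega
            · rw [if_neg c1] at ey
              by_cases c2 : y' = b a
              · subst c2
                omega
              · rw [if_neg c2] at ey
                omega
          · exact ih k (by omega) Sp hmin _ _ h4

theorem three_count (σ : Equiv.Perm V) (b : V → ℕ) (hb : Fib4 b) (Sp : Finset V) (hv : Valid σ Sp)
    (R : Finset ℕ) (hR : ∀ a ∈ Sp, b a ∈ R → ∀ w, σ.SameCycle a w → b w ∈ R) :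
    3 * (Sp.filter (fun a => b a ∈ R)).card ≤ 4 * R.card := by
  have h1 : ((Sp.filter (fun a => b a ∈ R)) ×ˢ (univ : Finset (Fin 3))).card
      ≤ (univ.filter (fun v => b v ∈ R)).card := by
    refine card_le_card_of_injOn (fun p : V × Fin 3 => (σ ^ (p.2 : ℕ)) p.1) ?_ ?_
    · rintro ⟨a, i⟩ hp
      have hp' := (mem_product.1 (mem_coe.1 hp)).1
      obtain ⟨ha, hbR⟩ := mem_filter.1 hp'
      refine mem_coe.2 (mem_filter.2 ⟨mem_univ _, ?_⟩)
      exact hR a ha hbR _ ⟨(i : ℕ), by simp⟩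
    · rintro ⟨a, i⟩ hp ⟨a', i'⟩ hp' he
      have hpa := (mem_filter.1 (mem_product.1 (mem_coe.1 hp)).1).1
      have hpa' := (mem_filter.1 (mem_product.1 (mem_coe.1 hp')).1).1
      have he' : (σ ^ (i : ℕ)) a = (σ ^ (i' : ℕ)) a' := he
      have hs : σ.SameCycle a a' := by
        have s1 : σ.SameCycle a ((σ ^ (i : ℕ)) a) := ⟨(i : ℕ), by simp⟩
        have s2 : σ.SameCycle a' ((σ ^ (i' : ℕ)) a') := ⟨(i' : ℕ), by simp⟩
        rw [he'] at s1
        exact s1.trans s2.symm
      have haa := hv.2.1 a hpa a' hpa' hs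
      subst haa
      have hc := hv.1 a hpa
      have hii : i = i' := by
        obtain ⟨c1, c2⟩ := hc
        have c3 : σ (σ a) ≠ σ a := fun hh => c1 (σ.injective hh)
        fin_cases i <;> fin_cases i' <;> simp [pow_succ, Equiv.Perm.mul_apply] at he' ⊢
        · exact c1 he'.symm
        · exact c2 he'.symm
        · exact c1 he'
        · exact c1 he'.symm
        · exact c2 he'
        · exact c1 he'
      rw [hii]
  have h2 : (univ.filter (fun v => b v ∈ R)).card ≤ 4 * R.card := by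
    have h3 : ∀ y ∈ R, ((univ.filter (fun v => b v ∈ R)).filter (fun v => b v = y)).card ≤ 4 := by
      intro y hy
      by_cases hne : ∃ v, b v = y
      · obtain ⟨v, rfl⟩ := hne
        have := hb v
        refine le_trans (card_le_card ?_) (le_of_eq this)
        intro x hx
        exact mem_filter.2 ⟨mem_univ _, (mem_filter.1 hx).2⟩
      · have : ((univ.filter (fun v => b v ∈ R)).filter (fun v => b v = y)) = ∅ := by
          apply eq_empty_of_forall_notMem
          intro x hx
          exact hne ⟨x, (mem_filter.1 hx).2⟩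
        rw [this]
        simp
    have := card_le_mul_card_image_of_maps_to (s := univ.filter (fun v => b v ∈ R)) (t := R) (f := b)
      (fun v hv => (mem_filter.1 hv).2) 4 h3
    exact this
  rw [card_product, card_univ, Fintype.card_fin] at h1
  omega

theorem sum_mult (b : V → ℕ) (Sp : Finset V) (R : Finset ℕ) :
    ∑ y ∈ R, mult b Sp y = (Sp.filter (fun a => b a ∈ R)).card := by
  rw [card_eq_sum_card_fiberwise (s := Sp.filter (fun a => b a ∈ R)) (f := b) (t := R)
    (fun v hv => mem_coe.2 (mem_filter.1 (mem_coe.1 hv)).2)]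
  refine sum_congr rfl ?_
  intro y hy
  unfold mult
  congr 1
  ext x
  simp only [mem_filter]
  constructor
  · rintro ⟨h1, h2⟩
    exact ⟨⟨h1, by rw [h2]; exact hy⟩, h2⟩
  · rintro ⟨⟨h1, _⟩, h2⟩
    exact ⟨h1, h2⟩

theorem z2 (σ : Equiv.Perm V) (b : V → ℕ) (hb : Fib4 b) (Sp : Finset V) (hmin : IsMin σ b Sp) (y : ℕ) :
    mult b Sp y ≤ 2 := by
  by_contra hcon
  push Not at hcon
  let R0 : Finset ℕ := (univ.image b).filter (fun z => ∃ n, PathN σ b Sp n y z)
  have hyR : y ∈ R0 := by
    have : 0 < (Sp.filter (fun a => b a = y)).card := by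
      have : (Sp.filter (fun a => b a = y)).card = mult b Sp y := rfl
      omega
    obtain ⟨a, ha⟩ := card_pos.1 this
    refine mem_filter.2 ⟨mem_image.2 ⟨a, mem_univ _, (mem_filter.1 ha).2⟩, 0, rfl⟩
  have hcl : ∀ a ∈ Sp, b a ∈ R0 → ∀ w, σ.SameCycle a w → b w ∈ R0 := by
    intro a ha hbR w hs
    obtain ⟨_, n, hn⟩ := mem_filter.1 hbR
    refine mem_filter.2 ⟨mem_image_of_mem _ (mem_univ _), n + 1, ?_⟩
    exact path_snoc σ b Sp n y (b a) (b w) hn ⟨a, ha, rfl, w, hs, rfl⟩
  have h1 := three_count σ b hb Sp hmin.1 R0 hcl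
  rw [← sum_mult] at h1
  have h2 : ∑ z ∈ R0, 2 ≤ ∑ z ∈ R0, mult b Sp z := by
    refine sum_le_sum ?_
    intro z hz
    obtain ⟨_, n, hn⟩ := mem_filter.1 hz
    have := z1 σ b n Sp hmin y z hn
    omega
  rw [sum_const, smul_eq_mul] at h2
  have h3 : 0 < R0.card := card_pos.2 ⟨y, hyR⟩
  omega

end ZoneAux

open Finset in
/-- TASK ZONE (section 2). -/
theorem zone {V : Type} [Fintype V] [DecidableEq V] (σ : Equiv.Perm V) (b : V → ℕ) (hb : Fib4 b) :
    ∃ (R : Finset ℕ) (SpR SpO : Finset V), State σ b R SpR ∧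
      (∀ a ∈ SpO, Cyc3 σ a ∧ b a ∉ R) ∧
      (∀ a ∈ SpO, ∀ a' ∈ SpO, b a = b a' → a = a') ∧
      (∀ v, Cyc3 σ v → ∃ a ∈ SpR ∪ SpO, σ.SameCycle v a) ∧
      (∀ a ∈ SpR, ∀ a' ∈ SpO, ¬ σ.SameCycle a a') := by
  classical
  obtain ⟨Sp, hmin⟩ := ZoneAux.exists_min σ b
  have hv := hmin.1
  let R : Finset ℕ := (univ.image b).filter
    (fun z => ∃ y, mult b Sp y = 2 ∧ ∃ n, ZoneAux.PathN σ b Sp n y z)
  have hcl : ∀ a ∈ Sp, b a ∈ R → ∀ w, σ.SameCycle a w → b w ∈ R := by
    intro a ha hbR w hs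
    obtain ⟨_, y, hy, n, hn⟩ := mem_filter.1 hbR
    refine mem_filter.2 ⟨mem_image_of_mem _ (mem_univ _), y, hy, n + 1, ?_⟩
    exact ZoneAux.path_snoc σ b Sp n y (b a) (b w) hn ⟨a, ha, rfl, w, hs, rfl⟩
  have hmR : ∀ y ∈ R, mult b (Sp.filter (fun a => b a ∈ R)) y = mult b Sp y := by
    intro y hy
    unfold mult
    congr 1
    ext x
    simp only [mem_filter]
    constructor
    · rintro ⟨⟨h1, _⟩, h2⟩
      exact ⟨h1, h2⟩
    · rintro ⟨h1, h2⟩
      exact ⟨⟨h1, by rw [h2]; exact hy⟩, h2⟩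
  refine ⟨R, Sp.filter (fun a => b a ∈ R), Sp.filter (fun a => b a ∉ R), ?_, ?_, ?_, ?_, ?_⟩
  · refine ⟨?_, ?_, ?_, ?_, ?_⟩
    · intro a ha a' ha' hs
      exact hv.2.1 a (mem_filter.1 ha).1 a' (mem_filter.1 ha').1 hs
    · intro a ha
      exact hv.1 a (mem_filter.1 ha).1
    · intro a ha w hs
      exact hcl a (mem_filter.1 ha).1 (mem_filter.1 ha).2 w hs
    · intro y hy
      rw [hmR y hy]
      obtain ⟨_, y0, hy0, n, hn⟩ := mem_filter.1 hy
      have := ZoneAux.z1 σ b n Sp hmin y0 y hn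
      omega
    · intro y hy
      rw [hmR y hy]
      exact ZoneAux.z2 σ b hb Sp hmin y
  · intro a ha
    exact ⟨hv.1 a (mem_filter.1 ha).1, (mem_filter.1 ha).2⟩
  · intro a ha a' ha' hbb
    by_contra hne
    obtain ⟨ha1, ha2⟩ := mem_filter.1 ha
    obtain ⟨ha1', ha2'⟩ := mem_filter.1 ha'
    have h2 : 2 ≤ mult b Sp (b a) := by
      unfold mult
      have : ({a, a'} : Finset V) ⊆ Sp.filter (fun x => b x = b a) := by
        intro x hx
        rcases mem_insert.1 hx with rfl | hx
        · exact mem_filter.2 ⟨ha1, rfl⟩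
        · rw [mem_singleton.1 hx]
          exact mem_filter.2 ⟨ha1', hbb.symm⟩
      have h3 := card_le_card this
      rw [card_pair hne] at h3
      exact h3
    have h3 := ZoneAux.z2 σ b hb Sp hmin (b a)
    apply ha2
    exact mem_filter.2 ⟨mem_image_of_mem _ (mem_univ _), b a, by omega, 0, rfl⟩
  · intro v hcv
    obtain ⟨a, ha, hs⟩ := hv.2.2 v hcv
    refine ⟨a, ?_, hs⟩
    by_cases h : b a ∈ R
    · exact mem_union_left _ (mem_filter.2 ⟨ha, h⟩)
    · exact mem_union_right _ (mem_filter.2 ⟨ha, h⟩)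
  · intro a ha a' ha' hs
    obtain ⟨ha1, ha2⟩ := mem_filter.1 ha
    obtain ⟨ha1', ha2'⟩ := mem_filter.1 ha'
    have := hv.2.1 a ha1 a' ha1' hs
    subst this
    exact ha2' ha2

end S4C
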