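import Pool.Agent.LibS4C.Final
import Pool.Agent.LibS4C.Stuck
import Pool.Agent.LibS4C.Zone
import Pool.Agent.LibS4C.Key
import Pool.Agent.LibS4C.Red
import Pool.Agent.LibS4C.IT
set_option autoImplicit false
set_option linter.unusedSectionVars false
namespace S4C
open Finset

variable {V : Type} [Fintype V] [DecidableEq V]

theorem exists_ends (σ : Equiv.Perm V) (b : V → ℕ) (hb : Fib4 b) (R : Finset ℕ) (Sp : Finset V)
    (z : ℕ) (hz : z ∈ dbl b R Sp) :
    ∃ e : V × V, e.1 ≠ e.2 ∧ ∀ v, (v = e.1 ∨ v = e.2) ↔ (b v = z ∧ v ∉ Sp) := by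
  classical
  have h2 : (Sp.filter (fun a => b a = z)).card = 2 := (mem_filter.mp hz).2
  obtain ⟨a, ha⟩ : (Sp.filter (fun a => b a = z)).Nonempty := card_pos.mp (by omega)
  have hab : b a = z := (mem_filter.mp ha).2
  have h4 : (univ.filter (fun w => b w = z)).card = 4 := by rw [← hab]; exact hb a
  have hsub : Sp.filter (fun a => b a = z) ⊆ univ.filter (fun w => b w = z) := by
    intro x hx
    exact mem_filter.mpr ⟨mem_univ _, (mem_filter.mp hx).2⟩
  have h5 := card_sdiff_of_subset hsub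
  rw [h4, h2] at h5
  obtain ⟨x, y, hxy, hE⟩ := card_eq_two.mp h5
  refine ⟨(x, y), hxy, ?_⟩
  intro v
  have : (v = x ∨ v = y) ↔ v ∈ ({x, y} : Finset V) := by simp
  show (v = x ∨ v = y) ↔ _
  rw [this, ← hE, mem_sdiff, mem_filter, mem_filter]
  constructor
  · rintro ⟨⟨_, h1⟩, h3⟩
    exact ⟨h1, fun h => h3 ⟨h, h1⟩⟩
  · rintro ⟨h1, h3⟩
    exact ⟨⟨mem_univ _, h1⟩, fun h => h3 h.1⟩

theorem col4_of_RC (σ : Equiv.Perm V) (b : V → ℕ) (hb : Fib4 b) (hrc : RC σ b) : Col4 σ b := by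
  classical
  rcases isEmpty_or_nonempty V with hV | hV
  · exact ⟨fun _ => 0, fun v => (hV.false v).elim, fun v => (hV.false v).elim⟩
  obtain ⟨R, Sp0, SpO, hS0, hO, hOi, hcov, hdis⟩ := zone σ b hb
  obtain ⟨Sp, hS, hsame, hv1, hv2⟩ := key σ b hb hrc R Sp0 hS0
  obtain ⟨T1, hT1, hT2, hT3, hT4, hT5⟩ := outsideIT_of_FS σ b hb (fun G U h1 h2 h3 => FS G U b h1 h2 h3) R SpO (fun a ha => (hO a ha).2) hOi (by
    intro v hv hw
    obtain ⟨a, ha, hva⟩ := hcov v hv
    rcases mem_union.mp ha with h | h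
    · exact absurd (hS0.inR a h a (Equiv.Perm.SameCycle.refl _ _)) (hw a hva)
    · exact ⟨a, h, hva⟩)
  obtain ⟨S, r, t, hSD, hSc, htt⟩ := stuck σ b Sp (dbl b R Sp) hV
  have hends : ∀ z : ℕ, ∃ e : V × V, z ∈ dbl b R Sp → (e.1 ≠ e.2 ∧ ∀ v, (v = e.1 ∨ v = e.2) ↔ (b v = z ∧ v ∉ Sp)) := by
    intro z
    by_cases hz : z ∈ dbl b R Sp
    · obtain ⟨e, he⟩ := exists_ends σ b hb R Sp z hz
      exact ⟨e, fun _ => he⟩
    · exact ⟨(hV.some, hV.some), fun h => absurd h hz⟩
  choose e he using hends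
  let C : Cfg σ b :=
    { R := R, Sp := Sp, SpO := SpO, T1 := T1, S := S, r := r, t := t,
      e1 := fun z => (e z).1, e2 := fun z => (e z).2,
      hb := hb, hrc := hrc, st := hS, v1 := hv1, v2 := hv2,
      hO := fun a ha => (hO a ha).2,
      hcov := by
        intro v hv
        obtain ⟨a, ha, hva⟩ := hcov v hv
        rcases mem_union.mp ha with h | h
        · exact Or.inl ((hsame v).mp ⟨a, h, hva⟩)
        · exact Or.inr ⟨a, h, hva⟩
      T1R := hT1, T1b := hT2, T1i := hT3, T1s := hT4, T1h := hT5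
      SD := hSD, Sc := hSc, tt := htt,
      hne := fun z hz => (he z hz).1, he := fun z hz => (he z hz).2 }
  exact C.final

theorem col4 (b : V → ℕ) (hb : Fib4 b) : ∀ σ : Equiv.Perm V, Col4 σ b := by
  have key : ∀ n : ℕ, ∀ σ : Equiv.Perm V, σ.support.card = n → Col4 σ b := by
    intro n
    induction n using Nat.strong_induction_on with
    | _ n ih =>
      intro σ hσ
      rcases reduction σ b hb (fun τ hτ => ih τ.support.card (hσ ▸ hτ) τ rfl) with h | h
      · exact h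
      · exact col4_of_RC σ b hb h
  exact fun σ => key _ σ rfl

end S4C
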