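import Mathlib
set_option autoImplicit false
set_option linter.unusedSectionVars false
namespace S4C
open Finset

theorem orient {V : Type} [Fintype V] [DecidableEq V] (G : SimpleGraph V) [DecidableRel G.Adj]
    (h : ∀ v, G.degree v = 2) : ∃ σ : Equiv.Perm V, ∀ v w, G.Adj v w → (w = σ v ∨ v = σ w) := by
  classical
  -- the other neighbour
  have hoth : ∀ v u : V, ∃ w, G.Adj v u → (G.Adj v w ∧ w ≠ u ∧ ∀ x, G.Adj v x → x = u ∨ x = w) := by
    intro v u
    by_cases hvu : G.Adj v u
    · have h2 := h v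
      rw [← SimpleGraph.card_neighborFinset_eq_degree] at h2
      obtain ⟨x, y, hxy, hE⟩ := card_eq_two.mp h2
      have hmem : ∀ z, G.Adj v z ↔ z = x ∨ z = y := by
        intro z
        rw [← SimpleGraph.mem_neighborFinset, hE]; simp
      rcases (hmem u).mp hvu with rfl | rfl
      · exact ⟨y, fun _ => ⟨(hmem y).mpr (Or.inr rfl), hxy.symm, fun z hz => (hmem z).mp hz⟩⟩
      · exact ⟨x, fun _ => ⟨(hmem x).mpr (Or.inl rfl), hxy, fun z hz => ((hmem z).mp hz).symm⟩⟩
    · exact ⟨u, fun h => absurd h hvu⟩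
  choose oth hoth using hoth
  have oth_oth : ∀ v u, G.Adj v u → oth v (oth v u) = u := by
    intro v u hvu
    obtain ⟨h1, h2, h3⟩ := hoth v u hvu
    obtain ⟨h4, h5, h6⟩ := hoth v (oth v u) h1
    rcases h3 _ h4 with h | h
    · exact h
    · exact absurd h h5
  let E := {p : V × V // G.Adj p.1 p.2}
  let π : Equiv.Perm E :=
    { toFun := fun d => ⟨(d.1.2, oth d.1.2 d.1.1), (hoth d.1.2 d.1.1 d.2.symm).1⟩
      invFun := fun d => ⟨(oth d.1.1 d.1.2, d.1.1), (hoth d.1.1 d.1.2 d.2).1.symm⟩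
      left_inv := by
        intro d
        apply Subtype.ext
        show (oth d.1.2 (oth d.1.2 d.1.1), d.1.2) = d.1
        rw [oth_oth _ _ d.2.symm]
      right_inv := by
        intro d
        apply Subtype.ext
        show (d.1.1, oth d.1.1 (oth d.1.1 d.1.2)) = d.1
        rw [oth_oth _ _ d.2] }
  let ρ : E → E := fun d => ⟨(d.1.2, d.1.1), d.2.symm⟩
  have hρρ : ∀ d, ρ (ρ d) = d := fun d => rfl
  have hρπ : ∀ d, ρ (π d) = π⁻¹ (ρ d) := by
    intro d
    rfl
  have hne : ∀ i : ℕ, ∀ d, (π ^ i) d ≠ ρ d := by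
    intro i
    induction i using Nat.strong_induction_on with
    | _ i ih =>
      intro d hd
      match i, ih, hd with
      | 0, _, hd =>
        have := congrArg (fun x : E => x.1.1) hd
        simp only [pow_zero, Equiv.Perm.coe_one, id] at this
        exact d.2.ne this
      | 1, _, hd =>
        have := congrArg (fun x : E => x.1.2) hd
        simp only [pow_one] at this
        exact (hoth d.1.2 d.1.1 d.2.symm).2.1 this
      | (i+2), ih, hd =>
        apply ih i (by omega) (π d)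
        rw [hρπ, ← hd]
        have e1 : (π ^ (i + 2)) d = π ((π ^ i) (π d)) := by
          rw [pow_succ', Equiv.Perm.mul_apply, pow_succ, Equiv.Perm.mul_apply]
        rw [e1]
        simp
  have hns : ∀ d, ¬ π.SameCycle d (ρ d) := by
    intro d hd
    obtain ⟨i, _, hi⟩ := hd.exists_pow_eq'
    exact hne i d hi
  let s : Setoid E := Equiv.Perm.SameCycle.setoid π
  let lab : E → Fin (Fintype.card (Quotient s)) := fun d => Fintype.equivFin (Quotient s) (Quotient.mk s d)
  have hlab : ∀ d d', lab d = lab d' ↔ π.SameCycle d d' := by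
    intro d d'
    constructor
    · intro h
      have h1 : Quotient.mk s d = Quotient.mk s d' := (Fintype.equivFin (Quotient s)).injective h
      exact Quotient.exact h1
    · intro h
      show Fintype.equivFin (Quotient s) (Quotient.mk s d) = Fintype.equivFin (Quotient s) (Quotient.mk s d')
      rw [Quotient.sound (s := s) h]
  have hlπ : ∀ d, lab (π d) = lab d := fun d => (hlab _ _).mpr ⟨-1, by simp⟩
  have hlρπ : ∀ d, lab (ρ (π d)) = lab (ρ d) := by
    intro d
    rw [hρπ]
    exact (hlab _ _).mpr ⟨1, by simp⟩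
  have hlne : ∀ d, lab d ≠ lab (ρ d) := fun d hd => hns d ((hlab _ _).mp hd)
  let ch : E → Prop := fun d => lab d < lab (ρ d)
  have hchρ : ∀ d, ch (ρ d) ↔ ¬ ch d := by
    intro d
    show lab (ρ d) < lab d ↔ ¬ (lab d < lab (ρ d))
    have := hlne d
    constructor
    · intro h1 h2; exact absurd (h1.trans h2) (lt_irrefl _)
    · intro h1
      exact lt_of_le_of_ne (not_lt.mp h1) (Ne.symm this)
  have hchπ : ∀ d, ch (π d) ↔ ch d := by
    intro d
    show lab (π d) < lab (ρ (π d)) ↔ _
    rw [hlπ, hlρπ]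
  -- out dart at each vertex
  have hout : ∀ v, ∃ w, ∃ hvw : G.Adj v w, ch ⟨(v, w), hvw⟩ := by
    intro v
    have hpos : 0 < G.degree v := by rw [h v]; norm_num
    obtain ⟨u, hu⟩ := (G.degree_pos_iff_exists_adj v).mp hpos
    by_cases hc : ch ⟨(v, u), hu⟩
    · exact ⟨u, hu, hc⟩
    · refine ⟨oth v u, (hoth v u hu).1, ?_⟩
      have : (⟨(v, oth v u), (hoth v u hu).1⟩ : E) = π (ρ ⟨(v, u), hu⟩) := rfl
      rw [this, hchπ, hchρ]
      exact hc
  have huniq : ∀ v w w' (hw : G.Adj v w) (hw' : G.Adj v w'), ch ⟨(v, w), hw⟩ → ch ⟨(v, w'), hw'⟩ → w = w' := by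
    intro v w w' hw hw' h1 h2
    rcases (hoth v w hw).2.2 w' hw' with h3 | h3
    · exact h3.symm
    · exfalso
      subst h3
      have : (⟨(v, oth v w), hw'⟩ : E) = π (ρ ⟨(v, w), hw⟩) := rfl
      rw [this, hchπ, hchρ] at h2
      exact h2 h1
  choose f hf1 hf2 using hout
  have hinj : Function.Injective f := by
    intro v v' hvv
    by_contra hne'
    have hadj' : G.Adj v' (f v) := hvv ▸ hf1 v'
    have hc' : ch ⟨(v', f v), hadj'⟩ := by
      have := hf2 v'
      have e : (⟨(v', f v'), hf1 v'⟩ : E) = ⟨(v', f v), hadj'⟩ := Subtype.ext (Prod.ext rfl hvv.symm)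
      rwa [e] at this
    rcases (hoth (f v) v (hf1 v).symm).2.2 v' hadj'.symm with h3 | h3
    · exact hne' h3.symm
    · have e : (⟨(v', f v), hadj'⟩ : E) = ρ (π ⟨(v, f v), hf1 v⟩) := by
        apply Subtype.ext
        show (v', f v) = (oth (f v) v, f v)
        rw [← h3]
      rw [e, hchρ, hchπ] at hc'
      exact hc' (hf2 v)
  refine ⟨Equiv.ofBijective f (Finite.injective_iff_bijective.mp hinj), ?_⟩
  intro v w hvw
  by_cases hc : ch ⟨(v, w), hvw⟩
  · left
    exact huniq v w (f v) hvw (hf1 v) hc (hf2 v)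
  · right
    have hc' : ch ⟨(w, v), hvw.symm⟩ := (hchρ ⟨(v, w), hvw⟩).mpr hc
    exact huniq w v (f w) hvw.symm (hf1 w) hc' (hf2 w)

end S4C
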